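import Pool.Agent.Helper79.Kurepa.Aleph

/-!
# The Kurepa family on `ℵ_n` for countable traces
-/

namespace Pool.Agent.Helper79.Kurepa

open Pool.Agent.Helper79.ZF

section
variable {M : Type} [Membership M M] [ZFCM M]

/-- a place not used by a condition -/
theorem fresh {κ μ c : M} (hc : c ∈ Lv κ μ) : ∃ i : M, i ∈ κ ∧ ∀ x z : M, ¬ opair (opair x i) z ∈ c := by
  by_contra hcon
  push Not at hcon
  apply (mem_Lv.1 hc).2.2.2
  apply le_image (A := c) (B := κ) (F := fun z => snd (fst z)) (by fun_prop)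
  intro i hi
  obtain ⟨x, z, hz⟩ := hcon i hi
  exact ⟨_, hz, by rw [fst_opair, snd_opair]⟩

theorem add_mem {κ μ c x i y : M} (hκ : IsReg κ) (hμ : IsOrd μ) (hc : c ∈ Lv κ μ) (hx : x ∈ μ) (hi : i ∈ κ) (hy : y ∈ x)
    (hf : ∀ z : M, ¬ opair (opair x i) z ∈ c) : cup c (sing (opair (opair x i) y)) ∈ Lv κ μ := by
  refine cup_mem_Lv hκ hc ?_ (fun x' i' y' z' h1 h2 => ?_)
  · rw [mem_Lv]
    refine ⟨fun z hz => ?_, fun x' i' y' h => ?_, fun x' i' y' z' h1 h2 => ?_, ?_⟩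
    · exact ⟨x, i, y, hx, hi, hμ.1 x y hx hy, mem_sing.1 hz⟩
    · have := mem_sing.1 h
      simp only [opair_inj] at this
      rw [this.2, this.1.1]; exact hy
    · have h3 := mem_sing.1 h1
      have h4 := mem_sing.1 h2
      simp only [opair_inj] at h3 h4
      rw [h3.2, h4.2]
    · intro h
      have h1 : Le (sing (opair (opair x i) y)) (suc emp) := by
        refine Le.of (fun _ => emp) (by fun_prop) (fun z _ => mem_suc.2 (Or.inr rfl)) (fun z w hz hw _ => ?_)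
        rw [mem_sing.1 hz, mem_sing.1 hw]
      exact hκ.init _ (hκ.succ _ hκ.zero) (h.trans h1)
  · have h3 := mem_sing.1 h2
    simp only [opair_inj] at h3
    rw [h3.1.1, h3.1.2] at h1
    exact absurd h1 (hf _)

end

namespace GenExt

section
variable {M N : Type} [Membership M M] [Membership N N] [ZFCM M] [ZFCM N] {lam κ μ : M}
  (g : GenExt M N (Lv (om M) lam) (Lv κ μ))

/-- countable sets of the extension are covered by small sets of the ground model -/
theorem cover_countable (hl : IsInac lam) (hκ : IsReg κ) (hlκ : lam ∈ κ) {x : N} (hx : MSub x (g.j κ)) (hxω : Le x (om N)) :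
    ∃ y : M, MSub y κ ∧ ¬ Le lam y ∧ MSub x (g.j y) := by
  obtain ⟨F, hF, hF1, hF2⟩ := hxω.fn
  let P : M := Lv (om M) lam
  let R : M := Lv κ μ
  have hω : IsReg (om M) := isReg_om
  obtain ⟨ρ, hρ, h⟩ := g.name (repS x (fun v => opair (F v) v))
  have hρd := hρ.df
  have hH : ∀ n v : M, (∃ p r : M, g.j (opair p r) ∈ g.G ∧ ρ p r (opair n v)) ↔ (g.j v ∈ x ∧ F (g.j v) = g.j n) := by
    intro n v
    rw [← h, mem_repS (by fun_prop)]
    constructor
    · rintro ⟨w, hw, hw'⟩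
      rw [g.j_opair, opair_inj] at hw'
      rw [hw'.2, hw'.1]; exact ⟨hw, rfl⟩
    · rintro ⟨h1, h2⟩
      exact ⟨_, h1, by rw [g.j_opair, h2]⟩
  have hcomp : ∀ {γ : Type} [Ctx M γ] {p r a : γ → M}, DefF M p → DefF M r → DefF M a → DefP M (fun t => ρ (p t) (r t) (a t)) := by
    intro γ _ p r a h1 h2 h3
    exact DefP_comp (R := fun t : M × (M × M) => ρ t.1 t.2.1 t.2.2) hρd (DefF_prod h1 (DefF_prod h2 h3))
  -- a condition forcing that the relation is functional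
  obtain ⟨p1, r1, h1, h2⟩ := g.gen (fun p r => (∃ n v v' : M, v ≠ v' ∧ ρ p r (opair n v) ∧ ρ p r (opair n v')) ∨
      ∀ n v v' p' r' : M, v ≠ v' → Ex P R p r p' r' → ¬ (ρ p' r' (opair n v) ∧ ρ p' r' (opair n v'))) (by
    apply DefP.or
    · apply DefP.ex; apply DefP.ex; apply DefP.ex
      apply DefP.and (by fun_prop)
      exact (hcomp (by fun_prop) (by fun_prop) (by fun_prop)).and (hcomp (by fun_prop) (by fun_prop) (by fun_prop))
    · apply DefP.all; apply DefP.all; apply DefP.all; apply DefP.all; apply DefP.all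
      apply DefP.imp (by fun_prop)
      apply DefP.imp (by fun_prop)
      exact ((hcomp (by fun_prop) (by fun_prop) (by fun_prop)).and (hcomp (by fun_prop) (by fun_prop) (by fun_prop))).not) (by
    intro p r hp hr
    by_cases hc : ∃ n v v' p' r' : M, v ≠ v' ∧ Ex P R p r p' r' ∧ ρ p' r' (opair n v) ∧ ρ p' r' (opair n v')
    · obtain ⟨n, v, v', p', r', h1, h2, h3⟩ := hc
      exact ⟨p', r', h2, Or.inl ⟨n, v, v', h1, h3⟩⟩
    · push Not at hc
      exact ⟨p, r, Ex.refl hp hr, Or.inr (fun n v v' p' r' h1 h2 h3 => hc n v v' p' r' h1 h2 h3.1 h3.2)⟩)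
  have h2' : ∀ n v v' p' r' : M, v ≠ v' → Ex P R p1 r1 p' r' → ¬ (ρ p' r' (opair n v) ∧ ρ p' r' (opair n v')) := by
    rcases h2 with ⟨n, v, v', h3, h4, h5⟩ | h2
    · exfalso
      obtain ⟨k1, k2⟩ := (hH n v).1 ⟨p1, r1, h1, h4⟩
      obtain ⟨k3, k4⟩ := (hH n v').1 ⟨p1, r1, h1, h5⟩
      exact h3 (g.inj (hF2 _ _ k1 k3 (k2.trans k4.symm)))
    · exact h2
  -- a condition deciding the values as far as the first factor is concerned
  let D : M → M → Prop := fun z r => (∃ p' v : M, p' ∈ P ∧ MSub (fst z) p' ∧ v ∈ κ ∧ ρ p' r (opair (snd z) v)) ∨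
      ∀ p' r' v : M, Ex P R (fst z) r p' r' → v ∈ κ → ¬ ρ p' r' (opair (snd z) v)
  have hD : DefP M (fun t : M × M => D t.1 t.2) := by
    simp only [D]
    apply DefP.or
    · apply DefP.ex; apply DefP.ex
      apply DefP.and (by fun_prop)
      apply DefP.and (by fun_prop)
      apply DefP.and (by fun_prop)
      exact hcomp (by fun_prop) (by fun_prop) (by fun_prop)
    · apply DefP.all; apply DefP.all; apply DefP.all
      apply DefP.imp (by fun_prop)
      apply DefP.imp (by fun_prop)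
      exact (hcomp (by fun_prop) (by fun_prop) (by fun_prop)).not
  have hDmono : ∀ z r r' : M, r' ∈ R → MSub r r' → D z r → D z r' := by
    rintro z r r' hr' hrr' (⟨p', v, h3, h4, h5, h6⟩ | h3)
    · exact Or.inl ⟨p', v, h3, h4, h5, hρ.mono p' r _ p' r' ⟨h3, hr', fun z h => h, hrr'⟩ h6⟩
    · exact Or.inr (fun p' r'' v h4 h5 => h3 p' r'' v ⟨h4.1, h4.2.1, h4.2.2.1, MSub.trans' hrr' h4.2.2.2⟩ h5)
  have hPl : Le P lam := Lv_le hl hl.unc
  have hlκ' : ¬ Le κ lam := hκ.init _ hlκ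
  have hT : ¬ Le κ (prodS P (om M)) := hκ.prod (fun h => hlκ' (h.trans hPl)) (fun h => hlκ' (h.trans hl.reg.inf))
  obtain ⟨p2, r2, h3, h4⟩ := g.gen (fun _ r => ∀ z : M, z ∈ prodS P (om M) → D z r) (by
    apply DefP.all
    apply DefP.imp (by fun_prop)
    exact DefP_comp (R := fun t : M × M => D t.1 t.2) hD (f := fun t : (M × M) × M => (t.2, t.1.2)) (by fun_prop)) (by
    intro p r hp hr
    obtain ⟨r', k1, k2, k3⟩ := fuse (κ := κ) (μ := μ) (T := prodS P (om M)) hκ hT hr (Φ := D) hD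
      (fun z r r' _ _ hr' hrr' h => hDmono z r r' hr' hrr' h) (by
        intro z r hz hr _
        obtain ⟨q, n, hq, hn, rfl⟩ := mem_prodS.1 hz
        simp only [D, fst_opair, snd_opair]
        by_cases hc : ∃ p' r' v : M, Ex P R q r p' r' ∧ v ∈ κ ∧ ρ p' r' (opair n v)
        · obtain ⟨p', r', v, k1, k2, k3⟩ := hc
          exact ⟨r', k1.2.1, k1.2.2.2, Or.inl ⟨p', v, k1.1, k1.2.2.1, k2, k3⟩⟩
        · push Not at hc
          exact ⟨r, hr, fun z h => h, Or.inr hc⟩)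
    exact ⟨p, r', ⟨hp, k1, fun z h => h, k2⟩, k3⟩)
  obtain ⟨p0, r0, h5, h6, h7⟩ := g.G_dir h1 h3
  have hfun : ∀ n v v' p r : M, Ex P R p0 r0 p r → ρ p r (opair n v) → ρ p r (opair n v') → v = v' := by
    intro n v v' p r k1 k2 k3
    by_contra hne
    exact h2' n v v' p r hne (h6.trans k1) ⟨k2, k3⟩
  have hdec : ∀ z : M, z ∈ prodS P (om M) → D z r0 := fun z hz => hDmono z r2 r0 h7.2.1 h7.2.2.2 (h4 z hz)
  obtain ⟨δ0, hδ0, hp0⟩ := exists_Lv hl.reg (hl.reg.init _ hl.unc) h6.1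
  obtain ⟨δ, hδ, hδδ, hcl⟩ := closing (A := om M) hω hl hl.unc (hl.reg.init _ hl.unc) hδ0
    (Φ := fun c n c' => MSub c c' ∧ ∃ v : M, v ∈ κ ∧ ρ c' r0 (opair n v)) (by
      apply DefP.and (by fun_prop)
      apply DefP.ex
      apply DefP.and (by fun_prop)
      exact hcomp (by fun_prop) (by fun_prop) (by fun_prop))
  have hδo : IsOrd δ := ord_mem hl.reg.ord hδ
  have hδl : MSub δ lam := ord_sub hl.reg.ord hδ
  have hp0δ : p0 ∈ Lv (om M) δ := Lv_mono hδδ _ hp0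
  have hyd : DefP M (fun v : M => ∃ c n : M, c ∈ Lv (om M) δ ∧ MSub p0 c ∧ n ∈ om M ∧ ρ c r0 (opair n v)) := by
    apply DefP.ex; apply DefP.ex
    apply DefP.and (by fun_prop)
    apply DefP.and (by fun_prop)
    apply DefP.and (by fun_prop)
    exact hcomp (by fun_prop) (by fun_prop) (by fun_prop)
  refine ⟨sepS κ (fun v => ∃ c n : M, c ∈ Lv (om M) δ ∧ MSub p0 c ∧ n ∈ om M ∧ ρ c r0 (opair n v)),
    fun v hv => ((mem_sepS hyd).1 hv).1, ?_, ?_⟩
  · -- the covering set is small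
    have hv : DefF M (fun z : M => theD (fun v => ρ (fst z) r0 (opair (snd z) v))) := by
      have : DefP M (fun t : M × M => ρ (fst t.1) r0 (opair (snd t.1) t.2)) := hcomp (by fun_prop) (by fun_prop) (by fun_prop)
      fun_prop
    have hle := le_image (A := prodS (Lv (om M) δ) (om M)) (B := sepS κ (fun v => ∃ c n : M, c ∈ Lv (om M) δ ∧ MSub p0 c ∧ n ∈ om M ∧ ρ c r0 (opair n v)))
      hv (by
        intro v hv
        obtain ⟨_, c, n, k1, k2, k3, k4⟩ := (mem_sepS hyd).1 hv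
        refine ⟨opair c n, opair_mem_prodS.2 ⟨k1, k3⟩, ?_⟩
        rw [fst_opair, snd_opair]
        apply theD_eq (R := fun v => ρ c r0 (opair n v)) k4
        intro v' k5
        exact hfun n v' v c r0 ⟨Lv_mono hδl _ k1, h6.2.1, k2, fun z h => h⟩ k5 k4)
    exact fun h' => (hl.reg.prod (Lv_small hl hl.unc hδ) (hl.reg.init _ hl.unc)) (h'.trans hle)
  · intro v' hv'
    obtain ⟨v, hv, rfl⟩ := g.mem_j.1 (hx v' hv')
    have k1 := hF1 _ hv'
    rw [← g.j_om] at k1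
    obtain ⟨n, hn, k2⟩ := g.mem_j.1 k1
    obtain ⟨p3, r3, k3, k4⟩ := (hH n v).2 ⟨hv', k2⟩
    obtain ⟨p, r, k5, k6, k7⟩ := g.G_dir k3 h5
    have k8 : ρ p r (opair n v) := hρ.mono _ _ _ _ _ k6 k4
    have hc : res p δ ∈ Lv (om M) δ := res_mem hδo k6.1
    have hp0c : MSub p0 (res p δ) := by
      rw [← res_eq_self hp0δ]; exact res_mono k7.2.2.1 δ
    have k9 := hdec (opair (res p δ) n) (opair_mem_prodS.2 ⟨Lv_mono hδl _ hc, hn⟩)
    simp only [D, fst_opair, snd_opair] at k9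
    rcases k9 with ⟨p', v2, l1, l2, l3, l4⟩ | k9
    · obtain ⟨c', l5, l6, v3, l7, l8⟩ := hcl (res p δ) n hc hn ⟨p', l1, l2, v2, l3, l4⟩
      obtain ⟨m1, m2⟩ := amalg hω hδl k6.1 l5 l6
      have l9 : ρ (cup p c') r (opair n v3) := hρ.mono c' r0 _ _ _ ⟨m1, k6.2.1, fun z hz => mem_cup.2 (Or.inr hz), k7.2.2.2⟩ l8
      have l10 : ρ (cup p c') r (opair n v) := hρ.mono p r _ _ _ ⟨m1, k6.2.1, fun z hz => mem_cup.2 (Or.inl hz), fun z h => h⟩ k8
      have l11 : v = v3 := hfun n v v3 _ _ ⟨m1, k6.2.1, fun z hz => mem_cup.2 (Or.inl (k7.2.2.1 z hz)), k7.2.2.2⟩ l10 l9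
      rw [g.j_mem_j, mem_sepS hyd]
      exact ⟨hv, c', n, l5, MSub.trans' hp0c l6, hn, by rw [l11]; exact l8⟩
    · exact absurd k8 (k9 p r v ⟨k6.1, k6.2.1, res_sub p δ, k7.2.2.2⟩ hv)

/-- small traces of sets named in the second factor are in the ground model -/
theorem trace_mem (hκ : IsReg κ) {y : M} (hy : ¬ Le κ y) {σ : M}
    (hσ : ∀ q a : M, opair q a ∈ σ → ∃ r : M, r ∈ Lv κ μ ∧ q = opair emp r) :
    ∃ t : M, MSub t y ∧ ∀ a : M, a ∈ y → (g.j a ∈ g.ev (g.j σ) ↔ a ∈ t) := by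
  let pos : M → M → Prop := fun a r => ∃ r' : M, MSub r' r ∧ opair (opair emp r') a ∈ σ
  have hpos : DefP M (fun t : M × M => pos t.1 t.2) := by simp only [pos]; fun_prop
  let D : M → M → Prop := fun a r => pos a r ∨ ∀ r' : M, r' ∈ Lv κ μ → MSub r r' → ¬ pos a r'
  have hD : DefP M (fun t : M × M => D t.1 t.2) := by simp only [D, pos]; fun_prop
  have hmono : ∀ a r r' : M, MSub r r' → pos a r → pos a r' := by
    rintro a r r' h ⟨r1, h1, h2⟩; exact ⟨r1, MSub.trans' h1 h, h2⟩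
  obtain ⟨p0, r0, h1, h2⟩ := g.gen (fun _ r => ∀ a : M, a ∈ y → D a r) (by simp only [D, pos]; fun_prop) (by
    intro p r hp hr
    obtain ⟨r', k1, k2, k3⟩ := fuse (κ := κ) (μ := μ) (T := y) hκ hy hr (Φ := D) hD (by
      rintro a r r' _ _ _ hrr' (h | h)
      · exact Or.inl (hmono a r r' hrr' h)
      · exact Or.inr (fun r'' h1 h2 => h r'' h1 (MSub.trans' hrr' h2))) (by
      intro a r _ hr _
      by_cases hc : ∃ r' : M, r' ∈ Lv κ μ ∧ MSub r r' ∧ pos a r'
      · obtain ⟨r', h1, h2, h3⟩ := hc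
        exact ⟨r', h1, h2, Or.inl h3⟩
      · push Not at hc
        exact ⟨r, hr, fun z h => h, Or.inr hc⟩)
    exact ⟨p, r', ⟨hp, k1, fun z h => h, k2⟩, k3⟩)
  have hposd : DefP M (fun a : M => pos a r0) := by simp only [pos]; fun_prop
  refine ⟨sepS y (fun a => pos a r0), fun a ha => ((mem_sepS hposd).1 ha).1, fun a ha => ?_⟩
  rw [mem_sepS hposd, g.j_mem_ev]
  constructor
  · rintro ⟨p, r, h3, h4⟩
    obtain ⟨r', _, h6⟩ := hσ _ _ h4
    rw [opair_inj] at h6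
    obtain ⟨rfl, _⟩ := h6
    refine ⟨ha, (h2 a ha).resolve_right (fun h5 => ?_)⟩
    obtain ⟨p'', r'', _, h8, h9⟩ := g.G_dir h3 h1
    exact h5 r'' h8.2.1 h9.2.2.2 ⟨r, h8.2.2.2, h4⟩
  · rintro ⟨_, r', h3, h4⟩
    obtain ⟨r1, h5, h6⟩ := hσ _ _ h4
    rw [opair_inj] at h6
    refine ⟨emp, r', g.up emp r' p0 r0 h1 (emp_mem_Lv isReg_om) ?_ (fun z hz => absurd hz (not_mem_emp z)) h3, h4⟩
    rw [h6.2]; exact h5

end

end GenExt

namespace Cfg

section
variable {M N : Type} [Membership M M] [Membership N N] [ZFCM M] [ZFCM N] (c : Cfg M) {m : ℕ}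
  (g : GenExt M N c.P (c.R m))

include c g in
/-- `KH(ℵ_{m+1}, ℵ_0)` holds in the extension -/
theorem N_pos (hm : 1 ≤ m) : KH N (m + 1) 0 := by
  let κ := c.K m
  have hκ : IsReg κ := c.Kreg m
  let Sg : M := pow (prodS (prodS (sing emp) (Lv κ c.μ)) κ)
  have hSg : ∀ σ : M, σ ∈ Sg → ∀ q a : M, opair q a ∈ σ → a ∈ κ ∧ ∃ r : M, r ∈ Lv κ c.μ ∧ q = opair emp r := by
    intro σ hσ q a h
    have := mem_pow.1 hσ _ h
    rw [opair_mem_prodS] at this
    obtain ⟨h1, h2⟩ := this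
    obtain ⟨u, r, hu, hr, rfl⟩ := mem_prodS.1 h1
    rw [mem_sing] at hu
    subst hu
    exact ⟨h2, r, hr, rfl⟩
  refine ⟨g.j κ, repS (g.j Sg) g.ev, g.j c.μ, c.N_aleph g hm m (le_refl m), ?_, c.N_succ_κ g, ?_, ?_⟩
  · -- subsets of κ
    intro t ht z hz
    obtain ⟨s, hs, rfl⟩ := (mem_repS (by fun_prop)).1 ht
    obtain ⟨σ, hσ, rfl⟩ := g.mem_j.1 hs
    obtain ⟨q, _, hq⟩ := g.mem_ev.1 hz
    obtain ⟨q', a, _, rfl, h1⟩ := g.opair_mem_j hq
    exact g.j_mem_j.2 (hSg σ hσ _ _ h1).1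
  · -- there are many of them
    let F : N → N := fun x => sepS (g.j κ) (fun i => ∃ q : N, q ∈ g.G ∧ opair (opair (suc (suc x)) i) emp ∈ snd q)
    have hF : DefF N F := by simp only [F]; fun_prop
    have memF : ∀ ν i : M, (g.j i ∈ F (g.j ν) ↔ (i ∈ κ ∧ ∃ p r : M, g.j (opair p r) ∈ g.G ∧ opair (opair (suc (suc ν)) i) emp ∈ r)) := by
      intro ν i
      simp only [F]
      rw [mem_sepS (by fun_prop), g.j_mem_j]
      refine and_congr Iff.rfl ?_
      constructor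
      · rintro ⟨q, hq, h⟩
        obtain ⟨p, r, _, _, rfl⟩ := g.G_sub q hq
        refine ⟨p, r, hq, ?_⟩
        rw [g.j_opair, snd_opair, ← g.j_suc, ← g.j_suc, ← g.j_opair, ← g.j_emp, ← g.j_opair, g.j_mem_j] at h
        exact h
      · rintro ⟨p, r, h1, h2⟩
        refine ⟨_, h1, ?_⟩
        rw [g.j_opair, snd_opair, ← g.j_suc, ← g.j_suc, ← g.j_opair, ← g.j_emp, ← g.j_opair, g.j_mem_j]
        exact h2
    have hssμ : ∀ ν : M, ν ∈ c.μ → suc (suc ν) ∈ c.μ := fun ν hν => c.hm.reg.succ _ (c.hm.reg.succ _ hν)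
    have h0 : ∀ ν : M, IsOrd ν → emp ∈ suc (suc ν) ∧ suc emp ∈ suc (suc ν) := by
      intro ν hν
      have hs := ord_suc hν
      have hss := ord_suc hs
      have e0 : ∀ w : M, IsOrd w → emp ∈ suc w := by
        intro w hw
        rcases ord_trich emp w ord_emp hw with h | h | h
        · exact mem_suc.2 (Or.inl h)
        · exact mem_suc.2 (Or.inr h)
        · exact absurd h (not_mem_emp w)
      refine ⟨e0 _ hs, ?_⟩
      rcases ord_trich (suc emp) (suc ν) (ord_suc ord_emp) hs with h | h | h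
      · exact mem_suc.2 (Or.inl h)
      · exact mem_suc.2 (Or.inr h)
      · rcases mem_suc.1 h with h' | h'
        · exact absurd h' (not_mem_emp _)
        · exact absurd h' (suc_ne_emp ν)
    refine Le.of F hF (fun x hx => ?_) (fun x y hx hy hxy => ?_)
    · obtain ⟨ν, hν, rfl⟩ := g.mem_j.1 hx
      rw [mem_repS (by fun_prop)]
      let σ : M := sepS (prodS (prodS (sing emp) (Lv κ c.μ)) κ) (fun w => opair (opair (suc (suc ν)) (snd w)) emp ∈ snd (fst w))
      refine ⟨g.j σ, g.j_mem_j.2 (mem_pow.2 (fun w hw => ((mem_sepS (by fun_prop)).1 hw).1)), ?_⟩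
      apply g.eq_ev (A := κ)
      · exact fun z hz => ((mem_sepS (by fun_prop)).1 hz).1
      · intro q a hqa
        have := ((mem_sepS (by fun_prop)).1 hqa).1
        rw [opair_mem_prodS] at this
        exact this.2
      · intro a ha
        rw [memF]
        constructor
        · rintro ⟨_, p, r, h1, h2⟩
          refine ⟨emp, r, g.up emp r p r h1 (emp_mem_Lv isReg_om) (g.G_mem h1).2 (fun z hz => absurd hz (not_mem_emp z)) (fun z h => h), ?_⟩
          simp only [σ]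
          rw [mem_sepS (by fun_prop)]
          refine ⟨?_, ?_⟩
          · simp only [opair_mem_prodS]
            exact ⟨⟨mem_sing.2 rfl, (g.G_mem h1).2⟩, ha⟩
          · rw [snd_opair, fst_opair, snd_opair]; exact h2
        · rintro ⟨p, r, h1, h2⟩
          simp only [σ] at h2
          rw [mem_sepS (by fun_prop)] at h2
          have h3 := h2.2
          rw [snd_opair, fst_opair, snd_opair] at h3
          exact ⟨ha, p, r, h1, h3⟩
    · obtain ⟨ν, hν, rfl⟩ := g.mem_j.1 hx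
      obtain ⟨ν', hν', rfl⟩ := g.mem_j.1 hy
      by_contra hne
      have hne' : ν ≠ ν' := fun h => hne (by rw [h])
      obtain ⟨p, r, h1, i, h2, h3, h4⟩ := g.gen (fun _ r => ∃ i : M, i ∈ κ ∧ opair (opair (suc (suc ν)) i) emp ∈ r ∧
        opair (opair (suc (suc ν')) i) (suc emp) ∈ r) (by fun_prop) (by
          intro p r hp hr
          obtain ⟨i, hi, hi'⟩ := fresh (κ := κ) (μ := c.μ) hr
          have hoν := ord_mem c.hm.reg.ord hν
          have hoν' := ord_mem c.hm.reg.ord hν'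
          have k1 := add_mem hκ c.hm.reg.ord hr (hssμ ν hν) hi (h0 ν hoν).1 (hi' _)
          have k2 := add_mem hκ c.hm.reg.ord k1 (hssμ ν' hν') hi (h0 ν' hoν').2 (by
            intro z hz
            rcases mem_cup.1 hz with h | h
            · exact hi' _ _ h
            · rw [mem_sing] at h
              simp only [opair_inj] at h
              exact hne' (suc_inj (suc_inj h.1.1.symm)))
          exact ⟨p, _, ⟨hp, k2, fun z h => h, fun z hz => mem_cup.2 (Or.inl (mem_cup.2 (Or.inl hz)))⟩, i, hi,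
            mem_cup.2 (Or.inl (mem_cup.2 (Or.inr (mem_sing.2 rfl)))), mem_cup.2 (Or.inr (mem_sing.2 rfl))⟩)
      have h5 : g.j i ∈ F (g.j ν) := (memF ν i).2 ⟨h2, p, r, h1, h3⟩
      have hxy' : F (g.j ν) = F (g.j ν') := hxy
      rw [hxy', memF] at h5
      obtain ⟨_, p', r', h6, h7⟩ := h5
      obtain ⟨p'', r'', h8, h9, h10⟩ := g.G_dir h1 h6
      have h11 := (mem_Lv.1 (g.G_mem h8).2).2.2.1 _ _ _ _ (h10.2.2.2 _ h7) (h9.2.2.2 _ h4)
      exact suc_ne_emp _ h11.symm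
  · -- countable traces
    rintro x T hx ⟨W, hW, hx1, hx2⟩ hT
    rw [isOmega_iff] at hW
    subst hW
    obtain ⟨y, hy1, hy2, hy3⟩ := GenExt.cover_countable (lam := c.lam) (κ := κ) (μ := c.μ) g c.hl hκ (c.lam_mem hm) hx hx2
    have hyκ : ¬ Le κ y := fun h => hy2 ((Le.of_sub (ord_sub hκ.ord (c.lam_mem hm))).trans h)
    have h1 : Le T (g.j (pow y)) := by
      apply le_image (F := fun s => capS s x) (by fun_prop)
      intro s hs
      obtain ⟨t, ht, hst⟩ := (hT s).1 hs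
      obtain ⟨w, hw, rfl⟩ := (mem_repS (by fun_prop)).1 ht
      obtain ⟨σ, hσ, rfl⟩ := g.mem_j.1 hw
      obtain ⟨t0, h2, h3⟩ := GenExt.trace_mem (lam := c.lam) (κ := κ) (μ := c.μ) g hκ hyκ (σ := σ) (fun q a h => (hSg σ hσ q a h).2)
      refine ⟨g.j t0, g.j_mem_j.2 (mem_pow.2 h2), ?_⟩
      apply ext'
      intro z
      rw [mem_capS, hst]
      constructor
      · rintro ⟨h4, h5⟩
        obtain ⟨a, ha, rfl⟩ := g.mem_j.1 (hy3 z h5)
        exact ⟨(h3 a ha).2 (g.j_mem_j.1 h4), h5⟩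
      · rintro ⟨h4, h5⟩
        obtain ⟨a, ha, rfl⟩ := g.mem_j.1 (hy3 z h5)
        exact ⟨g.j_mem_j.2 ((h3 a ha).1 h4), h5⟩
    obtain ⟨δ, hδ, _, h2, _⟩ := exists_mem_le c.hl.reg.ord (c.hl.lim _ hy2)
    exact h1.trans ((g.j_le h2).trans ((c.N_seg_lam g _ (g.j_mem_j.2 hδ)).trans hx1))

end

end Cfg

end Pool.Agent.Helper79.Kurepa
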