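import Mathlib
import Pool.Agent.Helper79.ZF.Model

/-!
# Models of ZFC, cardinalities, GCH, inaccessible cardinals and higher Kurepa families in a model
-/

namespace Pool.Agent.Helper79.Kurepa

open Pool.Agent.Helper79.ZF

section
variable {M : Type} [Membership M M]

/-- `|A| ≤ |B|` in the model: some set of the model (of ordered pairs) is an injective function whose
domain contains `A` and which sends the elements of `A` to elements of `B`. -/
def Le (A B : M) : Prop := ∃ f : M,
  (∀ x : M, x ∈ A → ∃ y : M, y ∈ B ∧ ∃ p : M, p ∈ f ∧ IsPair p x y) ∧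
  (∀ x y z p q : M, p ∈ f → q ∈ f → IsPair p x y → IsPair q x z → y = z) ∧
  (∀ x y z p q : M, p ∈ f → q ∈ f → IsPair p x z → IsPair q y z → x = y)

/-- `|Y| = |X|⁺` in the model: `Y` has the least cardinality not below that of `X`. -/
def IsSucc (X Y : M) : Prop := ¬ Le Y X ∧ ∀ Z : M, ¬ Le Z X → Le Y Z

/-- `I` is an inductive set: it contains the empty set and is closed under `y ↦ y ∪ {y}`. -/
def IsInd (I : M) : Prop := (∃ e : M, e ∈ I ∧ ∀ z : M, ¬ z ∈ e) ∧
  ∀ y : M, y ∈ I → ∃ z : M, z ∈ I ∧ ∀ w : M, w ∈ z ↔ (w ∈ y ∨ w = y)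

/-- `W` is the set of natural numbers of the model, the least inductive set. -/
def IsOmega (W : M) : Prop := IsInd W ∧ ∀ I : M, IsInd I → MSub W I

/-- `X` has cardinality `ℵ_n` in the model. -/
def HasAleph : ℕ → M → Prop
  | 0, X => ∃ W : M, IsOmega W ∧ Le W X ∧ Le X W
  | n + 1, X => ∃ Y : M, HasAleph n Y ∧ IsSucc Y X

/-- `P` is the power set of `X`. -/
def IsPow (P X : M) : Prop := ∀ z : M, z ∈ P ↔ MSub z X

/-- The cardinality of `X` is a (strongly) inaccessible cardinal in the model: `X` is uncountable, the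
power set of every set of smaller cardinality has smaller cardinality, and so has the union of every
family of smaller cardinality of sets of smaller cardinality. -/
def Inacc (X : M) : Prop :=
  (∀ W : M, IsOmega W → ¬ Le X W) ∧
  (∀ Y P : M, ¬ Le X Y → IsPow P Y → ¬ Le X P) ∧
  ∀ F U : M, ¬ Le X F → (∀ y : M, y ∈ F → ¬ Le X y) → (∀ z : M, z ∈ U ↔ ∃ y : M, y ∈ F ∧ z ∈ y) → ¬ Le X U

/-- `T` is the set `{t ∩ x | t ∈ F}` of traces on `x` of the members of `F`. -/
def IsTrace (T F x : M) : Prop := ∀ s : M, s ∈ T ↔ ∃ t : M, t ∈ F ∧ ∀ z : M, z ∈ s ↔ (z ∈ t ∧ z ∈ x)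

end

/-- The axiom of choice in the model: every family of nonempty sets has a choice function. -/
def AC (M : Type) [Membership M M] : Prop := ∀ X : M, (∀ y : M, y ∈ X → ∃ z : M, z ∈ y) →
  ∃ f : M, ∀ y : M, y ∈ X → ∃ z : M, z ∈ y ∧ ∀ w p : M, IsPair p y w → (p ∈ f ↔ w = z)

/-- `M` is a model of ZFC. -/
def ZFCModel (M : Type) [Membership M M] : Prop := ZFModel M ∧ AC M

/-- The generalized continuum hypothesis in the model: the power set of every infinite set `X` has
cardinality `|X|⁺`. -/
def GCH (M : Type) [Membership M M] : Prop :=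
  ∀ X P : M, (∃ W : M, IsOmega W ∧ Le W X) → IsPow P X → IsSucc X P

/-- `KH(ℵ_n, ℵ_m)` in the model: there are a set `K` of cardinality `ℵ_n` and a family `F` of subsets
of `K` with at least `ℵ_n⁺` members such that for each `x ⊆ K` of cardinality `ℵ_m` the set of traces
`{t ∩ x | t ∈ F}` has at most `ℵ_m` members. -/
def KH (M : Type) [Membership M M] (n m : ℕ) : Prop := ∃ K F S : M,
  HasAleph n K ∧ (∀ t : M, t ∈ F → MSub t K) ∧ IsSucc K S ∧ Le S F ∧
  ∀ x T : M, MSub x K → HasAleph m x → IsTrace T F x → Le T x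

/-- In the model there are two inaccessible cardinals (sets of different inaccessible cardinalities). -/
def TwoInacc (M : Type) [Membership M M] : Prop := ∃ X Y : M, Inacc X ∧ Inacc Y ∧ ¬ Le Y X

end Pool.Agent.Helper79.Kurepa
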