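import Pool.Agent.Helper79.Kurepa.Pos

/-!
# No Kurepa family on `ℵ_n` for traces on sets of cardinality `ℵ_1`
-/

namespace Pool.Agent.Helper79.Kurepa

open Pool.Agent.Helper79.ZF

section
variable {N : Type} [Membership N N] [ZFModel N]

/-- a bijection from two injections -/
theorem exists_bij {A B : N} (h : Le A B) (h' : Le B A) : ∃ F : N → N, DefF N F ∧ (∀ x : N, x ∈ A → F x ∈ B) ∧
    (∀ x y : N, x ∈ A → y ∈ A → F x = F y → x = y) ∧ ∀ y : N, y ∈ B → ∃ x : N, x ∈ A ∧ F x = y := by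
  obtain ⟨F, hF, h1, h2⟩ := h.fn
  obtain ⟨G, hG, h3, h4⟩ := h'.fn
  let f : El A → El A := fun x => El.mk (G (F x.v)) (h3 _ (h1 _ x.mem))
  have hf : DefF N f := by
    apply DefF_of_v
    show DefF N (fun x : El A => G (F x.v))
    fun_prop
  have hfi : Function.Injective f := by
    intro x y hxy
    have : G (F x.v) = G (F y.v) := congrArg El.v hxy
    exact El.ext (h2 _ _ x.mem y.mem (h4 _ _ (h1 _ x.mem) (h1 _ y.mem) this))
  obtain ⟨k, hk, hki, hks⟩ := cantor_bernstein hf hfi (R := fun y => ∃ b : N, b ∈ B ∧ G b = y.v) (by fun_prop)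
    (fun x => ⟨F x.v, h1 _ x.mem, rfl⟩)
  refine ⟨fun x => theD (fun b => b ∈ B ∧ ∃ y : El A, y.v = x ∧ G b = (k y).v), by fun_prop, ?_⟩
  have key : ∀ y : El A, ∃ b : N, b ∈ B ∧ G b = (k y).v ∧ theD (fun b => b ∈ B ∧ ∃ y' : El A, y'.v = y.v ∧ G b = (k y').v) = b := by
    intro y
    obtain ⟨b, hb, hb'⟩ := (hks (k y)).2 ⟨y, rfl⟩
    refine ⟨b, hb, hb', ?_⟩
    apply theD_eq ⟨hb, y, rfl, hb'⟩
    rintro b' ⟨hb1, y', hy', hb2⟩
    rw [El.ext hy'] at hb2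
    exact h4 _ _ hb1 hb (hb2.trans hb'.symm)
  refine ⟨fun x hx => ?_, fun x y hx hy hxy => ?_, fun b hb => ?_⟩
  · obtain ⟨b, hb, _, hb'⟩ := key (El.mk x hx)
    have e : theD (fun b => b ∈ B ∧ ∃ y' : El A, y'.v = x ∧ G b = (k y').v) = b := hb'
    show theD (fun b => b ∈ B ∧ ∃ y' : El A, y'.v = x ∧ G b = (k y').v) ∈ B
    rw [e]
    exact hb
  · obtain ⟨b, hb, hb1, hb2⟩ := key (El.mk x hx)
    obtain ⟨b', hb', hb1', hb2'⟩ := key (El.mk y hy)
    have e : b = b' := hb2.symm.trans (hxy.trans hb2')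
    rw [e, hb1'] at hb1
    exact (congrArg El.v (hki (El.ext hb1))).symm
  · obtain ⟨y, hy⟩ := (hks (El.mk (G b) (h3 b hb))).1 ⟨b, hb, rfl⟩
    obtain ⟨b', hb', hb1, hb2⟩ := key y
    refine ⟨y.v, y.mem, ?_⟩
    have : G b' = G b := by rw [hb1, hy]; rfl
    rw [← h4 _ _ hb' hb this]
    exact hb2

end

namespace GenExt

section
variable {M N : Type} [Membership M M] [Membership N N] [ZFCM M] [ZFCM N] {P κ μ : M}
  (g : GenExt M N P (Lv κ μ))

/-- a set that is not in the smaller extension has a name that splits -/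
theorem exists_split (hκ : IsReg κ) {ν A : M} (hν : IsOrd ν) (hνμ : MSub ν μ) {t : N} (ht : MSub t (g.j A)) {ρ : M → M → M → Prop} (hρ : RN P (Lv κ μ) ρ)
    (h : ∀ a : M, g.j a ∈ t ↔ ∃ p r : M, g.j (opair p r) ∈ g.G ∧ ρ p r a)
    (hnot : ∀ σ : M, σ ∈ pow (prodS (prodS P (Lv κ ν)) A) → t ≠ g.ev (g.j σ)) :
    ∃ p0 r0 : M, g.j (opair p0 r0) ∈ g.G ∧ ∀ p r : M, Ex P (Lv κ μ) p0 r0 p r → ∃ p' r1 r2 a : M,
      Ex P (Lv κ μ) p r p' r1 ∧ Ex P (Lv κ μ) p r p' r2 ∧ res r1 ν = res r2 ν ∧ a ∈ A ∧ ρ p' r1 a ∧ Ng P (Lv κ μ) ρ p' r2 a := by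
  have hρd := hρ.df
  have hcomp : ∀ {γ : Type} [Ctx M γ] {p r a : γ → M}, DefF M p → DefF M r → DefF M a → DefP M (fun t => ρ (p t) (r t) (a t)) := by
    intro γ _ p r a h1 h2 h3
    exact DefP_comp (R := fun t : M × (M × M) => ρ t.1 t.2.1 t.2.2) hρd (DefF_prod h1 (DefF_prod h2 h3))
  let Sp : M → M → Prop := fun p r => ∃ p' r1 r2 a : M,
      Ex P (Lv κ μ) p r p' r1 ∧ Ex P (Lv κ μ) p r p' r2 ∧ res r1 ν = res r2 ν ∧ a ∈ A ∧ ρ p' r1 a ∧ Ng P (Lv κ μ) ρ p' r2 a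
  have hSp : DefP M (fun t : M × M => Sp t.1 t.2) := by
    simp only [Sp]
    apply DefP.ex; apply DefP.ex; apply DefP.ex; apply DefP.ex
    apply DefP.and (by fun_prop)
    apply DefP.and (by fun_prop)
    apply DefP.and (by fun_prop)
    apply DefP.and (by fun_prop)
    exact (hcomp (by fun_prop) (by fun_prop) (by fun_prop)).and (Ng_def hρd (by fun_prop) (by fun_prop) (by fun_prop) (by fun_prop) (by fun_prop))
  obtain ⟨p, r, h1, h2⟩ := g.gen (fun p r => ¬ Sp p r ∨ ∀ p' r' : M, Ex P (Lv κ μ) p r p' r' → Sp p' r') (by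
    apply DefP.or hSp.not
    apply DefP.all; apply DefP.all
    apply DefP.imp (by fun_prop)
    exact DefP_comp (R := fun t : M × M => Sp t.1 t.2) hSp (f := fun t : ((M × M) × M) × M => (t.1.2, t.2)) (by fun_prop)) (by
    intro p r hp hr
    by_cases hc : ∀ p' r' : M, Ex P (Lv κ μ) p r p' r' → Sp p' r'
    · exact ⟨p, r, Ex.refl hp hr, Or.inr hc⟩
    · push Not at hc
      obtain ⟨p', r', h1, h2⟩ := hc
      exact ⟨p', r', h1, Or.inl h2⟩)
  rcases h2 with h2 | h2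
  · exfalso
    have hd : DefP M (fun w : M => MSub p (fst (fst w)) ∧ ∃ r' : M, r' ∈ Lv κ μ ∧ MSub r r' ∧ res r' ν = snd (fst w) ∧ ρ (fst (fst w)) r' (snd w)) := by
      apply DefP.and (by fun_prop)
      apply DefP.ex
      apply DefP.and (by fun_prop)
      apply DefP.and (by fun_prop)
      apply DefP.and (by fun_prop)
      exact hcomp (by fun_prop) (by fun_prop) (by fun_prop)
    apply hnot (sepS (prodS (prodS P (Lv κ ν)) A) (fun w => MSub p (fst (fst w)) ∧ ∃ r' : M, r' ∈ Lv κ μ ∧ MSub r r' ∧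
      res r' ν = snd (fst w) ∧ ρ (fst (fst w)) r' (snd w)))
    · rw [mem_pow]
      exact fun w hw => ((mem_sepS hd).1 hw).1
    · apply g.eq_ev ht
      · intro q a hqa
        have := ((mem_sepS hd).1 hqa).1
        rw [opair_mem_prodS] at this
        exact this.2
      · intro a ha
        rw [h a]
        constructor
        · rintro ⟨p1, r1, h3, h4⟩
          obtain ⟨p2, r2, h5, h6, h7⟩ := g.G_dir h3 h1
          have hres : res r2 ν ∈ Lv κ ν := res_mem hν h6.2.1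
          refine ⟨p2, res r2 ν, g.up _ _ _ _ h5 h6.1 (Lv_mono hνμ _ hres) (fun z h => h) (res_sub r2 ν), (mem_sepS hd).2 ⟨?_, ?_⟩⟩
          · simp only [opair_mem_prodS]
            exact ⟨⟨h6.1, hres⟩, ha⟩
          · simp only [fst_opair, snd_opair]
            exact ⟨h7.2.2.1, r2, h6.2.1, h7.2.2.2, rfl, hρ.mono _ _ _ _ _ h6 h4⟩
        · rintro ⟨p1, c1, h3, h4⟩
          have h5 := ((mem_sepS hd).1 h4).2
          simp only [fst_opair, snd_opair] at h5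
          obtain ⟨h6, r', h7, h8, h9, h10⟩ := h5
          by_contra hcon
          obtain ⟨p2, r2, h11, h12⟩ := g.name_not hρ hcon
          obtain ⟨p3, r3, h13, h14, h15⟩ := g.G_dir h11 h3
          obtain ⟨p4, r4, h16, h17, h18⟩ := g.G_dir h13 h1
          have hu : res r4 ν ∈ Lv κ ν := res_mem hν h17.2.1
          have hsub : MSub (res r' ν) (res r4 ν) := by
            rw [h9]
            have : MSub c1 r4 := MSub.trans' h15.2.2.2 h17.2.2.2
            intro z hz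
            refine mem_res.2 ⟨this z hz, ?_⟩
            rw [← h9] at hz
            exact (mem_res.1 hz).2
          obtain ⟨m1, m2⟩ := amalg hκ hνμ h7 hu hsub
          apply h2
          refine ⟨p4, cup r' (res r4 ν), r4, a, ⟨h17.1, m1, h18.2.2.1, fun z hz => mem_cup.2 (Or.inl (h8 z hz))⟩, h18, m2, ha, ?_, ?_⟩
          · exact hρ.mono p1 r' a _ _ ⟨h17.1, m1, MSub.trans' h15.2.2.1 h17.2.2.1, fun z hz => mem_cup.2 (Or.inl hz)⟩ h10
          · exact h12.mono (h14.trans h17)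
  · exact ⟨p, r, h1, h2⟩

end

end GenExt

namespace Cfg

section
variable {M N : Type} [Membership M M] [Membership N N] [ZFCM M] [ZFCM N] (c : Cfg M) {m : ℕ}
  (g : GenExt M N c.P (c.R m))

theorem N_neg_aux (hm : 1 ≤ m) {F : N} (hF : ∀ t : N, t ∈ F → MSub t (g.j (c.K m))) (hFbig : ¬ Le F (g.j (c.K m)))
    (htr : ∀ x : N, MSub x (g.j (c.K m)) → HasAleph 1 x → Le (repS F (fun t => capS t x)) x) : False := by
  set κ := c.K m with hκdef
  have hκ : IsReg κ := c.Kreg m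
  have hlκ : c.lam ∈ κ := c.lam_mem hm
  have hlκs : MSub c.lam κ := ord_sub hκ.ord hlκ
  have hμ := c.hm
  have hκμ : κ ∈ c.μ := c.Kμ m
  let P := c.P
  let R := c.R m
  -- the ground model sets on which traces are considered
  let X : M := sepS (pow κ) (fun x => MSub c.lam x ∧ Le x c.lam)
  have memX : ∀ x : M, x ∈ X ↔ (MSub x κ ∧ MSub c.lam x ∧ Le x c.lam) := by
    intro x
    simp only [X]
    rw [mem_sepS (by fun_prop), mem_pow]
    rfl
  have hXal : ∀ x : M, x ∈ X → HasAleph 1 (g.j x) := by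
    intro x hx
    obtain ⟨_, h2, h3⟩ := (memX x).1 hx
    exact (c.N_aleph_one g hm).congr (g.j_le (Le.of_sub h2)) (g.j_le h3)
  -- enumerations of the traces
  obtain ⟨f, hf, hf'⟩ := choice (R := fun x f => (∀ u : N, u ∈ repS F (fun t => capS t x) → ∃ v : N, v ∈ g.j c.lam ∧ opair u v ∈ f) ∧
    (∀ u v w : N, opair u v ∈ f → opair u w ∈ f → v = w) ∧
    (∀ u v w : N, opair u w ∈ f → opair v w ∈ f → u = v)) (by fun_prop) (g.j X) (by
      intro x hx
      obtain ⟨x, hx', rfl⟩ := g.mem_j.1 hx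
      obtain ⟨h1, h2, h3⟩ := (memX x).1 hx'
      exact le_iff.1 ((htr _ (g.j_MSub.2 h1) (hXal x hx')).trans (g.j_le h3)))
  let E : N := sepS (prodS (prodS (g.j X) (g.j c.lam)) (g.j κ)) (fun w => ∃ s : N, opair s (snd (fst w)) ∈ f (fst (fst w)) ∧ snd w ∈ s)
  have memE : ∀ x i a : M, g.j (opair (opair x i) a) ∈ E ↔ (x ∈ X ∧ i ∈ c.lam ∧ a ∈ κ ∧ ∃ s : N, opair s (g.j i) ∈ f (g.j x) ∧ g.j a ∈ s) := by
    intro x i a
    simp only [E]
    rw [mem_sepS (by fun_prop), ← g.j_prodS, ← g.j_prodS, g.j_mem_j]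
    simp only [opair_mem_prodS, g.j_opair, fst_opair, snd_opair]
    tauto
  have hE : ∀ (x : M) (t : N), x ∈ X → t ∈ F → ∃ i : M, i ∈ c.lam ∧ ∀ a : M, a ∈ κ → (g.j (opair (opair x i) a) ∈ E ↔ (g.j a ∈ t ∧ a ∈ x)) := by
    intro x t hx ht
    obtain ⟨h1, h2, h3⟩ := hf' (g.j x) (g.j_mem_j.2 hx)
    obtain ⟨v, hv, hv'⟩ := h1 (capS t (g.j x)) ((mem_repS (by fun_prop)).2 ⟨t, ht, rfl⟩)
    obtain ⟨i, hi, rfl⟩ := g.mem_j.1 hv
    refine ⟨i, hi, fun a ha => ?_⟩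
    rw [memE]
    constructor
    · rintro ⟨_, _, _, s, h4, h5⟩
      rw [h3 _ _ _ h4 hv', mem_capS, g.j_mem_j] at h5
      exact h5
    · rintro ⟨h4, h5⟩
      exact ⟨hx, hi, ha, _, hv', mem_capS.2 ⟨h4, g.j_mem_j.2 h5⟩⟩
  -- a name for `E`
  obtain ⟨e0, he0, hE0⟩ := g.name E
  have he0d := he0.df
  have hcomp0 : ∀ {γ : Type} [Ctx M γ] {p r a : γ → M}, DefF M p → DefF M r → DefF M a → DefP M (fun t => e0 (p t) (r t) (a t)) := by
    intro γ _ p r a h1 h2 h3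
    exact DefP_comp (R := fun t : M × (M × M) => e0 t.1 t.2.1 t.2.2) he0d (DefF_prod h1 (DefF_prod h2 h3))
  have hlμ : ¬ Le c.μ c.lam := hμ.reg.init _ c.lam_lt_μ
  have hκμ' : ¬ Le c.μ κ := hμ.reg.init _ hκμ
  have hXμ : ¬ Le c.μ X := small_sub (hμ.lim _ hκμ') (fun x hx => by
    rw [mem_pow]; exact ((memX x).1 hx).1)
  obtain ⟨ν, hν, _, hν'⟩ := GenExt.small_name (κ := κ) (μ := c.μ) g (B := prodS (prodS X c.lam) κ) (ν0 := emp) hκ hμ hκμ c.P_small_μ
    (hμ.reg.prod (hμ.reg.prod hXμ hlμ) hκμ') hμ.reg.zero he0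
  have hνo : IsOrd ν := ord_mem hμ.reg.ord hν
  have hνμ : MSub ν c.μ := ord_sub hμ.reg.ord hν
  let e : M → M → M → Prop := fun p r b => e0 p (res r ν) b
  have he : RN P (Lv κ c.μ) e := by
    refine ⟨hcomp0 (by fun_prop) (by fun_prop) (by fun_prop), ?_, ?_⟩
    · intro p r b p' r' h1 h2
      exact he0.mono _ _ _ _ _ ⟨h1.1, Lv_mono hνμ _ (res_mem hνo h1.2.1), h1.2.2.1, res_mono h1.2.2.2 ν⟩ h2
    · intro p r b hp hr h1
      apply he0.dense _ _ _ hp (Lv_mono hνμ _ (res_mem hνo hr))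
      intro p' r' h2
      obtain ⟨m1, m2⟩ := amalg hκ hνμ hr (res_mem hνo h2.2.1 : res r' ν ∈ Lv κ ν) (by
        rw [← res_eq_self (res_mem hνo hr : res r ν ∈ Lv κ ν)]
        exact res_mono h2.2.2.2 ν)
      obtain ⟨p'', r'', h3, h4⟩ := h1 p' (cup r (res r' ν)) ⟨h2.1, m1, h2.2.2.1, fun z hz => mem_cup.2 (Or.inl hz)⟩
      have hs : MSub (res r' ν) (res r'' ν) := by rw [← m2]; exact res_mono h3.2.2.2 ν
      obtain ⟨m3, m4⟩ := amalg hκ hνμ h2.2.1 (res_mem hνo h3.2.1 : res r'' ν ∈ Lv κ ν) hs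
      refine ⟨p'', cup r' (res r'' ν), ⟨h3.1, m3, h3.2.2.1, fun z hz => mem_cup.2 (Or.inl hz)⟩, ?_⟩
      exact he0.mono _ _ _ _ _ ⟨h3.1, m3, fun z h => h, fun z hz => mem_cup.2 (Or.inr hz)⟩ h4
  have hed := he.df
  have hcomp : ∀ {γ : Type} [Ctx M γ] {p r a : γ → M}, DefF M p → DefF M r → DefF M a → DefP M (fun t => e (p t) (r t) (a t)) := by
    intro γ _ p r a h1 h2 h3
    exact DefP_comp (R := fun t : M × (M × M) => e t.1 t.2.1 t.2.2) hed (DefF_prod h1 (DefF_prod h2 h3))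
  have heν : ∀ p r b : M, p ∈ P → r ∈ Lv κ c.μ → (e p r b ↔ e p (res r ν) b) := by
    intro p r b _ hr
    simp only [e]
    rw [res_eq_self (res_mem hνo hr : res r ν ∈ Lv κ ν)]
  have heE1 : ∀ p r b : M, g.j (opair p r) ∈ g.G → e p r b → g.j b ∈ E := by
    intro p r b h1 h2
    have h3 := g.G_mem h1
    exact (hE0 b).2 ⟨p, res r ν, g.up _ _ _ _ h1 h3.1 (Lv_mono hνμ _ (res_mem hνo h3.2)) (fun z h => h) (res_sub r ν), h2⟩
  have heE2 : ∀ x i a : M, g.j (opair (opair x i) a) ∈ E → ∃ p r : M, g.j (opair p r) ∈ g.G ∧ e p r (opair (opair x i) a) := by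
    intro x i a h1
    obtain ⟨h2, h3, h4, _⟩ := (memE x i a).1 h1
    obtain ⟨p, r, h5, h6, h7⟩ := hν' (opair (opair x i) a) (by simp only [opair_mem_prodS]; exact ⟨⟨h2, h3⟩, h4⟩) ((hE0 _).1 h1)
    exact ⟨p, r, h6, by simp only [e]; rw [res_eq_self h5]; exact h7⟩
  -- a member of the family outside the smaller extension
  have hNm : ¬ Le c.μ (pow (prodS (prodS P (Lv κ ν)) κ)) :=
    hμ.lim _ (hμ.reg.prod (hμ.reg.prod c.P_small_μ (Lv_small hμ hκμ hν)) hκμ')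
  obtain ⟨t, htF, htn⟩ : ∃ t : N, t ∈ F ∧ ∀ σ : M, σ ∈ pow (prodS (prodS P (Lv κ ν)) κ) → t ≠ g.ev (g.j σ) := by
    by_contra hcon
    push Not at hcon
    obtain ⟨δ, hδ, _, h2, _⟩ := exists_mem_le hμ.reg.ord hNm
    apply hFbig
    refine Le.trans ?_ ((g.j_le h2).trans (c.N_seg_μ g _ (g.j_mem_j.2 hδ)))
    apply le_image (F := g.ev) (by fun_prop)
    intro t ht
    obtain ⟨σ, h3, h4⟩ := hcon t ht
    exact ⟨g.j σ, g.j_mem_j.2 h3, h4.symm⟩
  obtain ⟨ρ, hρ, ht⟩ := g.name t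
  have hρd := hρ.df
  have hcompρ : ∀ {γ : Type} [Ctx M γ] {p r a : γ → M}, DefF M p → DefF M r → DefF M a → DefP M (fun t => ρ (p t) (r t) (a t)) := by
    intro γ _ p r a h1 h2 h3
    exact DefP_comp (R := fun t : M × (M × M) => ρ t.1 t.2.1 t.2.2) hρd (DefF_prod h1 (DefF_prod h2 h3))
  obtain ⟨p0, r0, h0, hsp⟩ := GenExt.exists_split (κ := κ) (μ := c.μ) g hκ hνo hνμ (hF t htF) hρ ht htn
  -- a condition in the filter forcing that some trace is not enumerated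
  have hAgd : DefP M (fun q : M × (M × (M × M)) => Ag P (Lv κ c.μ) ρ e q.1 q.2.1 q.2.2.1 q.2.2.2) := by
    unfold Ag
    apply DefP.all; apply DefP.all; apply DefP.all
    apply DefP.imp (by fun_prop)
    apply DefP.imp (by fun_prop)
    exact (hcompρ (by fun_prop) (by fun_prop) (by fun_prop)).iff (hcomp (by fun_prop) (by fun_prop) (by fun_prop))
  obtain ⟨p1, r1, h1, h2⟩ := g.gen (fun p r => (∃ x : M, x ∈ X ∧ ∀ p' r' i : M, Ex P (Lv κ c.μ) p r p' r' → i ∈ c.lam →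
      ¬ Ag P (Lv κ c.μ) ρ e x p' r' i) ∨ ∀ p' r' : M, Ex P (Lv κ c.μ) p r p' r' → ¬ Ex P (Lv κ c.μ) p0 r0 p' r') (by
    apply DefP.or
    · apply DefP.ex
      apply DefP.and (by fun_prop)
      apply DefP.all; apply DefP.all; apply DefP.all
      apply DefP.imp (by fun_prop)
      apply DefP.imp (by fun_prop)
      exact (DefP_comp (R := fun q : M × (M × (M × M)) => Ag P (Lv κ c.μ) ρ e q.1 q.2.1 q.2.2.1 q.2.2.2) hAgd
        (f := fun q : ((((M × M) × M) × M) × M) × M => (q.1.1.1.2, (q.1.1.2, (q.1.2, q.2)))) (by fun_prop)).not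
    · fun_prop) (by
    intro p r hp hr
    by_cases hc : ∃ p' r' : M, Ex P (Lv κ c.μ) p r p' r' ∧ Ex P (Lv κ c.μ) p0 r0 p' r'
    · obtain ⟨p', r', k1, k2⟩ := hc
      obtain ⟨p2, r2, x, k3, k4, k5, k6, k7⟩ := silver (lam := c.lam) (κ := κ) (μ := c.μ) (ν := ν) (P := P) (A := κ) (p0 := p') (r0 := r')
        (ρ := ρ) (e := e) c.hl hκ hlκ hνo hνμ c.P_le hlκs k1.1 k1.2.1 hρ he heν (fun q s hqs => hsp q s (k2.trans hqs))
      exact ⟨p2, r2, k1.trans k3, Or.inl ⟨x, (memX x).2 ⟨k4, k5, k6⟩, k7⟩⟩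
    · push Not at hc
      exact ⟨p, r, Ex.refl hp hr, Or.inr hc⟩)
  rcases h2 with ⟨x, hx, h2⟩ | h2
  · obtain ⟨i, hi, hit⟩ := hE x t hx htF
    obtain ⟨p2, r2, h3, h4⟩ := g.gen (fun p r => Ag P (Lv κ c.μ) ρ e x p r i ∨ ∃ a : M, a ∈ x ∧
        ((ρ p r a ∧ Ng P (Lv κ c.μ) e p r (opair (opair x i) a)) ∨ (Ng P (Lv κ c.μ) ρ p r a ∧ e p r (opair (opair x i) a)))) (by
      apply DefP.or
      · exact DefP_comp (R := fun q : M × (M × (M × M)) => Ag P (Lv κ c.μ) ρ e q.1 q.2.1 q.2.2.1 q.2.2.2) hAgd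
          (f := fun q : M × M => (x, (q.1, (q.2, i)))) (by fun_prop)
      · apply DefP.ex
        apply DefP.and (by fun_prop)
        apply DefP.or
        · exact (hcompρ (by fun_prop) (by fun_prop) (by fun_prop)).and (Ng_def hed (by fun_prop) (by fun_prop) (by fun_prop) (by fun_prop) (by fun_prop))
        · exact (Ng_def hρd (by fun_prop) (by fun_prop) (by fun_prop) (by fun_prop) (by fun_prop)).and (hcomp (by fun_prop) (by fun_prop) (by fun_prop))) (by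
      intro p r hp hr
      by_cases hc : Ag P (Lv κ c.μ) ρ e x p r i
      · exact ⟨p, r, Ex.refl hp hr, Or.inl hc⟩
      · unfold Ag at hc
        push Not at hc
        obtain ⟨a, p', r', ha, k1, k2⟩ := hc
        rcases k2 with ⟨k2, k3⟩ | ⟨k2, k3⟩
        · obtain ⟨p'', r'', k4, k5⟩ := he.of_not k1.1 k1.2.1 k3
          exact ⟨p'', r'', k1.trans k4, Or.inr ⟨a, ha, Or.inl ⟨hρ.mono _ _ _ _ _ k4 k2, k5⟩⟩⟩
        · obtain ⟨p'', r'', k4, k5⟩ := hρ.of_not k1.1 k1.2.1 k2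
          exact ⟨p'', r'', k1.trans k4, Or.inr ⟨a, ha, Or.inr ⟨k5, he.mono _ _ _ _ _ k4 k3⟩⟩⟩)
    have hxκ := ((memX x).1 hx).1
    rcases h4 with h4 | ⟨a, ha, ⟨h4, h5⟩ | ⟨h4, h5⟩⟩
    · obtain ⟨p3, r3, _, h6, h7⟩ := g.G_dir h1 h3
      exact h2 p3 r3 i h6 hi (h4.mono h7)
    · have h6 : g.j a ∈ t := (ht a).2 ⟨p2, r2, h3, h4⟩
      have h7 := (hit a (hxκ a ha)).2 ⟨h6, ha⟩
      obtain ⟨p3, r3, h8, h9⟩ := heE2 x i a h7
      exact g.not_both he h8 h3 h9 h5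
    · have h6 := (hit a (hxκ a ha)).1 (heE1 _ _ _ h3 h5)
      obtain ⟨p3, r3, h8, h9⟩ := (ht a).1 h6.1
      exact g.not_both hρ h8 h3 h9 h4
  · obtain ⟨p3, r3, _, h6, h7⟩ := g.G_dir h1 h0
    exact h2 p3 r3 h6 h7

include c g in
/-- `KH(ℵ_{m+1}, ℵ_1)` fails in the extension -/
theorem N_neg (hm : 1 ≤ m) : ¬ KH N (m + 1) 1 := by
  rintro ⟨K', F', S', hK', hF', hS', hSF, htr⟩
  have hK := c.N_aleph g hm m (le_refl m)
  have hle1 : Le (g.j (c.K m)) K' := hK.le hK'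
  have hle2 : Le K' (g.j (c.K m)) := hK'.le hK
  obtain ⟨B, hB, hB1, hB2, hB3⟩ := exists_bij hle1 hle2
  let pull : N → N := fun t => sepS (g.j (c.K m)) (fun i => B i ∈ t)
  have hpull : DefF N pull := by simp only [pull]; fun_prop
  have mem_pull : ∀ t i : N, i ∈ pull t ↔ (i ∈ g.j (c.K m) ∧ B i ∈ t) := fun t i => mem_sepS (by fun_prop)
  have hinj : ∀ t t' : N, t ∈ F' → t' ∈ F' → pull t = pull t' → t = t' := by
    have key : ∀ t t' : N, t ∈ F' → pull t = pull t' → ∀ z : N, z ∈ t → z ∈ t' := by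
      intro t t' ht h z hz
      obtain ⟨i, hi, rfl⟩ := hB3 z (hF' t ht z hz)
      have : i ∈ pull t := (mem_pull t i).2 ⟨hi, hz⟩
      rw [h, mem_pull] at this
      exact this.2
    intro t t' ht ht' h
    exact ext' (fun z => ⟨key t t' ht h z, key t' t ht' h.symm z⟩)
  apply c.N_neg_aux g hm (F := repS F' pull)
  · intro t ht z hz
    obtain ⟨t', _, rfl⟩ := (mem_repS hpull).1 ht
    exact ((mem_pull _ _).1 hz).1
  · intro h
    apply hS'.1
    refine hSF.trans (Le.trans ?_ (h.trans hle1))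
    exact Le.of pull hpull (fun t ht => (mem_repS hpull).2 ⟨t, ht, rfl⟩) hinj
  · intro x hx hx1
    have hrepx : Le (repS x B) x := le_repS hB
    have hxrep : Le x (repS x B) := Le.of B hB (fun z hz => (mem_repS hB).2 ⟨z, hz, rfl⟩) (fun z w hz hw h => hB2 z w (hx z hz) (hx w hw) h)
    have h1 : Le (repS F' (fun t => capS t (repS x B))) (repS x B) := by
      apply htr (repS x B)
      · intro z hz
        obtain ⟨w, hw, rfl⟩ := (mem_repS hB).1 hz
        exact hB1 w (hx w hw)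
      · exact hx1.congr hxrep hrepx
      · intro s
        rw [mem_repS (by fun_prop)]
        constructor
        · rintro ⟨t, ht, rfl⟩
          exact ⟨t, ht, fun z => mem_capS⟩
        · rintro ⟨t, ht, hs⟩
          exact ⟨t, ht, ext' (fun z => by rw [hs, mem_capS])⟩
    refine Le.trans ?_ (h1.trans hrepx)
    apply le_image (F := fun s => sepS x (fun i => B i ∈ s)) (by fun_prop)
    intro s hs
    obtain ⟨t, ht, rfl⟩ := (mem_repS (by fun_prop)).1 hs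
    obtain ⟨t', ht', rfl⟩ := (mem_repS hpull).1 ht
    refine ⟨capS t' (repS x B), (mem_repS (by fun_prop)).2 ⟨t', ht', rfl⟩, ?_⟩
    apply ext'
    intro z
    rw [mem_sepS (by fun_prop), mem_capS, mem_capS, mem_pull]
    constructor
    · rintro ⟨h2, h3, _⟩; exact ⟨⟨hx z h2, h3⟩, h2⟩
    · rintro ⟨⟨_, h3⟩, h4⟩; exact ⟨h4, h3, (mem_repS hB).2 ⟨z, h4, rfl⟩⟩

end

end Cfg

end Pool.Agent.Helper79.Kurepa
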