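import Pool.Agent.Helper79.Kurepa.Elem
import Pool.Agent.Helper79.Kurepa.Neg

/-!
# The separation of the two higher Kurepa hypotheses
-/

namespace Pool.Agent.Helper79.Kurepa

open Pool.Agent.Helper79.ZF

section
variable {M : Type} [Membership M M] [GCHM M]

/-- the cardinals after `lam` -/
noncomputable def nxt (A : M) : M := by
  classical
  exact if h : Le (om M) A then (exists_next h).choose else A

theorem nxt_spec {A : M} (hA : Le (om M) A) : IsReg (nxt A) ∧ (∀ x : M, x ∈ nxt A → Le x A) ∧ Le (pow A) (nxt A) ∧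
    Le (nxt A) (pow A) ∧ ¬ Le (nxt A) A := by
  unfold nxt
  rw [dif_pos hA]
  exact (exists_next hA).choose_spec

theorem exists_cfg (h : TwoInacc M) : Nonempty (Cfg M) := by
  obtain ⟨X, Y, hX, hY, hXY⟩ := h
  obtain ⟨lam, hl, h1, h2⟩ := inacc_card hX
  obtain ⟨μ, hm, h3, h4⟩ := inacc_card hY
  have h5 : ¬ Le μ lam := fun h => hXY (h3.trans (h.trans h2))
  have h6 : lam ∈ μ := by
    rcases ord_cases hl.reg.ord hm.reg.ord with h | h
    · exact h
    · exact absurd (Le.of_sub h) h5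
  let K : ℕ → M := fun i => nxt^[i] lam
  have hK : ∀ i, K (i + 1) = nxt (K i) := fun i => Function.iterate_succ_apply' nxt i lam
  have hom : ∀ i, Le (om M) (K i) := by
    intro i
    induction i with
    | zero => exact le_of_not (hl.reg.init _ hl.unc)
    | succ i ih =>
      rw [hK]
      exact ih.trans (le_of_not (nxt_spec ih).2.2.2.2)
  have hreg : ∀ i, IsReg (K i) := by
    intro i
    cases i with
    | zero => exact hl.reg
    | succ i => rw [hK]; exact (nxt_spec (hom i)).1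
  have hKμ : ∀ i, K i ∈ μ := by
    intro i
    induction i with
    | zero => exact h6
    | succ i ih =>
      have h7 : ¬ Le μ (pow (K i)) := hm.lim _ (hm.reg.init _ ih)
      rcases ord_cases (hreg (i+1)).ord hm.reg.ord with h | h
      · exact h
      · refine absurd ((Le.of_sub h).trans ?_) h7
        rw [hK]; exact (nxt_spec (hom i)).2.2.2.1
  refine ⟨⟨lam, μ, K, hl, hm, rfl, hreg, fun i => ?_, fun i x hx => ?_, fun i => ?_, hKμ⟩⟩
  · rcases ord_cases (hreg i).ord (hreg (i+1)).ord with h | h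
    · exact h
    · refine absurd (Le.of_sub h) ?_
      rw [hK]; exact (nxt_spec (hom i)).2.2.2.2
  · rw [hK] at hx
    exact (nxt_spec (hom i)).2.1 x hx
  · rw [hK]; exact (nxt_spec (hom i)).2.2.1

end

theorem GenExt.ordEndExt {M N : Type} [Membership M M] [Membership N N] [ZFModel M] {P R : M} (g : GenExt M N P R) :
    OrdEndExt g.j where
  inj := g.inj
  mem_iff := fun x y => by
    rw [g.mem_j]
    exact ⟨fun ⟨z, hz, h⟩ => by rw [g.inj h]; exact hz, fun h => ⟨x, h, rfl⟩⟩
  trans := fun x z hz => by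
    obtain ⟨y, _, h⟩ := g.mem_j.1 hz
    exact ⟨y, h.symm⟩
  ords := g.ords

/-- every countable model of ZFC + GCH with two inaccessibles has an extension as required -/
theorem main_countable {n : ℕ} (hn : 2 ≤ n) (M : Type) [Membership M M] [Countable M] (h : ZFCModel M) (h1 : GCH M) (h2 : TwoInacc M) :
    ∃ (N : Type) (_ : Membership N N), ZFCModel N ∧ GCH N ∧ KH N n 0 ∧ ¬ KH N n 1 ∧ ∃ ι : M → N, OrdEndExt ι := by
  have hM : GCHM M := GCHM.of M h h1
  obtain ⟨c⟩ := exists_cfg h2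
  obtain ⟨m, rfl⟩ : ∃ m, n = m + 1 := ⟨n - 1, by omega⟩
  have hm : 1 ≤ m := by omega
  obtain ⟨N, mN, zN, ⟨g⟩⟩ := exists_genExt (M := M) c.P (c.R m) ⟨emp, emp_mem_Lv isReg_om⟩ ⟨emp, emp_mem_Lv (c.Kreg m)⟩
  have hN : ZFCM N := g.zfc
  exact ⟨N, mN, ⟨zN, hN.ac⟩, c.N_gch g hm, c.N_pos g hm, c.N_neg g hm, g.j, g.ordEndExt⟩

end Pool.Agent.Helper79.Kurepa
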