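import Pool.Agent.Helper79.Kurepa.Fusion

/-!
# The tree argument
-/

namespace Pool.Agent.Helper79.Kurepa

open Pool.Agent.Helper79.ZF

section
variable {M : Type} [Membership M M] [ZFCM M]
variable {α β γ : Type} [Ctx M α] [Ctx M β] [Ctx M γ]

/-- intersection -/
noncomputable def capS (f d : M) : M := sepS f (fun z => z ∈ d)

@[fun_prop]
theorem capS_def {f d : α → M} (hf : DefF M f) (hd : DefF M d) : DefF M (fun a => capS (f a) (d a)) := by
  unfold capS; fun_prop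

theorem mem_capS {f d z : M} : z ∈ capS f d ↔ (z ∈ f ∧ z ∈ d) := mem_sepS (by fun_prop)

theorem capS_capS {f d e : M} (h : MSub e d) : capS (capS f d) e = capS f e := by
  apply ext'
  intro z
  rw [mem_capS, mem_capS, mem_capS]
  constructor
  · rintro ⟨⟨h1, _⟩, h3⟩; exact ⟨h1, h3⟩
  · rintro ⟨h1, h2⟩; exact ⟨⟨h1, h z h2⟩, h2⟩

theorem capS_mem_pow {f d l : M} (hf : f ∈ pow l) : capS f d ∈ pow l := by
  rw [mem_pow] at hf ⊢
  exact fun z hz => hf z (mem_capS.1 hz).1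

theorem capS_mem_pow' (f d : M) : capS f d ∈ pow d := by
  rw [mem_pow]
  exact fun z hz => (mem_capS.1 hz).2

theorem cup_le {A B C : M} (hC : Le (om M) C) (hA : Le A C) (hB : Le B C) : Le (cup A B) C := by
  classical
  unfold cup
  apply sU_le hC
  · refine Le.trans (B := om M) ?_ hC
    refine Le.of (fun z => if z = A then emp else suc emp) (DefF.cond (by fun_prop) (by fun_prop) (by fun_prop))
      (fun z _ => ?_) (fun z w hz hw h => ?_)
    · by_cases h : z = A <;> simp only [h, if_true, if_false]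
      · exact zero_mem_om
      · exact suc_mem_om zero_mem_om
    · by_cases h1 : z = A <;> by_cases h2 : w = A <;> simp only [h1, h2, if_true, if_false] at h ⊢
      · exact absurd h.symm (suc_ne_emp _)
      · exact absurd h (suc_ne_emp _)
      · rcases mem_upair.1 hz with h3 | h3
        · exact absurd h3 h1
        · rcases mem_upair.1 hw with h4 | h4
          · exact absurd h4 h2
          · rw [h3, h4]
  · intro i hi
    rcases mem_upair.1 hi with rfl | rfl
    · exact hA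
    · exact hB

/-- a tree of conditions with `2^λ` branches -/
theorem tree {lam κ μ ν P A a0 p0 r0 : M} {ρ : M → M → M → Prop} (hl : IsInac lam) (hκ : IsReg κ) (hlκ : lam ∈ κ)
    (hν : IsOrd ν) (hνμ : MSub ν μ) (hP : Le P lam) (ha0 : a0 ∈ A) (hr0 : r0 ∈ Lv κ μ) (hρ : RN P (Lv κ μ) ρ)
    (hsp : ∀ p r : M, Ex P (Lv κ μ) p0 r0 p r → ∃ p' r1 r2 a : M, Ex P (Lv κ μ) p r p' r1 ∧ Ex P (Lv κ μ) p r p' r2 ∧
      res r1 ν = res r2 ν ∧ a ∈ A ∧ ρ p' r1 a ∧ Ng P (Lv κ μ) ρ p' r2 a) :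
    ∃ s x : M, s ∈ St κ μ ν (pow lam) ∧ (∀ f : M, f ∈ pow lam → MSub r0 (sec s f)) ∧ MSub x A ∧ Le x lam ∧
      ∀ p f g : M, p ∈ P → MSub p0 p → f ∈ pow lam → g ∈ pow lam → f ≠ g →
        ∃ p' a : M, p' ∈ P ∧ MSub p p' ∧ a ∈ x ∧ Opp P (Lv κ μ) ρ p' (sec s f) (sec s g) a := by
  classical
  have hρd := hρ.df
  have hlκ' : ¬ Le κ lam := hκ.init _ hlκ
  have hsmall : ∀ X : M, ¬ Le lam X → ¬ Le κ X := fun X h h' => h ((Le.of_sub (ord_sub hκ.ord hlκ)).trans h')
  have hPκ : ¬ Le κ P := fun h => hlκ' (h.trans hP)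
  let S : M := sepS (prodS lam (St κ μ ν (pow lam))) (fun t => ∀ f : M, f ∈ pow lam → sec (snd t) f = sec (snd t) (capS f (fst t)))
  have memS : ∀ d s : M, opair d s ∈ S ↔ (d ∈ lam ∧ s ∈ St κ μ ν (pow lam) ∧ ∀ f : M, f ∈ pow lam → sec s f = sec s (capS f d)) := by
    intro d s
    simp only [S]
    rw [mem_sepS (by fun_prop), opair_mem_prodS, fst_opair, snd_opair, and_assoc]
  have memS' : ∀ t : M, t ∈ S → ∃ d s : M, t = opair d s := by
    intro t ht
    simp only [S] at ht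
    rw [mem_sepS (by fun_prop)] at ht
    obtain ⟨a, b, _, _, rfl⟩ := mem_prodS.1 ht.1
    exact ⟨a, b, rfl⟩
  let le : M → M → Prop := fun t' t => MSub (fst t) (fst t') ∧ MSub (snd t) (snd t')
  have hle : DefP M (fun p : M × M => le p.1 p.2) := by simp only [le]; fun_prop
  let Spl : M → M → M → M → Prop := fun s f g p => ∃ p' a : M, p' ∈ P ∧ MSub p p' ∧ a ∈ A ∧ Opp P (Lv κ μ) ρ p' (sec s f) (sec s g) a
  have hSpl : DefP M (fun t : M × (M × (M × M)) => Spl t.1 t.2.1 t.2.2.1 t.2.2.2) := by simp only [Spl]; fun_prop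
  have hSpl' : ∀ {s f g p : M × M → M}, DefF M s → DefF M f → DefF M g → DefF M p → DefP M (fun t => Spl (s t) (f t) (g t) (p t)) := by
    intro s f g p h1 h2 h3 h4
    exact DefP_comp (R := fun t : M × (M × (M × M)) => Spl t.1 t.2.1 t.2.2.1 t.2.2.2) hSpl
      (DefF_prod h1 (DefF_prod h2 (DefF_prod h3 h4)))
  let t0 : M := opair emp (mkS (pow lam) (fun _ => r0))
  have hsec0 : ∀ f : M, f ∈ pow lam → sec (mkS (pow lam) (fun _ => r0)) f = r0 := fun f hf => sec_mkS (by fun_prop) hf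
  have ht0 : t0 ∈ S := by
    rw [memS]
    refine ⟨hl.reg.zero, mkS_mem_St (by fun_prop) (fun _ _ => hr0) (fun _ _ _ _ => rfl), fun f hf => ?_⟩
    rw [hsec0 f hf, hsec0 _ (capS_mem_pow hf)]
  obtain ⟨F, hF, hF'⟩ := seq_lemma (S := S) (I := lam) (s0 := t0) (le := le) hle (fun x _ => ⟨fun z h => h, fun z h => h⟩)
    (fun x y z h h' => ⟨MSub.trans' h'.1 h.1, MSub.trans' h'.2 h.2⟩) hl.reg.ord
    (Φ := fun γ t => ∀ f g : M, f ∈ pow lam → g ∈ pow lam → capS f (suc γ) ≠ capS g (suc γ) → ∀ p : M, p ∈ P → MSub p0 p →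
      Spl (snd t) f g p) (by
        have : DefP M (fun q : (M × M) × (M × (M × M)) => Spl (snd q.1.2) q.2.1 q.2.2.1 q.2.2.2) := by
          simp only [Spl]; fun_prop
        have h2 : DefP M (fun q : (((M × M) × M) × M) × M => Spl (snd q.1.1.1.2) q.1.1.2 q.1.2 q.2) :=
          DefP_comp (R := fun q : (M × M) × (M × (M × M)) => Spl (snd q.1.2) q.2.1 q.2.2.1 q.2.2.2) this
            (f := fun q : (((M × M) × M) × M) × M => (q.1.1.1, (q.1.1.2, (q.1.2, q.2)))) (by fun_prop)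
        apply DefP.all
        apply DefP.all
        apply DefP.imp (by fun_prop)
        apply DefP.imp (by fun_prop)
        apply DefP.imp (by fun_prop)
        apply DefP.all
        apply DefP.imp (by fun_prop)
        apply DefP.imp (by fun_prop)
        exact h2) ht0 (by
      intro γ t hγ ht htt
      obtain ⟨d, s, rfl⟩ := memS' t ht
      obtain ⟨hd, hs, hds⟩ := (memS d s).1 ht
      have htt' : MSub (mkS (pow lam) (fun _ => r0)) s := by
        have := htt.2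
        simp only [t0, snd_opair] at this
        exact this
      have hd' : cup d (suc γ) ∈ lam := ord_cup_mem hl.reg.ord hd (hl.reg.succ _ hγ)
      set d' := cup d (suc γ) with hd'def
      have hdd' : MSub d d' := fun z hz => mem_cup.2 (Or.inl hz)
      have hgd' : MSub (suc γ) d' := fun z hz => mem_cup.2 (Or.inr hz)
      have hZpow : MSub (pow d') (pow lam) := by
        intro f hf
        rw [mem_pow] at hf ⊢
        exact fun z hz => ord_sub hl.reg.ord hd' z (hf z hz)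
      have hZ : ¬ Le lam (pow d') := hl.lim _ (hl.reg.init _ hd')
      have hs' := mem_St.1 hs
      have hs1 : mkS (pow d') (sec s) ∈ St κ μ ν (pow d') :=
        mkS_mem_St (by fun_prop) (fun f hf => hs'.2.1 f (hZpow f hf)) (fun f g hf hg => hs'.2.2 f g (hZpow f hf) (hZpow g hg))
      obtain ⟨s2, h1, h2, h3⟩ := level (Z := pow d') hκ hν hνμ hρ hsp
        (hκ.prod hPκ (hκ.prod (hsmall _ hZ) (hsmall _ hZ))) hs1 (by
          intro f hf
          rw [sec_mkS (by fun_prop) hf]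
          intro z hz
          rw [mem_sec]
          apply htt'
          exact (mem_mkS (by fun_prop)).2 ⟨f, z, hZpow f hf, hz, rfl⟩)
      have hs2 := mem_St.1 h1
      have hcap : ∀ f : M, f ∈ pow lam → capS f d' ∈ pow d' := fun f _ => capS_mem_pow' f d'
      have hH : DefF M (fun f => sec s2 (capS f d')) := by fun_prop
      have hsec3 : ∀ f : M, f ∈ pow lam → sec (mkS (pow lam) (fun f => sec s2 (capS f d'))) f = sec s2 (capS f d') :=
        fun f hf => sec_mkS hH hf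
      refine ⟨opair d' (mkS (pow lam) (fun f => sec s2 (capS f d'))), ?_, ?_, ?_⟩
      · rw [memS]
        refine ⟨hd', mkS_mem_St hH (fun f hf => hs2.2.1 _ (hcap f hf)) (fun f g hf hg => hs2.2.2 _ _ (hcap f hf) (hcap g hg)), fun f hf => ?_⟩
        rw [hsec3 f hf, hsec3 _ (capS_mem_pow hf), capS_capS (fun z h => h)]
      · simp only [le, fst_opair, snd_opair]
        refine ⟨hdd', fun w hw => ?_⟩
        obtain ⟨f, z, hf, rfl⟩ := hs'.1 w hw
        refine (mem_mkS hH).2 ⟨f, z, hf, ?_, rfl⟩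
        rw [mem_sec]
        apply h2
        refine (mem_mkS (by fun_prop)).2 ⟨_, z, hcap f hf, ?_, rfl⟩
        rw [hds _ (capS_mem_pow hf), capS_capS hdd', ← hds f hf]
        exact mem_sec.2 hw
      · intro f g hf hg hfg p hp hpp
        simp only [snd_opair, Spl]
        rw [hsec3 f hf, hsec3 g hg]
        apply h3 p _ _ hp hpp (hcap f hf) (hcap g hg)
        intro h
        apply hfg
        rw [← capS_capS (f := f) hgd', h, capS_capS hgd']) (by
      intro i X hi hX _ hch hXi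
      have hXl : ¬ Le lam X := fun h => hl.reg.init _ (hl.reg.succ _ hi) (h.trans hXi)
      have hd : sU (repS X fst) ∈ lam := by
        apply hl.reg.sup
        · intro w hw
          obtain ⟨t, ht, rfl⟩ := (mem_repS (by fun_prop)).1 hw
          obtain ⟨d, s, rfl⟩ := memS' t (hX t ht)
          rw [fst_opair]; exact ((memS d s).1 (hX _ ht)).1
        · exact fun h => hXl (h.trans (le_repS (by fun_prop)))
      have hs : sU (repS X snd) ∈ St κ μ ν (pow lam) := by
        apply St_chain hκ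
        · intro w hw
          obtain ⟨t, ht, rfl⟩ := (mem_repS (by fun_prop)).1 hw
          obtain ⟨d, s, rfl⟩ := memS' t (hX t ht)
          rw [snd_opair]; exact ((memS d s).1 (hX _ ht)).2.1
        · exact fun h => hsmall X hXl (h.trans (le_repS (by fun_prop)))
        · intro x y hx hy
          obtain ⟨t, ht, rfl⟩ := (mem_repS (by fun_prop)).1 hx
          obtain ⟨t', ht', rfl⟩ := (mem_repS (by fun_prop)).1 hy
          rcases hch t t' ht ht' with h | h
          · exact Or.inr h.2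
          · exact Or.inl h.2
      refine ⟨opair (sU (repS X fst)) (sU (repS X snd)), (memS _ _).2 ⟨hd, hs, fun f hf => ?_⟩, fun t ht => ⟨?_, ?_⟩⟩
      · apply ext'
        intro z
        rw [mem_sec, mem_sec, mem_sU, mem_sU]
        have key : ∀ t : M, t ∈ X → (opair f z ∈ snd t ↔ opair (capS f (sU (repS X fst))) z ∈ snd t) := by
          intro t ht
          obtain ⟨d, s, rfl⟩ := memS' t (hX t ht)
          have h1 := ((memS d s).1 (hX _ ht)).2.2
          have hsub : MSub d (sU (repS X fst)) := fun w hw =>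
            mem_sU.2 ⟨_, (mem_repS (by fun_prop)).2 ⟨_, ht, rfl⟩, by rw [fst_opair]; exact hw⟩
          have h2 := h1 (capS f (sU (repS X fst))) (capS_mem_pow hf)
          rw [capS_capS hsub] at h2
          rw [snd_opair, ← mem_sec, ← mem_sec, h1 f hf, h2]
        constructor
        · rintro ⟨w, hw, hz⟩
          obtain ⟨t, ht, rfl⟩ := (mem_repS (by fun_prop)).1 hw
          exact ⟨_, hw, (key t ht).1 hz⟩
        · rintro ⟨w, hw, hz⟩
          obtain ⟨t, ht, rfl⟩ := (mem_repS (by fun_prop)).1 hw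
          exact ⟨_, hw, (key t ht).2 hz⟩
      · rw [fst_opair]
        exact fun z hz => mem_sU.2 ⟨_, (mem_repS (by fun_prop)).2 ⟨t, ht, rfl⟩, hz⟩
      · rw [snd_opair]
        exact fun z hz => mem_sU.2 ⟨_, (mem_repS (by fun_prop)).2 ⟨t, ht, rfl⟩, hz⟩)
  -- the limit
  have hFS : ∀ i : M, i ∈ lam → snd (F i) ∈ St κ μ ν (pow lam) ∧ fst (F i) ∈ lam ∧
      ∀ f : M, f ∈ pow lam → sec (snd (F i)) f = sec (snd (F i)) (capS f (fst (F i))) := by
    intro i hi
    obtain ⟨h1, _⟩ := hF' i hi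
    obtain ⟨d, s, h⟩ := memS' _ h1
    rw [h] at h1 ⊢
    rw [fst_opair, snd_opair]
    obtain ⟨h2, h3, h4⟩ := (memS d s).1 h1
    exact ⟨h3, h2, h4⟩
  let s : M := sU (repS lam (fun i => snd (F i)))
  have hs : s ∈ St κ μ ν (pow lam) := by
    apply St_chain hκ
    · intro w hw
      obtain ⟨i, hi, rfl⟩ := (mem_repS (by fun_prop)).1 hw
      exact (hFS i hi).1
    · exact fun h => hlκ' (h.trans (le_repS (by fun_prop)))
    · intro x y hx hy
      obtain ⟨i, hi, rfl⟩ := (mem_repS (by fun_prop)).1 hx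
      obtain ⟨j, hj, rfl⟩ := (mem_repS (by fun_prop)).1 hy
      rcases ord_trich i j (ord_mem hl.reg.ord hi) (ord_mem hl.reg.ord hj) with h | h | h
      · exact Or.inl ((hF' j hj).2.2.1 i h).2
      · rw [h]; exact Or.inl (fun z h => h)
      · exact Or.inr ((hF' i hi).2.2.1 j h).2
  have hsF : ∀ i f : M, i ∈ lam → MSub (sec (snd (F i)) f) (sec s f) := by
    intro i f hi z hz
    rw [mem_sec] at hz ⊢
    exact mem_sU.2 ⟨_, (mem_repS (by fun_prop)).2 ⟨i, hi, rfl⟩, hz⟩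
  -- the set of decided elements
  let V : M := sU (repS lam pow)
  have hV : Le V lam := union_le (by fun_prop) hl.reg.inf (Le.refl lam) (fun d hd => le_of_not (hl.lim _ (hl.reg.init _ hd)))
  have hVmem : ∀ f d : M, d ∈ lam → capS f d ∈ V := fun f d hd =>
    mem_sU.2 ⟨_, (mem_repS (by fun_prop)).2 ⟨d, hd, rfl⟩, capS_mem_pow' f d⟩
  let TT : M := prodS lam (prodS (prodS V V) P)
  have hTT : Le TT lam := prod_le hl.reg.inf (Le.refl _) (prod_le hl.reg.inf (prod_le hl.reg.inf hV hV) hP)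
  obtain ⟨ch, hch, hch'⟩ := choice (R := fun z a => a ∈ A ∧ ((∃ p' a : M, p' ∈ P ∧ MSub (snd (snd z)) p' ∧ a ∈ A ∧
      Opp P (Lv κ μ) ρ p' (sec (snd (F (fst z))) (fst (fst (snd z)))) (sec (snd (F (fst z))) (snd (fst (snd z)))) a) →
      ∃ p' : M, p' ∈ P ∧ MSub (snd (snd z)) p' ∧
      Opp P (Lv κ μ) ρ p' (sec (snd (F (fst z))) (fst (fst (snd z)))) (sec (snd (F (fst z))) (snd (fst (snd z)))) a))
      (by fun_prop) TT (by
        intro z _
        by_cases h : ∃ p' a : M, p' ∈ P ∧ MSub (snd (snd z)) p' ∧ a ∈ A ∧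
          Opp P (Lv κ μ) ρ p' (sec (snd (F (fst z))) (fst (fst (snd z)))) (sec (snd (F (fst z))) (snd (fst (snd z)))) a
        · obtain ⟨p', a, h1, h2, h3, h4⟩ := h
          exact ⟨a, h3, fun _ => ⟨p', h1, h2, h4⟩⟩
        · exact ⟨a0, ha0, fun h' => absurd h' h⟩)
  refine ⟨s, repS TT ch, hs, ?_, ?_, (le_repS hch).trans hTT, ?_⟩
  · intro f hf z hz
    apply hsF emp f hl.reg.zero
    rw [mem_sec]
    have := (hF' emp hl.reg.zero).2.1.2
    simp only [t0, snd_opair] at this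
    apply this
    exact (mem_mkS (by fun_prop)).2 ⟨f, z, hf, hz, rfl⟩
  · intro a ha
    obtain ⟨z, hz, rfl⟩ := (mem_repS hch).1 ha
    exact (hch' z hz).1
  · intro p f g hp hpp hf hg hfg
    obtain ⟨i, hi, hfg'⟩ : ∃ i : M, i ∈ lam ∧ capS f (suc i) ≠ capS g (suc i) := by
      by_contra hcon
      push Not at hcon
      apply hfg
      apply ext'
      intro z
      have key : ∀ f g : M, f ∈ pow lam → (∀ i : M, i ∈ lam → capS f (suc i) = capS g (suc i)) → z ∈ f → z ∈ g := by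
        intro f g hf h hz
        have h1 : z ∈ capS f (suc z) := mem_capS.2 ⟨hz, mem_suc.2 (Or.inr rfl)⟩
        rw [h z (mem_pow.1 hf z hz)] at h1
        exact (mem_capS.1 h1).1
      exact ⟨key f g hf hcon, key g f hg (fun i hi => (hcon i hi).symm)⟩
    have h1 : Spl (snd (F i)) f g p := (hF' i hi).2.2.2 f g hf hg hfg' p hp hpp
    obtain ⟨h2, h3, h4⟩ := hFS i hi
    simp only [Spl] at h1
    rw [h4 f hf, h4 g hg] at h1
    have hz : opair i (opair (opair (capS f (fst (F i))) (capS g (fst (F i)))) p) ∈ TT := by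
      simp only [TT, opair_mem_prodS]
      exact ⟨hi, ⟨hVmem f _ h3, hVmem g _ h3⟩, hp⟩
    have h5 := (hch' _ hz).2
    have hmem := (mem_repS hch).2 ⟨_, hz, rfl⟩
    simp only [fst_opair, snd_opair] at h5
    obtain ⟨p', h6, h7, h8⟩ := h5 h1
    refine ⟨p', _, h6, h7, hmem, ?_⟩
    rw [← h4 f hf, ← h4 g hg] at h8
    have hs' := mem_St.1 hs
    exact h8.mono hρ ⟨h6, hs'.2.1 f hf, fun z h => h, hsF i f hi⟩ ⟨h6, hs'.2.1 g hg, fun z h => h, hsF i g hi⟩

/-- the condition `(p, r)` forces that the traces on `x` of the sets named by `ρ` and by the section at `(x, j)` of `e` are equal -/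
def Ag (P R : M) (ρ e : M → M → M → Prop) (x p r j : M) : Prop :=
  ∀ a p' r' : M, a ∈ x → Ex P R p r p' r' → (ρ p' r' a ↔ e p' r' (opair (opair x j) a))

theorem Ag.mono {P R : M} {ρ e : M → M → M → Prop} {x p r j p' r' : M} (h : Ag P R ρ e x p r j) (h' : Ex P R p r p' r') :
    Ag P R ρ e x p' r' j := fun a p'' r'' ha h'' => h a p'' r'' ha (h'.trans h'')

/-- Some condition forces that the trace on some `x` of the set named by `ρ` is not one of `λ` given sets that
belong to a smaller extension. -/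
theorem silver {lam κ μ ν P A p0 r0 : M} {ρ e : M → M → M → Prop} (hl : IsInac lam) (hκ : IsReg κ) (hlκ : lam ∈ κ)
    (hν : IsOrd ν) (hνμ : MSub ν μ) (hP : Le P lam) (hlA : MSub lam A) (hp0 : p0 ∈ P) (hr0 : r0 ∈ Lv κ μ) (hρ : RN P (Lv κ μ) ρ)
    (he : RN P (Lv κ μ) e) (heν : ∀ p r b : M, p ∈ P → r ∈ Lv κ μ → (e p r b ↔ e p (res r ν) b))
    (hsp : ∀ p r : M, Ex P (Lv κ μ) p0 r0 p r → ∃ p' r1 r2 a : M, Ex P (Lv κ μ) p r p' r1 ∧ Ex P (Lv κ μ) p r p' r2 ∧
      res r1 ν = res r2 ν ∧ a ∈ A ∧ ρ p' r1 a ∧ Ng P (Lv κ μ) ρ p' r2 a) :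
    ∃ p1 r1 x : M, Ex P (Lv κ μ) p0 r0 p1 r1 ∧ MSub x A ∧ MSub lam x ∧ Le x lam ∧
      ∀ p r j : M, Ex P (Lv κ μ) p1 r1 p r → j ∈ lam → ¬ Ag P (Lv κ μ) ρ e x p r j := by
  classical
  have hρd := hρ.df
  have hed := he.df
  have hlκ' : ¬ Le κ lam := hκ.init _ hlκ
  obtain ⟨s, x0, hs, hrs, hx0, hx0l, hsplit⟩ := tree hl hκ hlκ hν hνμ hP (hlA _ hl.reg.zero) hr0 hρ hsp
  have hs' := mem_St.1 hs
  let x : M := cup x0 lam
  have hxA : MSub x A := fun z hz => (mem_cup.1 hz).elim (hx0 z) (hlA z)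
  have hlx : MSub lam x := fun z hz => mem_cup.2 (Or.inr hz)
  have hxl : Le x lam := cup_le hl.reg.inf hx0l (Le.refl _)
  have hempl : (emp : M) ∈ pow lam := mem_pow.2 (fun z hz => absurd hz (not_mem_emp z))
  let u0 : M := res (sec s emp) ν
  have hu0 : u0 ∈ Lv κ ν := res_mem hν (hs'.2.1 _ hempl)
  have hsu0 : ∀ f : M, f ∈ pow lam → res (sec s f) ν = u0 := fun f hf => hs'.2.2 f emp hf hempl
  let W : M → M → M → Prop := fun p j u => ∃ f r : M, f ∈ pow lam ∧ r ∈ Lv κ μ ∧ MSub (sec s f) r ∧ MSub (res r ν) u ∧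
    Ag P (Lv κ μ) ρ e x p r j
  have hAg : DefP M (fun t : M × (M × M) => Ag P (Lv κ μ) ρ e x t.1 t.2.1 t.2.2) := by unfold Ag; fun_prop
  have hW : DefP M (fun t : M × (M × M) => W t.1 t.2.1 t.2.2) := by
    simp only [W]; unfold Ag; fun_prop
  have hT : ¬ Le κ (prodS P lam) := hκ.prod (fun h => hlκ' (h.trans hP)) hlκ'
  have hΦ : DefP M (fun t : M × M => W (fst t.1) (snd t.1) t.2 ∨
      ∀ u' : M, u' ∈ Lv κ ν → MSub t.2 u' → ¬ W (fst t.1) (snd t.1) u') := by
    simp only [W]; unfold Ag; fun_prop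
  obtain ⟨u1, hu1, hu01, hu1'⟩ := fuse (μ := ν) (T := prodS P lam) hκ hT hu0
    (Φ := fun z u => W (fst z) (snd z) u ∨ ∀ u' : M, u' ∈ Lv κ ν → MSub u u' → ¬ W (fst z) (snd z) u') hΦ (by
      rintro z u u' hz hu hu' huu' (h | h)
      · obtain ⟨f, r, h1, h2, h3, h4, h5⟩ := h
        exact Or.inl ⟨f, r, h1, h2, h3, MSub.trans' h4 huu', h5⟩
      · exact Or.inr (fun u'' h1 h2 => h u'' h1 (MSub.trans' huu' h2))) (by
      intro z u hz hu _
      by_cases h : ∃ u' : M, u' ∈ Lv κ ν ∧ MSub u u' ∧ W (fst z) (snd z) u'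
      · obtain ⟨u', h1, h2, h3⟩ := h
        exact ⟨u', h1, h2, Or.inl h3⟩
      · push Not at h
        exact ⟨u, hu, fun z h => h, Or.inr h⟩)
  -- branches that have been used
  obtain ⟨br, hbr, hbr'⟩ := choice (R := fun z f => W (fst z) (snd z) u1 → (f ∈ pow lam ∧ ∃ r : M, r ∈ Lv κ μ ∧ MSub (sec s f) r ∧
      MSub (res r ν) u1 ∧ Ag P (Lv κ μ) ρ e x (fst z) r (snd z))) (by simp only [W]; unfold Ag; fun_prop) (prodS P lam) (by
    intro z _
    by_cases h : W (fst z) (snd z) u1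
    · obtain ⟨f, r, h1, h2, h3, h4, h5⟩ := h
      exact ⟨f, fun _ => ⟨h1, r, h2, h3, h4, h5⟩⟩
    · exact ⟨emp, fun h' => absurd h' h⟩)
  obtain ⟨f, hf, hfZ⟩ : ∃ f : M, f ∈ pow lam ∧ ¬ f ∈ repS (prodS P lam) br := by
    by_contra hcon
    push Not at hcon
    exact cantor lam ((Le.of_sub hcon).trans ((le_repS hbr).trans (prod_le hl.reg.inf hP (Le.refl _))))
  obtain ⟨m1, m2⟩ := amalg hκ hνμ (hs'.2.1 f hf) hu1 (by rw [hsu0 f hf]; exact hu01)
  refine ⟨p0, cup (sec s f) u1, x, ⟨hp0, m1, fun z h => h, fun z hz => mem_cup.2 (Or.inl (hrs f hf z hz))⟩, hxA, hlx, hxl, ?_⟩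
  intro p r j hpr hj hag
  have hsf : MSub (sec s f) r := fun z hz => hpr.2.2.2 z (mem_cup.2 (Or.inl hz))
  have hur : MSub u1 (res r ν) := by rw [← m2]; exact res_mono hpr.2.2.2 ν
  have hrν : res r ν ∈ Lv κ ν := res_mem hν hpr.2.1
  have hz : opair p j ∈ prodS P lam := opair_mem_prodS.2 ⟨hpr.1, hj⟩
  have h1 := hu1' _ hz
  have h2 := hbr' _ hz
  rw [fst_opair, snd_opair] at h1 h2
  rcases h1 with h1 | h1
  · obtain ⟨h3, r2, h4, h5, h6, h7⟩ := h2 h1
    have hne : f ≠ br (opair p j) := fun h => hfZ ((mem_repS hbr).2 ⟨_, hz, h⟩)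
    obtain ⟨p', a, h8, h9, h10, h11⟩ := hsplit p f _ hpr.1 hpr.2.2.1 hf h3 hne
    have hax : a ∈ x := mem_cup.2 (Or.inl h10)
    obtain ⟨m3, m4⟩ := amalg hκ hνμ h4 hrν (MSub.trans' h6 hur)
    -- the two conditions
    have e1 : Ex P (Lv κ μ) p r p' r := ⟨h8, hpr.2.1, h9, fun z h => h⟩
    have e2 : Ex P (Lv κ μ) p r2 p' (cup r2 (res r ν)) := ⟨h8, m3, h9, fun z hz => mem_cup.2 (Or.inl hz)⟩
    have e3 : Ex P (Lv κ μ) p' (sec s f) p' r := ⟨h8, hpr.2.1, fun z h => h, hsf⟩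
    have e4 : Ex P (Lv κ μ) p' (sec s (br (opair p j))) p' (cup r2 (res r ν)) :=
      ⟨h8, m3, fun z h => h, fun z hz => mem_cup.2 (Or.inl (h5 z hz))⟩
    have k1 := hag a p' r hax e1
    have k2 := h7 a p' _ hax e2
    rw [heν _ _ _ h8 hpr.2.1] at k1
    rw [heν _ _ _ h8 m3, m4] at k2
    rcases h11 with ⟨h12, h13⟩ | ⟨h12, h13⟩
    · exact h13 _ _ e4 (k2.2 (k1.1 (hρ.mono _ _ _ _ _ e3 h12)))
    · exact h12 _ _ e3 (k1.2 (k2.1 (hρ.mono _ _ _ _ _ e4 h13)))
  · exact h1 (res r ν) hrν hur ⟨f, r, hf, hpr.2.1, hsf, fun z h => h, hag⟩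

end

end Pool.Agent.Helper79.Kurepa
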