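import Pool.Agent.Helper79.Kurepa.Gen
import Pool.Agent.Helper79.Kurepa.Silver

/-!
# Absoluteness, choice and names in generic extensions
-/

namespace Pool.Agent.Helper79.Kurepa

open Pool.Agent.Helper79.ZF

namespace GenExt

section
variable {M N : Type} [Membership M M] [Membership N N] [ZFCM M] [ZFModel N] {P R : M} (g : GenExt M N P R)

theorem j_mem_j {x y : M} : g.j x ∈ g.j y ↔ x ∈ y := by
  rw [g.mem_j]
  constructor
  · rintro ⟨z, hz, h⟩; rwa [g.inj h]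
  · intro h; exact ⟨x, h, rfl⟩

theorem j_emp : g.j emp = emp := by
  apply ext'
  intro z
  rw [g.mem_j]
  constructor
  · rintro ⟨y, hy, _⟩; exact absurd hy (not_mem_emp y)
  · intro h; exact absurd h (not_mem_emp z)

theorem j_upair (x y : M) : g.j (upair x y) = upair (g.j x) (g.j y) := by
  apply ext'
  intro z
  rw [g.mem_j, mem_upair]
  constructor
  · rintro ⟨w, hw, rfl⟩
    rcases mem_upair.1 hw with rfl | rfl
    · exact Or.inl rfl
    · exact Or.inr rfl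
  · rintro (rfl | rfl)
    · exact ⟨x, by simp, rfl⟩
    · exact ⟨y, by simp, rfl⟩

theorem j_sing (x : M) : g.j (sing x) = sing (g.j x) := g.j_upair x x

theorem j_opair (x y : M) : g.j (opair x y) = opair (g.j x) (g.j y) := by
  unfold opair
  rw [g.j_upair, g.j_sing, g.j_upair]

theorem j_suc (x : M) : g.j (suc x) = suc (g.j x) := by
  apply ext'
  intro z
  rw [g.mem_j, mem_suc, g.mem_j]
  constructor
  · rintro ⟨w, hw, rfl⟩
    rcases mem_suc.1 hw with h | rfl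
    · exact Or.inl ⟨w, h, rfl⟩
    · exact Or.inr rfl
  · rintro (⟨w, hw, rfl⟩ | rfl)
    · exact ⟨w, mem_suc.2 (Or.inl hw), rfl⟩
    · exact ⟨x, mem_suc.2 (Or.inr rfl), rfl⟩

theorem j_prodS (A B : M) : g.j (prodS A B) = prodS (g.j A) (g.j B) := by
  apply ext'
  intro z
  rw [g.mem_j, mem_prodS]
  constructor
  · rintro ⟨w, hw, rfl⟩
    obtain ⟨a, b, ha, hb, rfl⟩ := mem_prodS.1 hw
    exact ⟨g.j a, g.j b, g.j_mem_j.2 ha, g.j_mem_j.2 hb, g.j_opair a b⟩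
  · rintro ⟨a, b, ha, hb, rfl⟩
    obtain ⟨a, ha', rfl⟩ := g.mem_j.1 ha
    obtain ⟨b, hb', rfl⟩ := g.mem_j.1 hb
    exact ⟨opair a b, opair_mem_prodS.2 ⟨ha', hb'⟩, (g.j_opair a b).symm⟩

/-- pairs in the image come from pairs -/
theorem opair_mem_j {f : M} {u v : N} (h : opair u v ∈ g.j f) : ∃ a b : M, u = g.j a ∧ v = g.j b ∧ opair a b ∈ f := by
  obtain ⟨w, hw, hw'⟩ := g.mem_j.1 h
  have h1 : upair u v ∈ g.j w := by rw [← hw']; unfold opair; simp
  obtain ⟨w1, hw1, hw1'⟩ := g.mem_j.1 h1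
  have h2 : u ∈ g.j w1 := by rw [← hw1']; simp
  have h3 : v ∈ g.j w1 := by rw [← hw1']; simp
  obtain ⟨a, _, ha⟩ := g.mem_j.1 h2
  obtain ⟨b, _, hb⟩ := g.mem_j.1 h3
  refine ⟨a, b, ha, hb, ?_⟩
  have : opair a b = w := by
    apply g.inj
    rw [g.j_opair, ← ha, ← hb, hw']
  rw [this]; exact hw

theorem j_opair_mem {f a b : M} : opair (g.j a) (g.j b) ∈ g.j f ↔ opair a b ∈ f := by
  rw [← g.j_opair, g.j_mem_j]

theorem j_ord {x : M} : IsOrd (g.j x) ↔ IsOrd x := by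
  constructor
  · rintro ⟨h1, h2⟩
    refine ⟨fun y z hy hz => ?_, fun y hy z w hz hw => ?_⟩
    · exact g.j_mem_j.1 (h1 _ _ (g.j_mem_j.2 hy) (g.j_mem_j.2 hz))
    · exact g.j_mem_j.1 (h2 _ (g.j_mem_j.2 hy) _ _ (g.j_mem_j.2 hz) (g.j_mem_j.2 hw))
  · rintro ⟨h1, h2⟩
    constructor
    · intro y z hy hz
      obtain ⟨y, hy', rfl⟩ := g.mem_j.1 hy
      obtain ⟨z, hz', rfl⟩ := g.mem_j.1 hz
      exact g.j_mem_j.2 (h1 y z hy' hz')
    · intro y hy z w hz hw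
      obtain ⟨y, hy', rfl⟩ := g.mem_j.1 hy
      obtain ⟨z, hz', rfl⟩ := g.mem_j.1 hz
      obtain ⟨w, hw', rfl⟩ := g.mem_j.1 hw
      exact g.j_mem_j.2 (h2 y hy' z w hz' hw')

theorem j_om : g.j (om M) = om N := by
  have h1 : Ind (g.j (om M)) := by
    constructor
    · rw [← g.j_emp, g.j_mem_j]; exact zero_mem_om
    · intro y hy
      obtain ⟨y, hy', rfl⟩ := g.mem_j.1 hy
      rw [← g.j_suc, g.j_mem_j]; exact suc_mem_om hy'
  obtain ⟨w, hw⟩ := g.ords (om N) ord_om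
  have h2 : Ind w := by
    constructor
    · rw [← g.j_mem_j, hw, g.j_emp]; exact zero_mem_om
    · intro y hy
      rw [← g.j_mem_j, hw, g.j_suc]
      apply suc_mem_om
      rw [← hw, g.j_mem_j]; exact hy
  apply ext'
  intro z
  constructor
  · intro hz
    obtain ⟨y, hy, rfl⟩ := g.mem_j.1 hz
    rw [← hw, g.j_mem_j]
    exact mem_om.1 hy w h2
  · intro hz
    exact mem_om.1 hz _ h1

theorem j_MSub {x y : M} : MSub (g.j x) (g.j y) ↔ MSub x y := by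
  constructor
  · intro h z hz
    exact g.j_mem_j.1 (h _ (g.j_mem_j.2 hz))
  · intro h z hz
    obtain ⟨z, hz', rfl⟩ := g.mem_j.1 hz
    exact g.j_mem_j.2 (h z hz')

theorem j_le {x y : M} (h : Le x y) : Le (g.j x) (g.j y) := by
  obtain ⟨f, h1, h2, h3⟩ := le_iff.1 h
  rw [le_iff]
  refine ⟨g.j f, fun a ha => ?_, fun a b c hab hac => ?_, fun a b c hab hac => ?_⟩
  · obtain ⟨a, ha', rfl⟩ := g.mem_j.1 ha
    obtain ⟨b, hb, hab⟩ := h1 a ha'
    exact ⟨g.j b, g.j_mem_j.2 hb, g.j_opair_mem.2 hab⟩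
  · obtain ⟨a', b', rfl, rfl, h4⟩ := g.opair_mem_j hab
    obtain ⟨a'', c', h5, rfl, h6⟩ := g.opair_mem_j hac
    have := g.inj h5
    subst this
    rw [h2 _ _ _ h4 h6]
  · obtain ⟨a', c', rfl, rfl, h4⟩ := g.opair_mem_j hab
    obtain ⟨b', c'', rfl, h5, h6⟩ := g.opair_mem_j hac
    have := g.inj h5
    subst this
    rw [h3 _ _ _ h4 h6]

/-- every set of the extension is the image of an ordinal -/
theorem exists_enum (t : N) : ∃ (x : M) (F : N → N), IsOrd x ∧ DefF N F ∧ ∀ z : N, z ∈ t → ∃ i : N, i ∈ g.j x ∧ F i = z := by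
  obtain ⟨D, F, hF, hF'⟩ := g.cover t
  obtain ⟨x, hx, f, hf, h1, h2, h3⟩ := exists_ord D
  refine ⟨x, fun i => F (app (g.j (lam x f)) i), hx, by fun_prop, fun z hz => ?_⟩
  obtain ⟨d, hd, hd'⟩ := hF' z hz
  obtain ⟨y, hy, rfl⟩ := h3 d hd
  refine ⟨g.j y, g.j_mem_j.2 hy, ?_⟩
  have : app (g.j (lam x f)) (g.j y) = g.j (f y) := by
    apply app_eq
    · rw [g.j_opair_mem, mem_lam hf]; exact ⟨y, hy, rfl⟩
    · intro y' h
      obtain ⟨a, b, h4, h5, h6⟩ := g.opair_mem_j h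
      have := g.inj h4
      subst this
      obtain ⟨w, _, hw⟩ := (mem_lam hf).1 h6
      rw [opair_inj] at hw
      rw [h5, hw.2, hw.1]
  show F (app (g.j (lam x f)) (g.j y)) = z
  rw [this, hd']

include g in
/-- the axiom of choice holds in the extension -/
theorem zfc : ZFCM N := by
  refine { ac := fun X hX => ?_ }
  obtain ⟨x, F, hx, hF, hF'⟩ := g.exists_enum (sU X)
  have hjx : IsOrd (g.j x) := g.j_ord.2 hx
  let c : N → N := fun y => F (leastO (fun i => i ∈ g.j x ∧ F i ∈ y))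
  have hc : DefF N c := by simp only [c]; fun_prop
  have hcy : ∀ y : N, y ∈ X → c y ∈ y := by
    intro y hy
    obtain ⟨z, hz⟩ := hX y hy
    obtain ⟨i, hi, hi'⟩ := hF' z (mem_sU.2 ⟨y, hy, hz⟩)
    have := leastO_spec (R := fun i => i ∈ g.j x ∧ F i ∈ y) (by fun_prop) (ord_mem hjx hi) ⟨hi, by rw [hi']; exact hz⟩
    exact this.2.1.2
  refine ⟨lam X c, fun y hy => ⟨c y, hcy y hy, fun w p hp => ?_⟩⟩
  rw [isPair_iff] at hp
  subst hp
  rw [mem_lam hc]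
  constructor
  · rintro ⟨w', _, h⟩
    rw [opair_inj] at h
    rw [h.2, h.1]
  · rintro rfl; exact ⟨y, hy, rfl⟩

/-- evaluation of a name -/
noncomputable def ev (z : N) : N := sepS (sU (sU z)) (fun a => ∃ q : N, q ∈ g.G ∧ opair q a ∈ z)

omit [ZFCM M] in
@[fun_prop]
theorem ev_def {M : Type} [Membership M M] [ZFCM M] {P R : M} (g : GenExt M N P R) {α : Type} [Ctx N α] {z : α → N}
    (hz : DefF N z) : DefF N (fun a => g.ev (z a)) := by
  unfold ev; fun_prop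

theorem mem_ev {z a : N} : a ∈ g.ev z ↔ ∃ q : N, q ∈ g.G ∧ opair q a ∈ z := by
  unfold ev
  rw [mem_sepS (by fun_prop)]
  refine ⟨fun h => h.2, fun h => ⟨?_, h⟩⟩
  obtain ⟨q, _, h⟩ := h
  rw [mem_sU]
  refine ⟨upair q a, ?_, by simp⟩
  rw [mem_sU]
  exact ⟨_, h, by simp [opair]⟩

theorem j_mem_ev {σ a : M} : g.j a ∈ g.ev (g.j σ) ↔ ∃ p r : M, g.j (opair p r) ∈ g.G ∧ opair (opair p r) a ∈ σ := by
  rw [g.mem_ev]
  constructor
  · rintro ⟨q, hq, h⟩
    obtain ⟨p, r, _, _, rfl⟩ := g.G_sub q hq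
    exact ⟨p, r, hq, g.j_opair_mem.1 h⟩
  · rintro ⟨p, r, h1, h2⟩
    exact ⟨_, h1, g.j_opair_mem.2 h2⟩

/-- a set with a given name -/
theorem eq_ev {A σ : M} {t : N} (ht : MSub t (g.j A)) (hσ : ∀ q a : M, opair q a ∈ σ → a ∈ A)
    (h : ∀ a : M, a ∈ A → (g.j a ∈ t ↔ ∃ p r : M, g.j (opair p r) ∈ g.G ∧ opair (opair p r) a ∈ σ)) : t = g.ev (g.j σ) := by
  apply ext'
  intro z
  constructor
  · intro hz
    obtain ⟨a, ha, rfl⟩ := g.mem_j.1 (ht z hz)
    rw [g.j_mem_ev, ← h a ha]; exact hz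
  · intro hz
    obtain ⟨q, _, hq⟩ := g.mem_ev.1 hz
    obtain ⟨q', a, _, rfl, h1⟩ := g.opair_mem_j hq
    rw [h a (hσ _ _ h1)]
    rw [g.j_mem_ev] at hz; exact hz

/-- conditions in the filter are conditions -/
theorem G_mem {p r : M} (h : g.j (opair p r) ∈ g.G) : p ∈ P ∧ r ∈ R := by
  obtain ⟨p', r', h1, h2, h3⟩ := g.G_sub _ h
  have := g.inj h3
  rw [opair_inj] at this
  rw [this.1, this.2]; exact ⟨h1, h2⟩

/-- two conditions in the filter have a common extension in the filter -/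
theorem G_dir {p r p' r' : M} (h : g.j (opair p r) ∈ g.G) (h' : g.j (opair p' r') ∈ g.G) :
    ∃ p'' r'' : M, g.j (opair p'' r'') ∈ g.G ∧ Ex P R p r p'' r'' ∧ Ex P R p' r' p'' r'' := by
  obtain ⟨p'', r'', h1, h2, h3, h4, h5⟩ := g.dir _ _ _ _ h h'
  have h6 := g.G_mem h1
  exact ⟨p'', r'', h1, ⟨h6.1, h6.2, h2, h3⟩, ⟨h6.1, h6.2, h4, h5⟩⟩

theorem name_mono {ρ : M → M → M → Prop} (hρ : RN P R ρ) {p r p' r' a : M} (h : Ex P R p r p' r') (h' : ρ p r a) : ρ p' r' a :=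
  hρ.mono _ _ _ _ _ h h'

/-- an element outside is forced outside by a condition in the filter -/
theorem name_not {ρ : M → M → M → Prop} (hρ : RN P R ρ) {a : M} (h : ¬ ∃ p r : M, g.j (opair p r) ∈ g.G ∧ ρ p r a) :
    ∃ p r : M, g.j (opair p r) ∈ g.G ∧ Ng P R ρ p r a := by
  have hρd := hρ.df
  obtain ⟨p, r, h1, h2 | h2⟩ := g.gen (fun p r => ρ p r a ∨ Ng P R ρ p r a) (by
      have : DefP M (fun t : M × M => ρ t.1 t.2 a) :=
        DefP_comp (R := fun t : M × (M × M) => ρ t.1 t.2.1 t.2.2) hρd (f := fun t : M × M => (t.1, (t.2, a))) (by fun_prop)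
      have h2 := Ng_def (M := M) (α := M × M) (P := fun _ => P) (R := fun _ => R) (p := fun t => t.1) (r := fun t => t.2)
        (a := fun _ => a) hρd (by fun_prop) (by fun_prop) (by fun_prop) (by fun_prop) (by fun_prop)
      exact this.or h2) (fun p r hp hr => hρ.decide a hp hr)
  · exact absurd ⟨p, r, h1, h2⟩ h
  · exact ⟨p, r, h1, h2⟩

theorem not_both {ρ : M → M → M → Prop} (hρ : RN P R ρ) {a p r p' r' : M} (h : g.j (opair p r) ∈ g.G)
    (h' : g.j (opair p' r') ∈ g.G) (h1 : ρ p r a) (h2 : Ng P R ρ p' r' a) : False := by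
  obtain ⟨p'', r'', _, h4, h5⟩ := g.G_dir h h'
  exact h2 p'' r'' h5 (hρ.mono _ _ _ _ _ h4 h1)

end

end GenExt

end Pool.Agent.Helper79.Kurepa
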