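import Pool.Agent.Helper79.Kurepa.Count

/-!
# The alephs and GCH in the extension
-/

namespace Pool.Agent.Helper79.Kurepa

open Pool.Agent.Helper79.ZF

section
variable {N : Type} [Membership N N] [ZFCM N]

theorem isSucc_of {A W : N} (hW : IsOrd W) (h1 : ∀ x : N, x ∈ W → Le x A) (h2 : Le (pow A) W) : IsSucc A W := by
  refine ⟨fun h => cantor A (h2.trans h), fun Z hZ => ?_⟩
  obtain ⟨z, hz, h3, h4⟩ := exists_card Z
  rcases ord_cases hz.1 hW with h | h
  · exact absurd (h3.trans (h1 z h)) hZ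
  · exact (Le.of_sub h).trans h4

theorem IsSucc.congr {X Y X' Y' : N} (h : IsSucc X Y) (h1 : Le X X') (h2 : Le X' X) (h3 : Le Y Y') (h4 : Le Y' Y) : IsSucc X' Y' :=
  ⟨fun h5 => h.1 (h3.trans (h5.trans h2)), fun Z hZ => h4.trans (h.2 Z (fun h5 => hZ (h5.trans h1)))⟩

theorem HasAleph.congr {n : ℕ} {X Y : N} (h : HasAleph n X) (h1 : Le X Y) (h2 : Le Y X) : HasAleph n Y := by
  cases n with
  | zero =>
    obtain ⟨W, hW, h3, h4⟩ := h
    exact ⟨W, hW, h3.trans h1, h2.trans h4⟩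
  | succ n =>
    obtain ⟨Z, hZ, h3⟩ := h
    exact ⟨Z, hZ, h3.congr (Le.refl _) (Le.refl _) h1 h2⟩

theorem HasAleph.le {n : ℕ} : ∀ {X Y : N}, HasAleph n X → HasAleph n Y → Le X Y := by
  induction n with
  | zero =>
    rintro X Y ⟨W, hW, h3, h4⟩ ⟨W', hW', h3', h4'⟩
    rw [isOmega_iff] at hW hW'
    subst hW hW'
    exact h4.trans h3'
  | succ n ih =>
    rintro X Y ⟨Z, hZ, h3⟩ ⟨Z', hZ', h3'⟩
    exact h3.2 Y (fun h => h3'.1 (h.trans (ih hZ hZ')))

theorem hasAleph_zero : HasAleph 0 (om N) := ⟨om N, isOmega_iff.2 rfl, Le.refl _, Le.refl _⟩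

/-- GCH at a set, from a set of the same cardinality whose power set is bounded by an ordinal with small initial segments -/
theorem isSucc_pow {X A W : N} (hXA : Le X A) (hAX : Le A X) (hW : IsOrd W) (h1 : ∀ x : N, x ∈ W → Le x A)
    (h2 : Le (pow A) W) : IsSucc X (pow X) := by
  refine ⟨cantor X, fun Z hZ => ?_⟩
  have := (isSucc_of hW h1 h2).2 Z (fun h => hZ (h.trans hAX))
  exact (le_pow hXA).trans (h2.trans this)

end

/-- cardinals of the ground model used in the construction -/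
structure Cfg (M : Type) [Membership M M] [ZFCM M] where
  lam : M
  μ : M
  K : ℕ → M
  hl : IsInac lam
  hm : IsInac μ
  K0 : K 0 = lam
  Kreg : ∀ i, IsReg (K i)
  Kmem : ∀ i, K i ∈ K (i + 1)
  Kle : ∀ i x, x ∈ K (i + 1) → Le x (K i)
  Kpow : ∀ i, Le (pow (K i)) (K (i + 1))
  Kμ : ∀ i, K i ∈ μ

namespace Cfg

section
variable {M : Type} [Membership M M] [ZFCM M] (c : Cfg M)

theorem K_lt {i k : ℕ} (h : i < k) : c.K i ∈ c.K k := by
  induction k with
  | zero => omega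
  | succ k ih =>
    rcases Nat.lt_or_ge i k with h1 | h1
    · exact (c.Kreg (k+1)).ord.1 _ _ (c.Kmem k) (ih h1)
    · obtain rfl : i = k := by omega
      exact c.Kmem i

/-- the first factor -/
noncomputable def P : M := Lv (om M) c.lam

/-- the second factor -/
noncomputable def R (m : ℕ) : M := Lv (c.K m) c.μ

theorem lam_mem {m : ℕ} (hm : 1 ≤ m) : c.lam ∈ c.K m := by
  rw [← c.K0]; exact c.K_lt hm

theorem P_le : Le c.P c.lam := Lv_le c.hl c.hl.unc

theorem R_le (m : ℕ) : Le (c.R m) c.μ := Lv_le c.hm (c.Kμ m)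

theorem not_le_lam {m : ℕ} (hm : 1 ≤ m) : ¬ Le (c.K m) c.lam := (c.Kreg m).init _ (c.lam_mem hm)

theorem P_small {m : ℕ} (hm : 1 ≤ m) : ¬ Le (c.K m) c.P := fun h => c.not_le_lam hm (h.trans c.P_le)

theorem lam_lt_μ : c.lam ∈ c.μ := by rw [← c.K0]; exact c.Kμ 0

theorem P_small_μ : ¬ Le c.μ c.P := fun h => c.hm.reg.init _ c.lam_lt_μ (h.trans c.P_le)

end

section
variable {M N : Type} [Membership M M] [Membership N N] [ZFCM M] [ZFCM N] (c : Cfg M) {m : ℕ}
  (g : GenExt M N c.P (c.R m))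

theorem N_pow_om (hm : 1 ≤ m) : Le (pow (om N)) (g.j c.lam) :=
  GenExt.pow_om_le (lam := c.lam) (κ := c.K m) (μ := c.μ) g c.hl (c.Kreg m)
    ((c.Kreg m).prod (c.P_small hm) (fun h => c.not_le_lam hm (h.trans (le_of_not (c.hl.reg.init _ c.hl.unc)))))

theorem N_seg_lam : ∀ x : N, x ∈ g.j c.lam → Le x (om N) := by
  intro x hx
  obtain ⟨y, hy, rfl⟩ := g.mem_j.1 hx
  rw [← g.j_om]
  exact GenExt.collapse1 (κ := om M) (μ := c.lam) g isReg_om c.hl.reg.ord hy

theorem N_pow_K {i : ℕ} (hm : 1 ≤ m) (hi : i < m) : Le (pow (g.j (c.K i))) (g.j (c.K (i+1))) := by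
  have hinf := (c.Kreg i).inf
  have hPi : Le c.P (c.K i) := by
    refine c.P_le.trans (Le.of_sub ?_)
    rw [← c.K0]
    rcases Nat.eq_zero_or_pos i with h | h
    · subst h; exact fun z h => h
    · exact ord_sub (c.Kreg i).ord (c.K_lt h)
  have hsing : Le (sing (emp : M)) (c.K i) := by
    refine Le.trans (B := suc emp) ?_ (Le.of_sub (ord_sub (c.Kreg i).ord ((c.Kreg i).succ _ (c.Kreg i).zero)))
    refine Le.of (fun x => x) (by fun_prop) (fun z hz => ?_) (fun _ _ _ _ h => h)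
    rw [mem_sing.1 hz]; exact mem_suc.2 (Or.inr rfl)
  have h1 : Le (prodS (prodS c.P (sing emp)) (c.K i)) (c.K i) := prod_le hinf (prod_le hinf hPi hsing) (Le.refl _)
  refine (GenExt.pow_le_decided (κ := c.K m) (μ := c.μ) g (A := c.K i) (c.Kreg m) ?_).trans (g.j_le ((le_pow h1).trans (c.Kpow i)))
  exact (c.Kreg m).prod (c.P_small hm) ((c.Kreg m).init _ (c.K_lt hi))

theorem N_seg_K (i : ℕ) : ∀ x : N, x ∈ g.j (c.K (i+1)) → Le x (g.j (c.K i)) := by
  intro x hx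
  obtain ⟨y, hy, rfl⟩ := g.mem_j.1 hx
  exact g.j_le (c.Kle i y hy)

theorem N_pow_κ : Le (pow (g.j (c.K m))) (g.j c.μ) :=
  GenExt.pow_le_small (κ := c.K m) (μ := c.μ) g (A := c.K m) (c.Kreg m) c.hm (c.Kμ m) c.P_small_μ (c.hm.reg.init _ (c.Kμ m))

theorem N_seg_μ : ∀ x : N, x ∈ g.j c.μ → Le x (g.j (c.K m)) := by
  intro x hx
  obtain ⟨y, hy, rfl⟩ := g.mem_j.1 hx
  exact GenExt.collapse2 (κ := c.K m) (μ := c.μ) g (c.Kreg m) c.hm.reg.ord hy

theorem N_aleph_one (hm : 1 ≤ m) : HasAleph 1 (g.j c.lam) :=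
  ⟨om N, hasAleph_zero, isSucc_of (g.j_ord.2 c.hl.reg.ord) (c.N_seg_lam g) (c.N_pow_om g hm)⟩

theorem N_aleph (hm : 1 ≤ m) (i : ℕ) (hi : i ≤ m) : HasAleph (i + 1) (g.j (c.K i)) := by
  induction i with
  | zero => rw [c.K0]; exact c.N_aleph_one g hm
  | succ i ih =>
    exact ⟨g.j (c.K i), ih (by omega), isSucc_of (g.j_ord.2 (c.Kreg (i+1)).ord) (c.N_seg_K g i) (c.N_pow_K g hm (by omega))⟩

theorem N_succ_κ : IsSucc (g.j (c.K m)) (g.j c.μ) :=
  isSucc_of (g.j_ord.2 c.hm.reg.ord) (c.N_seg_μ g) (c.N_pow_κ g)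

end

section
variable {M N : Type} [Membership M M] [Membership N N] [GCHM M] [ZFCM N] (c : Cfg M) {m : ℕ}
  (g : GenExt M N c.P (c.R m))

include c g in
/-- GCH holds in the extension -/
theorem N_gch (hm : 1 ≤ m) : GCH N := by
  rintro X Pw ⟨W, hW, hX⟩ hPw
  rw [isOmega_iff] at hW
  subst hW
  rw [isPow_iff] at hPw
  subst hPw
  -- the cardinality of `X` is a cardinal of the ground model
  obtain ⟨z, hz, h1, h2⟩ := exists_card X
  obtain ⟨z0, rfl⟩ := g.ords z hz.1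
  obtain ⟨θ, hθ, h3, h4⟩ := exists_card z0
  have hXθ : Le X (g.j θ) := h1.trans (g.j_le h3)
  have hθX : Le (g.j θ) X := (g.j_le h4).trans h2
  have hlo := c.hl.reg.ord
  rcases ord_cases hθ.1 hlo with hcase | hcase
  · -- countable
    have h5 : Le X (om N) := hXθ.trans (c.N_seg_lam g _ (g.j_mem_j.2 hcase))
    exact isSucc_pow h5 hX (g.j_ord.2 hlo) (c.N_seg_lam g) (c.N_pow_om g hm)
  · rcases ord_cases hθ.1 c.hm.reg.ord with hcase2 | hcase2
    · -- below μ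
      have key : ∀ k : ℕ, k ≤ m → (∃ i, i < k ∧ MSub (c.K i) θ ∧ θ ∈ c.K (i+1)) ∨ MSub (c.K k) θ := by
        intro k
        induction k with
        | zero => intro _; right; rw [c.K0]; exact hcase
        | succ k ih =>
          intro hk
          rcases ih (by omega) with ⟨i, h5, h6⟩ | h5
          · exact Or.inl ⟨i, by omega, h6⟩
          · rcases ord_cases hθ.1 (c.Kreg (k+1)).ord with h6 | h6
            · exact Or.inl ⟨k, by omega, h5, h6⟩
            · exact Or.inr h6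
      rcases key m (le_refl m) with ⟨i, h5, h6, h7⟩ | h5
      · have h8 : Le X (g.j (c.K i)) := hXθ.trans (g.j_le (c.Kle i θ h7))
        have h9 : Le (g.j (c.K i)) X := (g.j_le (Le.of_sub h6)).trans hθX
        exact isSucc_pow h8 h9 (g.j_ord.2 (c.Kreg (i+1)).ord) (c.N_seg_K g i) (c.N_pow_K g hm h5)
      · have h8 : Le X (g.j (c.K m)) := hXθ.trans (c.N_seg_μ g _ (g.j_mem_j.2 hcase2))
        have h9 : Le (g.j (c.K m)) X := (g.j_le (Le.of_sub h5)).trans hθX
        exact isSucc_pow h8 h9 (g.j_ord.2 c.hm.reg.ord) (c.N_seg_μ g) (c.N_pow_κ g)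
    · -- above μ
      have hμθ : Le c.μ θ := Le.of_sub hcase2
      have hinf : Le (om M) θ := c.hm.reg.inf.trans hμθ
      obtain ⟨W, hW, h5, h6, _, _⟩ := exists_next (A := θ) hinf
      have h7 : Le (prodS (prodS c.P (c.R m)) θ) θ := prod_le hinf (prod_le hinf
        ((c.P_le.trans (Le.of_sub (ord_sub c.hm.reg.ord c.lam_lt_μ))).trans hμθ) ((c.R_le m).trans hμθ)) (Le.refl _)
      refine isSucc_pow hXθ hθX (g.j_ord.2 hW.ord) (fun x hx => ?_) (g.pow_le_all.trans (g.j_le ((le_pow h7).trans h6)))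
      obtain ⟨y, hy, rfl⟩ := g.mem_j.1 hx
      exact g.j_le (h5 y hy)

end

end Cfg

end Pool.Agent.Helper79.Kurepa
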