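import Pool.Agent.Helper79.ZF.Fun
import Pool.Agent.Helper79.ZF.OrdDef
import Pool.Agent.Helper79.Kurepa.Model

/-!
# Basic set theory inside a model of ZFC: injections, choice, ordinals
-/

namespace Pool.Agent.Helper79.Kurepa

open Pool.Agent.Helper79.ZF

section ZF
variable {M : Type} [Membership M M] [ZFModel M]
variable {α β γ : Type} [Ctx M α] [Ctx M β] [Ctx M γ]

omit [ZFModel M] in
@[fun_prop]
theorem MSub_def {f g : α → M} (hf : DefF M f) (hg : DefF M g) : DefP M (fun a => MSub (f a) (g a)) := by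
  unfold MSub; fun_prop

omit [ZFModel M] in
@[fun_prop]
theorem IsPair_def {f g h : α → M} (hf : DefF M f) (hg : DefF M g) (hh : DefF M h) :
    DefP M (fun a => IsPair (f a) (g a) (h a)) := by
  unfold IsPair; fun_prop

omit [ZFModel M] in
@[fun_prop]
theorem Le_def {f g : α → M} (hf : DefF M f) (hg : DefF M g) : DefP M (fun a => Le (f a) (g a)) := by
  unfold Le; fun_prop

omit [ZFModel M] in
@[fun_prop]
theorem IsOrd_def {f : α → M} (hf : DefF M f) : DefP M (fun a => IsOrd (f a)) := by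
  unfold IsOrd; fun_prop

theorem isPair_iff {p x y : M} : IsPair p x y ↔ p = opair x y := by
  have key : ∀ z x y : M, (∀ w : M, w ∈ z ↔ (w = x ∨ w = y)) ↔ z = upair x y := by
    intro z x y
    constructor
    · intro h; exact ext' (fun w => by rw [h, mem_upair])
    · rintro rfl w; exact mem_upair
  have key1 : ∀ z x : M, (∀ w : M, w ∈ z ↔ w = x) ↔ z = sing x := by
    intro z x
    constructor
    · intro h; exact ext' (fun w => by rw [h, mem_sing])
    · rintro rfl w; exact mem_sing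
  unfold IsPair
  constructor
  · intro h
    apply ext'
    intro z
    rw [h, key, key1]
    unfold opair
    rw [mem_upair]
  · rintro rfl z
    rw [key, key1]
    unfold opair
    rw [mem_upair]

theorem isInd_iff {I : M} : IsInd I ↔ Ind I := by
  unfold IsInd Ind
  have h1 : (∃ e : M, e ∈ I ∧ ∀ z : M, ¬ z ∈ e) ↔ (emp : M) ∈ I := by
    constructor
    · rintro ⟨e, he, h⟩
      have : e = emp := ext' (fun z => by simp [h])
      rwa [← this]
    · intro h; exact ⟨_, h, fun z => not_mem_emp z⟩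
  have h2 : ∀ y : M, (∃ z : M, z ∈ I ∧ ∀ w : M, w ∈ z ↔ (w ∈ y ∨ w = y)) ↔ suc y ∈ I := by
    intro y
    constructor
    · rintro ⟨e, he, h⟩
      have : e = suc y := ext' (fun z => by rw [h, mem_suc])
      rwa [← this]
    · intro h; exact ⟨_, h, fun z => mem_suc⟩
  rw [h1]
  simp only [h2]

theorem isOmega_iff {W : M} : IsOmega W ↔ W = om M := by
  unfold IsOmega
  constructor
  · rintro ⟨h1, h2⟩
    apply ext'
    intro z
    constructor
    · intro hz
      rw [mem_om]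
      intro I hI
      exact h2 I (isInd_iff.2 hI) z hz
    · intro hz
      exact mem_om.1 hz W (isInd_iff.1 h1)
  · rintro rfl
    refine ⟨isInd_iff.2 ⟨zero_mem_om, fun y hy => suc_mem_om hy⟩, fun I hI z hz => ?_⟩
    exact mem_om.1 hz I (isInd_iff.1 hI)

theorem isPow_iff {P X : M} : IsPow P X ↔ P = pow X := by
  unfold IsPow MSub
  constructor
  · intro h; exact ext' (fun z => by rw [h, mem_pow])
  · rintro rfl z; exact mem_pow

/-! ### injections -/

theorem le_iff {A B : M} : Le A B ↔ ∃ f : M, (∀ x : M, x ∈ A → ∃ y : M, y ∈ B ∧ opair x y ∈ f) ∧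
    (∀ x y z : M, opair x y ∈ f → opair x z ∈ f → y = z) ∧
    (∀ x y z : M, opair x z ∈ f → opair y z ∈ f → x = y) := by
  unfold Le
  constructor
  · rintro ⟨f, h1, h2, h3⟩
    refine ⟨f, fun x hx => ?_, fun x y z h h' => ?_, fun x y z h h' => ?_⟩
    · obtain ⟨y, hy, p, hp, hp'⟩ := h1 x hx
      rw [isPair_iff] at hp'
      subst hp'
      exact ⟨y, hy, hp⟩
    · exact h2 x y z _ _ h h' (isPair_iff.2 rfl) (isPair_iff.2 rfl)
    · exact h3 x y z _ _ h h' (isPair_iff.2 rfl) (isPair_iff.2 rfl)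
  · rintro ⟨f, h1, h2, h3⟩
    refine ⟨f, fun x hx => ?_, fun x y z p q h h' hp hq => ?_, fun x y z p q h h' hp hq => ?_⟩
    · obtain ⟨y, hy, hp⟩ := h1 x hx
      exact ⟨y, hy, _, hp, isPair_iff.2 rfl⟩
    · rw [isPair_iff] at hp hq
      subst hp hq
      exact h2 x y z h h'
    · rw [isPair_iff] at hp hq
      subst hp hq
      exact h3 x y z h h'

/-- a definable injection gives an inequality of cardinalities -/
theorem Le.of {A B : M} (F : M → M) (hF : DefF M F) (h1 : ∀ x : M, x ∈ A → F x ∈ B)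
    (h2 : ∀ x y : M, x ∈ A → y ∈ A → F x = F y → x = y) : Le A B := by
  rw [le_iff]
  refine ⟨lam A F, fun x hx => ⟨F x, h1 x hx, (mem_lam hF).2 ⟨x, hx, rfl⟩⟩, fun x y z h h' => ?_, fun x y z h h' => ?_⟩
  · obtain ⟨w, _, hw⟩ := (mem_lam hF).1 h
    obtain ⟨w', _, hw'⟩ := (mem_lam hF).1 h'
    rw [opair_inj] at hw hw'
    rw [hw.2, hw'.2, ← hw.1, ← hw'.1]
  · obtain ⟨w, hwA, hw⟩ := (mem_lam hF).1 h
    obtain ⟨w', hwA', hw'⟩ := (mem_lam hF).1 h'
    rw [opair_inj] at hw hw'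
    rw [hw.1, hw'.1]
    exact h2 w w' hwA hwA' (by rw [← hw.2, ← hw'.2])

theorem Le.fn {A B : M} (h : Le A B) : ∃ F : M → M, DefF M F ∧ (∀ x : M, x ∈ A → F x ∈ B) ∧
    ∀ x y : M, x ∈ A → y ∈ A → F x = F y → x = y := by
  obtain ⟨f, h1, h2, h3⟩ := le_iff.1 h
  have key : ∀ x y : M, opair x y ∈ f → app f x = y := fun x y hxy => app_eq hxy (fun y' hy' => h2 x y' y hy' hxy)
  refine ⟨app f, by fun_prop, fun x hx => ?_, fun x y hx hy hxy => ?_⟩
  · obtain ⟨y, hy, hxy⟩ := h1 x hx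
    rw [key x y hxy]; exact hy
  · obtain ⟨x', _, hx'⟩ := h1 x hx
    obtain ⟨y', _, hy'⟩ := h1 y hy
    rw [key _ _ hx', key _ _ hy'] at hxy
    subst hxy
    exact h3 x y x' hx' hy'

theorem Le.refl (A : M) : Le A A := Le.of (fun x => x) (by fun_prop) (fun x h => h) (fun x y _ _ h => h)

theorem Le.of_sub {A B : M} (h : MSub A B) : Le A B := Le.of (fun x => x) (by fun_prop) h (fun x y _ _ h => h)

theorem Le.trans {A B C : M} (h : Le A B) (h' : Le B C) : Le A C := by
  obtain ⟨F, hF, h1, h2⟩ := h.fn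
  obtain ⟨G, hG, h3, h4⟩ := h'.fn
  exact Le.of (fun x => G (F x)) (by fun_prop) (fun x hx => h3 _ (h1 x hx))
    (fun x y hx hy hxy => h2 x y hx hy (h4 _ _ (h1 x hx) (h1 y hy) hxy))

theorem le_prod {A B A' B' : M} (h : Le A A') (h' : Le B B') : Le (prodS A B) (prodS A' B') := by
  obtain ⟨F, hF, h1, h2⟩ := h.fn
  obtain ⟨G, hG, h3, h4⟩ := h'.fn
  refine Le.of (fun z => opair (F (fst z)) (G (snd z))) (by fun_prop) (fun z hz => ?_) (fun z w hz hw h => ?_)
  · obtain ⟨a, b, ha, hb, rfl⟩ := mem_prodS.1 hz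
    simp only [fst_opair, snd_opair, opair_mem_prodS]
    exact ⟨h1 a ha, h3 b hb⟩
  · obtain ⟨a, b, ha, hb, rfl⟩ := mem_prodS.1 hz
    obtain ⟨a', b', ha', hb', rfl⟩ := mem_prodS.1 hw
    simp only [fst_opair, snd_opair, opair_inj] at h ⊢
    exact ⟨h2 _ _ ha ha' h.1, h4 _ _ hb hb' h.2⟩

theorem le_pow {A B : M} (h : Le A B) : Le (pow A) (pow B) := by
  obtain ⟨F, hF, h1, h2⟩ := h.fn
  refine Le.of (fun z => repS z F) (by fun_prop) (fun z hz => ?_) (fun z w hz hw h => ?_)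
  · rw [mem_pow] at hz ⊢
    intro w hw
    obtain ⟨u, hu, rfl⟩ := (mem_repS hF).1 hw
    exact h1 u (hz u hu)
  · rw [mem_pow] at hz hw
    apply ext'
    intro u
    constructor
    · intro hu
      have : F u ∈ repS z F := (mem_repS hF).2 ⟨u, hu, rfl⟩
      rw [h] at this
      obtain ⟨v, hv, hv'⟩ := (mem_repS hF).1 this
      rw [h2 u v (hz u hu) (hw v hv) hv']
      exact hv
    · intro hu
      have : F u ∈ repS w F := (mem_repS hF).2 ⟨u, hu, rfl⟩
      rw [← h] at this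
      obtain ⟨v, hv, hv'⟩ := (mem_repS hF).1 this
      rw [h2 u v (hw u hu) (hz v hv) hv']
      exact hv

theorem le_pow_self (A : M) : Le A (pow A) := by
  refine Le.of (fun x => sing x) (by fun_prop) (fun x hx => ?_) (fun x y _ _ h => sing_inj h)
  rw [mem_pow]
  intro w hw
  rw [mem_sing] at hw; rw [hw]; exact hx

/-- Cantor -/
theorem cantor (A : M) : ¬ Le (pow A) A := by
  intro h
  obtain ⟨F, hF, h1, h2⟩ := h.fn
  let D : M := sepS A (fun x => ∃ y : M, y ∈ pow A ∧ x = F y ∧ ¬ x ∈ y)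
  have hD : ∀ z : M, z ∈ D ↔ (z ∈ A ∧ ∃ y : M, y ∈ pow A ∧ z = F y ∧ ¬ z ∈ y) := fun z => mem_sepS (by fun_prop)
  have hDA : D ∈ pow A := by
    rw [mem_pow]; intro w hw; exact ((hD w).1 hw).1
  have key : F D ∈ D ↔ ¬ F D ∈ D := by
    constructor
    · intro h5
      obtain ⟨_, y, hy, h3, h4⟩ := (hD _).1 h5
      have e : y = D := (h2 _ _ hDA hy h3).symm
      rwa [e] at h4
    · intro h5
      exact (hD _).2 ⟨h1 _ hDA, D, hDA, rfl, h5⟩
  tauto

/-- the empty set has the least cardinality -/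
theorem le_emp (A : M) : Le emp A := Le.of (fun x => x) (by fun_prop) (fun x h => absurd h (not_mem_emp x))
  (fun x y h _ _ => absurd h (not_mem_emp x))

/-! ### ordinals -/

theorem ord_mem {x y : M} (h : IsOrd x) (hy : y ∈ x) : IsOrd y :=
  ⟨fun z w hz hw => h.2 y hy z w hz hw, fun z hz u w hu hw => h.2 z (h.1 y z hy hz) u w hu hw⟩

theorem ord_trich (x : M) : ∀ y : M, IsOrd x → IsOrd y → x ∈ y ∨ x = y ∨ y ∈ x := by
  refine mem_induction (R := fun x => ∀ y : M, IsOrd x → IsOrd y → x ∈ y ∨ x = y ∨ y ∈ x) (by fun_prop) ?_ x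
  intro x ihx y
  refine mem_induction (R := fun y => IsOrd x → IsOrd y → x ∈ y ∨ x = y ∨ y ∈ x) (by fun_prop) ?_ y
  intro y ihy hx hy
  by_cases h1 : x ∈ y
  · exact Or.inl h1
  by_cases h2 : y ∈ x
  · exact Or.inr (Or.inr h2)
  right; left
  apply ext'
  intro z
  constructor
  · intro hz
    rcases ihx z hz y (ord_mem hx hz) hy with h | h | h
    · exact h
    · subst h; exact absurd hz h2
    · exact absurd (hx.1 z y hz h) h2
  · intro hz
    rcases ihy z hz hx (ord_mem hy hz) with h | h | h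
    · exact absurd (hy.1 z x hz h) h1
    · subst h; exact absurd hz h1
    · exact h

theorem ord_cases {x y : M} (hx : IsOrd x) (hy : IsOrd y) : x ∈ y ∨ MSub y x := by
  rcases ord_trich x y hx hy with h | h | h
  · exact Or.inl h
  · right; rw [h]; exact fun z h => h
  · right; exact fun z hz => hx.1 y z h hz

theorem ord_sub {x y : M} (hy : IsOrd y) (h : x ∈ y) : MSub x y := fun z hz => hy.1 x z h hz

theorem ord_emp : IsOrd (emp : M) := ⟨fun y z h _ => absurd h (not_mem_emp y), fun y h => absurd h (not_mem_emp y)⟩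

theorem ord_suc {x : M} (h : IsOrd x) : IsOrd (suc x) := by
  constructor
  · intro y z hy hz
    rw [mem_suc] at hy ⊢
    rcases hy with hy | rfl
    · exact Or.inl (h.1 y z hy hz)
    · exact Or.inl hz
  · intro y hy z w hz hw
    rw [mem_suc] at hy
    rcases hy with hy | rfl
    · exact h.2 y hy z w hz hw
    · exact h.1 z w hz hw

theorem ord_om : IsOrd (om M) := by
  have h : ∀ n : M, n ∈ om M → IsOrd n := fun n hn =>
    om_induction (R := IsOrd) (by fun_prop) ord_emp (fun n _ h => ord_suc h) hn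
  refine ⟨fun y z hy hz => ?_, fun y hy z w hz hw => (h y hy).1 z w hz hw⟩
  exact om_induction (R := fun n => ∀ z : M, z ∈ n → z ∈ om M) (by fun_prop)
    (fun z hz => absurd hz (not_mem_emp z)) (fun n hn ih z hz => by
      rcases mem_suc.1 hz with h | rfl
      · exact ih z h
      · exact hn) hy z hz

/-- the union of a set of ordinals is an ordinal -/
theorem ord_sU {x : M} (h : ∀ y : M, y ∈ x → IsOrd y) : IsOrd (sU x) := by
  constructor
  · intro y z hy hz
    obtain ⟨w, hw, hy⟩ := mem_sU.1 hy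
    exact mem_sU.2 ⟨w, hw, (h w hw).1 y z hy hz⟩
  · intro y hy z w hz hw
    obtain ⟨u, hu, hy⟩ := mem_sU.1 hy
    exact (h u hu).2 y hy z w hz hw

theorem ord_least {R : M → Prop} (hR : DefP M R) {x : M} (hx : IsOrd x) (h : R x) :
    ∃ y : M, IsOrd y ∧ R y ∧ (∀ z : M, z ∈ y → ¬ R z) ∧ (y = x ∨ y ∈ x) := by
  have : ∀ x : M, IsOrd x → R x → ∃ y : M, IsOrd y ∧ R y ∧ (∀ z : M, z ∈ y → ¬ R z) ∧ (y = x ∨ y ∈ x) := by
    refine mem_induction (R := fun x => IsOrd x → R x → ∃ y : M, IsOrd y ∧ R y ∧ (∀ z : M, z ∈ y → ¬ R z) ∧ (y = x ∨ y ∈ x))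
      (by fun_prop) ?_
    intro x ih hx h
    by_cases h1 : ∃ z : M, z ∈ x ∧ R z
    · obtain ⟨z, hz, hz'⟩ := h1
      obtain ⟨y, h2, h3, h4, h5⟩ := ih z hz (ord_mem hx hz) hz'
      refine ⟨y, h2, h3, h4, Or.inr ?_⟩
      rcases h5 with rfl | h5
      · exact hz
      · exact hx.1 z y hz h5
    · push Not at h1
      exact ⟨x, hx, h, h1, Or.inl rfl⟩
  exact this x hx h

/-- the least ordinal with a property, as a term -/
noncomputable def leastO (R : M → Prop) : M := theD (fun y => IsOrd y ∧ R y ∧ ∀ z : M, z ∈ y → ¬ R z)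

@[fun_prop]
theorem leastO_def {R : α → M → Prop} (hR : DefP M (fun p : α × M => R p.1 p.2)) : DefF M (fun a => leastO (R a)) := by
  unfold leastO; fun_prop

theorem leastO_spec {R : M → Prop} (hR : DefP M R) {x : M} (hx : IsOrd x) (h : R x) :
    IsOrd (leastO R) ∧ R (leastO R) ∧ (∀ z : M, z ∈ leastO R → ¬ R z) ∧ (leastO R = x ∨ leastO R ∈ x) := by
  obtain ⟨y, h1, h2, h3, h4⟩ := ord_least hR hx h
  have e : leastO R = y := by
    apply theD_eq ⟨h1, h2, h3⟩
    rintro y' ⟨h1', h2', h3'⟩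
    rcases ord_trich y' y h1' h1 with h5 | h5 | h5
    · exact absurd h2' (h3 _ h5)
    · exact h5
    · exact absurd h2 (h3' _ h5)
  rw [e]
  exact ⟨h1, h2, h3, h4⟩

theorem no_ord_set : ¬ ∃ x : M, ∀ y : M, IsOrd y → y ∈ x := by
  rintro ⟨x, hx⟩
  let O : M := sepS x IsOrd
  have hO : ∀ y : M, y ∈ O ↔ IsOrd y := fun y => by
    rw [mem_sepS (by fun_prop)]
    exact ⟨fun h => h.2, fun h => ⟨hx y h, h⟩⟩
  have h1 : IsOrd O := ⟨fun y z hy hz => (hO z).2 (ord_mem ((hO y).1 hy) hz), fun y hy z w hz hw => ((hO y).1 hy).1 z w hz hw⟩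
  exact mem_irrefl O ((hO O).2 h1)

end ZF

/-- models of ZFC -/
class ZFCM (M : Type) [Membership M M] : Prop extends ZFModel M where
  ac : AC M

section ZFC
variable {M : Type} [Membership M M] [ZFCM M]
variable {α β γ : Type} [Ctx M α] [Ctx M β] [Ctx M γ]

/-- choice for definable relations -/
theorem choice {R : M → M → Prop} (hR : DefP M (fun p : M × M => R p.1 p.2)) (A : M)
    (h : ∀ x : M, x ∈ A → ∃ y : M, R x y) : ∃ F : M → M, DefF M F ∧ ∀ x : M, x ∈ A → R x (F x) := by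
  obtain ⟨b, hb⟩ := collection hR A
  let S : M → M := fun x => sepS b (R x)
  have hS : DefF M S := by simp only [S]; fun_prop
  have hRx : ∀ x, DefP M (R x) := fun x => hR.fix x
  have mS : ∀ x y : M, y ∈ S x ↔ (y ∈ b ∧ R x y) := fun x y => mem_sepS (hRx x)
  obtain ⟨f, hf⟩ := ZFCM.ac (M := M) (repS A S) (by
    intro y hy
    obtain ⟨x, hx, rfl⟩ := (mem_repS hS).1 hy
    obtain ⟨z, hz, hz'⟩ := hb x hx (h x hx)
    exact ⟨z, (mS x z).2 ⟨hz, hz'⟩⟩)
  refine ⟨fun x => app f (S x), by fun_prop, fun x hx => ?_⟩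
  obtain ⟨z, hz, hz'⟩ := hf (S x) ((mem_repS hS).2 ⟨x, hx, rfl⟩)
  have : app f (S x) = z := app_eq ((hz' z _ (isPair_iff.2 rfl)).2 rfl) (fun y' hy' => (hz' y' _ (isPair_iff.2 rfl)).1 hy')
  show R x (app f (S x))
  rw [this]
  exact ((mS x z).1 hz).2

/-- the image of a set is not larger than the set -/
theorem le_image {A B : M} {F : M → M} (hF : DefF M F) (h : ∀ y : M, y ∈ B → ∃ x : M, x ∈ A ∧ F x = y) : Le B A := by
  obtain ⟨G, hG, h1⟩ := choice (R := fun y x => x ∈ A ∧ F x = y) (by fun_prop) B h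
  refine Le.of G hG (fun x hx => (h1 x hx).1) (fun x y hx hy hxy => ?_)
  rw [← (h1 x hx).2, ← (h1 y hy).2, hxy]

theorem le_repS {A : M} {F : M → M} (hF : DefF M F) : Le (repS A F) A :=
  le_image hF (fun y hy => by
    obtain ⟨x, hx, h⟩ := (mem_repS hF).1 hy
    exact ⟨x, hx, h.symm⟩)

/-- every set is in bijection with an ordinal -/
theorem exists_ord (A : M) : ∃ x : M, IsOrd x ∧ ∃ F : M → M, DefF M F ∧ (∀ y : M, y ∈ x → F y ∈ A) ∧
    (∀ y z : M, y ∈ x → z ∈ x → F y = F z → y = z) ∧ ∀ a : M, a ∈ A → ∃ y : M, y ∈ x ∧ F y = a := by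
  -- choice function on nonempty subsets of `A`
  obtain ⟨c, hc, hc'⟩ := choice (R := fun s z => z ∈ s ∨ (∀ w : M, ¬ w ∈ s)) (by fun_prop) (pow A) (by
    intro x _
    by_cases h : ∃ w : M, w ∈ x
    · obtain ⟨w, hw⟩ := h; exact ⟨w, Or.inl hw⟩
    · push Not at h; exact ⟨emp, Or.inr h⟩)
  let G : M → M → M := fun x f => c (sepS A (fun a => ¬ ∃ y : M, y ∈ x ∧ app f y = a))
  have hG : DefF M (fun p : M × M => G p.1 p.2) := by simp only [G]; fun_prop
  let F : M → M := memRec G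
  have hF : DefF M F := by simp only [F]; fun_prop
  let R : M → M := fun x => sepS A (fun a => ¬ ∃ y : M, y ∈ x ∧ F y = a)
  have mR : ∀ x a : M, a ∈ R x ↔ (a ∈ A ∧ ¬ ∃ y : M, y ∈ x ∧ F y = a) := fun x a => mem_sepS (by fun_prop)
  have hR : DefF M R := by simp only [R]; fun_prop
  have hrec : ∀ x : M, F x = c (R x) := by
    intro x
    show memRec G x = _
    rw [memRec_eq hG]
    show c _ = c _
    congr 1
    apply ext'
    intro a
    rw [mR, mem_sepS (by fun_prop)]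
    refine and_congr Iff.rfl (not_congr ?_)
    constructor
    · rintro ⟨y, hy, h⟩; exact ⟨y, hy, by rw [← h]; exact (app_lam hF hy).symm⟩
    · rintro ⟨y, hy, h⟩; exact ⟨y, hy, by rw [← h]; exact app_lam hF hy⟩
  have hne : ∀ x a : M, a ∈ R x → F x ∈ R x := by
    intro x a ha
    rw [hrec]
    rcases hc' (R x) (by rw [mem_pow]; intro w hw; exact ((mR x w).1 hw).1) with h | h
    · exact h
    · exact absurd ha (h a)
  -- some ordinal exhausts `A`
  have hex : ∃ x : M, IsOrd x ∧ ∀ a : M, ¬ a ∈ R x := by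
    by_contra hcon
    push Not at hcon
    have h1 : ∀ x : M, IsOrd x → F x ∈ R x := fun x hx => by
      obtain ⟨a, ha⟩ := hcon x hx
      exact hne x a ha
    have h2 : ∀ x y : M, IsOrd x → IsOrd y → F x = F y → x = y := by
      intro x y hx hy h
      rcases ord_trich x y hx hy with h3 | h3 | h3
      · exact absurd ⟨x, h3, h⟩ ((mR y (F y)).1 (h1 y hy)).2
      · exact h3
      · exact absurd ⟨y, h3, h.symm⟩ ((mR x (F x)).1 (h1 x hx)).2
    apply no_ord_set (M := M)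
    refine ⟨repS A (fun a => theD (fun x => IsOrd x ∧ F x = a)), fun y hy => ?_⟩
    rw [mem_repS (by fun_prop)]
    refine ⟨F y, ((mR y (F y)).1 (h1 y hy)).1, ?_⟩
    symm
    apply theD_eq (R := fun x => IsOrd x ∧ F x = F y) ⟨hy, rfl⟩
    rintro y' ⟨h3, h4⟩
    exact h2 y' y h3 hy h4
  obtain ⟨x0, hx0, hx0'⟩ := hex
  obtain ⟨x, hx, h1, h2, _⟩ := ord_least (R := fun x => ∀ a : M, ¬ a ∈ R x) (by fun_prop) hx0 hx0'
  have h3 : ∀ y : M, y ∈ x → F y ∈ R y := by
    intro y hy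
    have := h2 y hy
    push Not at this
    obtain ⟨a, ha⟩ := this
    exact hne y a ha
  refine ⟨x, hx, F, hF, fun y hy => ((mR _ _).1 (h3 y hy)).1, fun y z hy hz h => ?_, fun a ha => ?_⟩
  · rcases ord_trich y z (ord_mem hx hy) (ord_mem hx hz) with h4 | h4 | h4
    · exact absurd ⟨y, h4, h⟩ ((mR z (F z)).1 (h3 z hz)).2
    · exact h4
    · exact absurd ⟨z, h4, h.symm⟩ ((mR y (F y)).1 (h3 y hy)).2
  · by_contra h4
    exact h1 a ((mR x a).2 ⟨ha, h4⟩)

/-- initial ordinals -/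
def IsCard (x : M) : Prop := IsOrd x ∧ ∀ y : M, y ∈ x → ¬ Le x y

omit [ZFCM M] in
@[fun_prop]
theorem IsCard_def {f : α → M} (hf : DefF M f) : DefP M (fun a => IsCard (f a)) := by
  unfold IsCard; fun_prop

/-- every set has the cardinality of an initial ordinal -/
theorem exists_card (A : M) : ∃ x : M, IsCard x ∧ Le A x ∧ Le x A := by
  obtain ⟨x0, hx0, F, hF, h1, h2, h3⟩ := exists_ord A
  have h4 : Le x0 A := Le.of F hF h1 h2
  have h5 : Le A x0 := le_image hF h3
  obtain ⟨x, hx, h6, h7, h8⟩ := ord_least (R := fun x => Le A x) (by fun_prop) hx0 h5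
  refine ⟨x, ⟨hx, fun y hy h => h7 y hy (h6.trans h)⟩, h6, ?_⟩
  rcases h8 with rfl | h8
  · exact h4
  · exact (Le.of_sub (ord_sub hx0 h8)).trans h4

/-- comparability of cardinalities -/
theorem le_total' (A B : M) : Le A B ∨ Le B A := by
  obtain ⟨x, hx, h1, h2⟩ := exists_card A
  obtain ⟨y, hy, h3, h4⟩ := exists_card B
  rcases ord_cases hx.1 hy.1 with h | h
  · exact Or.inl (h1.trans ((Le.of_sub (ord_sub hy.1 h)).trans h4))
  · exact Or.inr (h3.trans ((Le.of_sub h).trans h2))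

theorem le_of_not {A B : M} (h : ¬ Le A B) : Le B A := (le_total' A B).resolve_left h

/-- a set smaller than a cardinal injects into one of its elements -/
theorem exists_mem_le {κ A : M} (hκ : IsOrd κ) (h : ¬ Le κ A) : ∃ y : M, y ∈ κ ∧ IsCard y ∧ Le A y ∧ Le y A := by
  obtain ⟨x, hx, h1, h2⟩ := exists_card A
  rcases ord_cases hx.1 hκ with h3 | h3
  · exact ⟨x, h3, hx, h1, h2⟩
  · exact absurd ((Le.of_sub h3).trans h2) h

end ZFC

end Pool.Agent.Helper79.Kurepa
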