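import Pool.Agent.Helper79.Kurepa.Base

/-!
# Cardinal arithmetic inside a model of ZFC
-/

namespace Pool.Agent.Helper79.Kurepa

open Pool.Agent.Helper79.ZF

section ZF
variable {M : Type} [Membership M M] [ZFModel M]
variable {α β γ : Type} [Ctx M α] [Ctx M β] [Ctx M γ]

/-- no natural number is infinite -/
theorem not_om_le_nat {n : M} (hn : n ∈ om M) : ¬ Le (om M) n := by
  classical
  refine om_induction (R := fun n => ¬ Le (om M) n) (by fun_prop) ?_ ?_ hn
  · intro h
    obtain ⟨F, hF, h1, _⟩ := h.fn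
    exact not_mem_emp _ (h1 _ zero_mem_om)
  · intro n hn ih h
    apply ih
    obtain ⟨F, hF, h1, h2⟩ := h.fn
    by_cases hex : ∃ a : M, a ∈ om M ∧ F a = n
    · obtain ⟨a, ha, hFa⟩ := hex
      let G : M → M := fun k => if k ∈ a then k else suc k
      have hG : DefF M G := DefF.cond (by fun_prop) (by fun_prop) (by fun_prop)
      have hoa : IsOrd a := ord_mem ord_om ha
      have hGk : ∀ k : M, k ∈ om M → G k ∈ om M ∧ G k ≠ a := by
        intro k hk
        simp only [G]
        by_cases hka : k ∈ a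
        · simp only [hka, if_true]
          exact ⟨hk, fun h => by rw [h] at hka; exact mem_irrefl a hka⟩
        · simp only [hka, if_false]
          refine ⟨suc_mem_om hk, fun h => hka ?_⟩
          rw [← h]; exact mem_suc.2 (Or.inr rfl)
      refine Le.of (fun k => F (G k)) (by fun_prop) (fun k hk => ?_) (fun k l hk hl h => ?_)
      · rcases mem_suc.1 (h1 _ (hGk k hk).1) with h3 | h3
        · exact h3
        · exact absurd (h2 _ _ (hGk k hk).1 ha (h3.trans hFa.symm)) (hGk k hk).2
      · have h3 := h2 _ _ (hGk k hk).1 (hGk l hl).1 h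
        simp only [G] at h3
        have hok := ord_mem ord_om hk
        have hol := ord_mem ord_om hl
        by_cases hka : k ∈ a <;> by_cases hla : l ∈ a <;> simp only [hka, hla, if_true, if_false] at h3
        · exact h3
        · exfalso
          apply hla
          have : l ∈ k := by rw [h3]; exact mem_suc.2 (Or.inr rfl)
          exact hoa.1 k l hka this
        · exfalso
          apply hka
          have : k ∈ l := by rw [← h3]; exact mem_suc.2 (Or.inr rfl)
          exact hoa.1 l k hla this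
        · exact suc_inj h3
    · push Not at hex
      refine Le.of F hF (fun k hk => ?_) h2
      rcases mem_suc.1 (h1 k hk) with h3 | h3
      · exact h3
      · exact absurd h3 (hex k hk)

/-- the maximum of two ordinals -/
theorem ord_cup_mem {κ x y : M} (hκ : IsOrd κ) (hx : x ∈ κ) (hy : y ∈ κ) : cup x y ∈ κ := by
  rcases ord_cases (ord_mem hκ hx) (ord_mem hκ hy) with h | h
  · have : cup x y = y := ext' (fun z => by
      rw [mem_cup]
      exact ⟨fun h' => h'.elim (fun h' => ord_sub (ord_mem hκ hy) h z h') id, Or.inr⟩)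
    rw [this]; exact hy
  · have : cup x y = x := ext' (fun z => by
      rw [mem_cup]
      exact ⟨fun h' => h'.elim id (fun h' => h z h'), Or.inl⟩)
    rw [this]; exact hx

theorem finite_bdd {n : M} (hn : n ∈ om M) : ∀ S : M, MSub S (om M) → Le S n → ∃ b : M, b ∈ om M ∧ ∀ y : M, y ∈ S → y ∈ b := by
  refine om_induction (R := fun n => ∀ S : M, MSub S (om M) → Le S n → ∃ b : M, b ∈ om M ∧ ∀ y : M, y ∈ S → y ∈ b)
    (by fun_prop) ?_ ?_ hn
  · intro S _ h
    obtain ⟨F, hF, h1, _⟩ := h.fn
    exact ⟨emp, zero_mem_om, fun y hy => absurd (h1 y hy) (not_mem_emp _)⟩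
  · intro n hn ih S hS h
    obtain ⟨F, hF, h1, h2⟩ := h.fn
    obtain ⟨b, hb, hb'⟩ := ih (sepS S (fun y => F y ≠ n)) (fun z hz => hS z ((mem_sepS (by fun_prop)).1 hz).1) (by
      refine Le.of F hF (fun y hy => ?_) (fun y z hy hz hyz => ?_)
      · rw [mem_sepS (by fun_prop)] at hy
        exact (mem_suc.1 (h1 y hy.1)).resolve_right hy.2
      · rw [mem_sepS (by fun_prop)] at hy hz
        exact h2 y z hy.1 hz.1 hyz)
    by_cases hex : ∃ a : M, a ∈ S ∧ F a = n
    · obtain ⟨a, ha, hFa⟩ := hex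
      refine ⟨cup b (suc a), ord_cup_mem ord_om hb (suc_mem_om (hS a ha)), fun y hy => ?_⟩
      rw [mem_cup, mem_suc]
      by_cases hy' : F y = n
      · exact Or.inr (Or.inr (h2 _ _ hy ha (hy'.trans hFa.symm)))
      · exact Or.inl (hb' y ((mem_sepS (by fun_prop)).2 ⟨hy, hy'⟩))
    · push Not at hex
      exact ⟨b, hb, fun y hy => hb' y ((mem_sepS (by fun_prop)).2 ⟨hy, hex y hy⟩)⟩

/-- regular cardinals -/
structure IsReg (κ : M) : Prop where
  ord : IsOrd κ
  zero : emp ∈ κ
  succ : ∀ x : M, x ∈ κ → suc x ∈ κ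
  init : ∀ x : M, x ∈ κ → ¬ Le κ x
  reg : ∀ S : M, MSub S κ → (∀ x : M, x ∈ κ → ∃ y : M, y ∈ S ∧ x ∈ y) → Le κ S

/-- maximum of the coordinates of a pair -/
noncomputable def mx (z : M) : M := cup (fst z) (snd z)

@[fun_prop]
theorem mx_def {f : α → M} (hf : DefF M f) : DefF M (fun a => mx (f a)) := by unfold mx; fun_prop

/-- the canonical well-ordering of pairs -/
def plt (w z : M) : Prop := mx w ∈ mx z ∨ (mx w = mx z ∧ (fst w ∈ fst z ∨ (fst w = fst z ∧ snd w ∈ snd z)))

@[fun_prop]
theorem plt_def {f g : α → M} (hf : DefF M f) (hg : DefF M g) : DefP M (fun a => plt (f a) (g a)) := by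
  unfold plt; fun_prop

/-- predecessors in the canonical well-ordering -/
noncomputable def ppr (z : M) : M := sepS (prodS (suc (mx z)) (suc (mx z))) (fun w => plt w z)

@[fun_prop]
theorem ppr_def {f : α → M} (hf : DefF M f) : DefF M (fun a => ppr (f a)) := by unfold ppr; fun_prop

theorem ppr_ind (Q : M → Prop) (hQ : DefP M Q) (h : ∀ x : M, (∀ y : M, y ∈ ppr x → Q y) → Q x) (x : M) : Q x := by
  have key : ∀ m : M, ∀ z : M, mx z = m → Q z := by
    intro m
    refine mem_induction (R := fun m => ∀ z : M, mx z = m → Q z) (by fun_prop) ?_ m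
    intro m ihm
    have key2 : ∀ a : M, ∀ z : M, mx z = m → fst z = a → Q z := by
      intro a
      refine mem_induction (R := fun a => ∀ z : M, mx z = m → fst z = a → Q z) (by fun_prop) ?_ a
      intro a iha
      have key3 : ∀ b : M, ∀ z : M, mx z = m → fst z = a → snd z = b → Q z := by
        intro b
        refine mem_induction (R := fun b => ∀ z : M, mx z = m → fst z = a → snd z = b → Q z) (by fun_prop) ?_ b
        intro b ihb z h1 h2 h3
        apply h
        intro y hy
        unfold ppr at hy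
        rw [mem_sepS (by fun_prop)] at hy
        rcases hy.2 with h4 | ⟨h4, h5 | ⟨h5, h6⟩⟩
        · exact ihm _ (by rw [← h1]; exact h4) y rfl
        · exact iha _ (by rw [← h2]; exact h5) y (h4.trans h1) rfl
        · exact ihb _ (by rw [← h3]; exact h6) y (h4.trans h1) (h5.trans h2) rfl
      exact fun z h1 h2 => key3 _ z h1 h2 rfl
    exact fun z h1 => key2 _ z h1 rfl
  exact key _ x rfl

end ZF

section ZFC
variable {M : Type} [Membership M M] [ZFCM M]
variable {α β γ : Type} [Ctx M α] [Ctx M β] [Ctx M γ]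

/-- a well-ordered set all of whose initial segments are smaller than `κ` injects into `κ` -/
theorem wo_le {W κ : M} {pr : M → M} (hpr : DefF M pr) (hκ : IsOrd κ)
    (hind : ∀ Q : M → Prop, DefP M Q → (∀ x : M, (∀ y : M, y ∈ pr x → Q y) → Q x) → ∀ x, Q x)
    (htot : ∀ x y : M, x ∈ W → y ∈ W → x ≠ y → x ∈ pr y ∨ y ∈ pr x) (hsm : ∀ x : M, x ∈ W → ¬ Le κ (pr x)) : Le W κ := by
  let G : M → M → M := fun x h => leastO (fun a => a ∈ κ ∧ ¬ ∃ y : M, y ∈ pr x ∧ app h y = a)
  have hG : DefF M (fun p : M × M => G p.1 p.2) := by simp only [G]; fun_prop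
  let F : M → M := recF pr G
  have hF : DefF M F := by simp only [F]; fun_prop
  have hrec : ∀ x : M, F x = leastO (fun a => a ∈ κ ∧ ¬ ∃ y : M, y ∈ pr x ∧ F y = a) := by
    intro x
    show recF pr G x = _
    rw [recF_eq hpr hG hind]
    show leastO _ = leastO _
    congr 1
    funext a
    apply propext
    refine and_congr Iff.rfl (not_congr ?_)
    constructor
    · rintro ⟨y, hy, h⟩; exact ⟨y, hy, by rw [← h]; exact (app_lam hF hy).symm⟩
    · rintro ⟨y, hy, h⟩; exact ⟨y, hy, by rw [← h]; exact app_lam hF hy⟩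
  have hspec : ∀ x : M, x ∈ W → F x ∈ κ ∧ ¬ ∃ y : M, y ∈ pr x ∧ F y = F x := by
    intro x hx
    have hex : ∃ a : M, a ∈ κ ∧ ¬ ∃ y : M, y ∈ pr x ∧ F y = a := by
      by_contra hcon
      push Not at hcon
      exact hsm x hx (le_image hF hcon)
    obtain ⟨a, ha⟩ := hex
    have := (leastO_spec (R := fun a => a ∈ κ ∧ ¬ ∃ y : M, y ∈ pr x ∧ F y = a) (by fun_prop) (ord_mem hκ ha.1) ha).2.1
    rw [← hrec] at this
    exact this
  refine Le.of F hF (fun x hx => (hspec x hx).1) (fun x y hx hy h => ?_)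
  by_contra hne
  rcases htot x y hx hy hne with h1 | h1
  · exact (hspec y hy).2 ⟨x, h1, h⟩
  · exact (hspec x hx).2 ⟨y, h1, h.symm⟩

theorem isReg_om : IsReg (om M) where
  ord := ord_om
  zero := zero_mem_om
  succ := fun x hx => suc_mem_om hx
  init := fun x hx => not_om_le_nat hx
  reg := fun S hS h => by
    by_contra hcon
    obtain ⟨n, hn, _, h1, _⟩ := exists_mem_le ord_om hcon
    obtain ⟨b, hb, hb'⟩ := finite_bdd hn S hS h1
    obtain ⟨y, hy, hy'⟩ := h b hb
    exact mem_asymm hy' (hb' y hy)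

/-- a small union of small sets is small -/
theorem IsReg.union {κ I : M} (hκ : IsReg κ) (hI : ¬ Le κ I) {F : M → M} (hF : DefF M F)
    (h : ∀ i : M, i ∈ I → ¬ Le κ (F i)) : ¬ Le κ (sU (repS I F)) := by
  intro hle
  obtain ⟨f, hf, h1, h2⟩ := hle.fn
  have hb : ∀ i : M, i ∈ I → ∃ b : M, b ∈ κ ∧ ∀ y : M, y ∈ κ → f y ∈ F i → ¬ b ∈ y := by
    intro i hi
    by_contra hcon
    push Not at hcon
    apply h i hi
    have h3 : Le κ (sepS κ (fun y => f y ∈ F i)) := by
      apply hκ.reg
      · intro z hz; exact ((mem_sepS (by fun_prop)).1 hz).1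
      · intro x hx
        obtain ⟨y, hy, hy', hy''⟩ := hcon x hx
        exact ⟨y, (mem_sepS (by fun_prop)).2 ⟨hy, hy'⟩, hy''⟩
    refine h3.trans (Le.of f hf (fun x hx => ((mem_sepS (by fun_prop)).1 hx).2) (fun x y hx hy hxy => ?_))
    exact h2 x y ((mem_sepS (by fun_prop)).1 hx).1 ((mem_sepS (by fun_prop)).1 hy).1 hxy
  obtain ⟨b, hbd, hb'⟩ := choice (R := fun i b => b ∈ κ ∧ ∀ y : M, y ∈ κ → f y ∈ F i → ¬ b ∈ y) (by fun_prop) I hb
  have h3 : Le κ (repS I b) := by
    apply hκ.reg
    · intro z hz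
      obtain ⟨i, hi, rfl⟩ := (mem_repS hbd).1 hz
      exact (hb' i hi).1
    · intro x hx
      have hsx := hκ.succ x hx
      obtain ⟨w, hw, hw'⟩ := mem_sU.1 (h1 _ hsx)
      obtain ⟨i, hi, rfl⟩ := (mem_repS hF).1 hw
      refine ⟨b i, (mem_repS hbd).2 ⟨i, hi, rfl⟩, ?_⟩
      have h4 := (hb' i hi).2 _ hsx hw'
      rcases ord_cases (ord_mem hκ.ord (hb' i hi).1) (ord_mem hκ.ord hsx) with h5 | h5
      · exact absurd h5 h4
      · exact h5 x (mem_suc.2 (Or.inr rfl))
  exact hI (h3.trans (le_repS hbd))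

theorem IsReg.prod {κ A B : M} (hκ : IsReg κ) (hA : ¬ Le κ A) (hB : ¬ Le κ B) : ¬ Le κ (prodS A B) := by
  unfold prodS
  apply hκ.union hA (by fun_prop)
  intro i _ h
  exact hB (h.trans (le_repS (by fun_prop)))

/-- an infinite cardinal is a limit ordinal -/
theorem card_succ {κ : M} (hκ : IsCard κ) (h : MSub (om M) κ) {m : M} (hm : m ∈ κ) : suc m ∈ κ := by
  classical
  rcases ord_cases (ord_suc (ord_mem hκ.1 hm)) hκ.1 with h1 | h1
  · exact h1
  · exfalso
    have hom : IsOrd m := ord_mem hκ.1 hm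
    rcases ord_cases hom ord_om with h2 | h2
    · have h3 := h _ (suc_mem_om h2)
      exact mem_irrefl _ (h1 _ h3)
    · apply hκ.2 m hm
      let F : M → M := fun x => if x = m then emp else if x ∈ om M then suc x else x
      have hF : DefF M F := DefF.cond (by fun_prop) (by fun_prop) (DefF.cond (by fun_prop) (by fun_prop) (by fun_prop))
      have hmo : ¬ m ∈ om M := fun h3 => mem_irrefl m (h2 m h3)
      refine Le.of F hF (fun x hx => ?_) (fun x y hx hy hxy => ?_)
      · simp only [F]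
        by_cases hx1 : x = m
        · simp only [hx1, if_true]; exact h2 _ zero_mem_om
        · have hxm : x ∈ m := (mem_suc.1 (h1 x hx)).resolve_right hx1
          by_cases hx2 : x ∈ om M
          · simp only [hx1, hx2, if_true, if_false]; exact h2 _ (suc_mem_om hx2)
          · simp only [hx1, hx2, if_false]; exact hxm
      · simp only [F] at hxy
        by_cases hx1 : x = m <;> by_cases hy1 : y = m
        · rw [hx1, hy1]
        · exfalso
          by_cases hy2 : y ∈ om M
          · simp only [hx1, hy1, hy2, if_true, if_false] at hxy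
            exact suc_ne_emp _ hxy.symm
          · simp only [hx1, hy1, hy2, if_true, if_false] at hxy
            rw [← hxy] at hy2; exact hy2 zero_mem_om
        · exfalso
          by_cases hx2 : x ∈ om M
          · simp only [hx1, hy1, hx2, if_true, if_false] at hxy
            exact suc_ne_emp _ hxy
          · simp only [hx1, hy1, hx2, if_true, if_false] at hxy
            rw [hxy] at hx2; exact hx2 zero_mem_om
        · by_cases hx2 : x ∈ om M <;> by_cases hy2 : y ∈ om M <;>
            simp only [hx1, hy1, hx2, hy2, if_true, if_false] at hxy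
          · exact suc_inj hxy
          · rw [← hxy] at hy2; exact absurd (suc_mem_om hx2) hy2
          · rw [hxy] at hx2; exact absurd (suc_mem_om hy2) hx2
          · exact hxy

/-- an initial ordinal that is infinite contains the natural numbers -/
theorem om_sub_of_le {x : M} (hx : IsOrd x) (h : Le (om M) x) : MSub (om M) x := by
  rcases ord_cases hx ord_om with h1 | h1
  · exact absurd h (not_om_le_nat h1)
  · exact h1

theorem hess_aux (κ : M) : IsCard κ → MSub (om M) κ → Le (prodS κ κ) κ := by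
  refine mem_induction (R := fun κ => IsCard κ → MSub (om M) κ → Le (prodS κ κ) κ) (by fun_prop) ?_ κ
  intro κ ih hκ hω
  apply wo_le (pr := ppr) (by fun_prop) hκ.1 ppr_ind
  · intro x y hx hy hne
    obtain ⟨a, b, ha, hb, rfl⟩ := mem_prodS.1 hx
    obtain ⟨c, d, hc, hd, rfl⟩ := mem_prodS.1 hy
    have hoa := ord_mem hκ.1 ha
    have hob := ord_mem hκ.1 hb
    have hoc := ord_mem hκ.1 hc
    have hod := ord_mem hκ.1 hd
    have hm1 : IsOrd (mx (opair a b)) := ord_mem hκ.1 (by unfold mx; rw [fst_opair, snd_opair]; exact ord_cup_mem hκ.1 ha hb)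
    have hm2 : IsOrd (mx (opair c d)) := ord_mem hκ.1 (by unfold mx; rw [fst_opair, snd_opair]; exact ord_cup_mem hκ.1 hc hd)
    -- membership in the product follows from `plt`
    have sub1 : ∀ a b : M, MSub a (mx (opair a b)) := fun a b z hz => by unfold mx; rw [fst_opair, snd_opair, mem_cup]; exact Or.inl hz
    have sub2 : ∀ a b : M, MSub b (mx (opair a b)) := fun a b z hz => by unfold mx; rw [fst_opair, snd_opair, mem_cup]; exact Or.inr hz
    have key : ∀ e m : M, IsOrd e → IsOrd m → MSub e m → e ∈ suc m := by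
      intro e m he hm hs
      rcases ord_trich e m he hm with h | h | h
      · exact mem_suc.2 (Or.inl h)
      · exact mem_suc.2 (Or.inr h)
      · exact absurd (hs m h) (mem_irrefl m)
    have pltmem : ∀ a b c d : M, IsOrd a → IsOrd b → IsOrd (mx (opair a b)) → IsOrd (mx (opair c d)) →
        plt (opair a b) (opair c d) → opair a b ∈ ppr (opair c d) := by
      intro a b c d ha hb hab hcd h
      unfold ppr
      rw [mem_sepS (by fun_prop)]
      refine ⟨?_, h⟩
      have hs : MSub (mx (opair a b)) (mx (opair c d)) := by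
        rcases h with h | ⟨h, _⟩
        · exact ord_sub hcd h
        · rw [h]; exact fun z h => h
      rw [opair_mem_prodS]
      exact ⟨key _ _ ha hcd (fun z hz => hs z (sub1 a b z hz)), key _ _ hb hcd (fun z hz => hs z (sub2 a b z hz))⟩
    rcases ord_trich _ _ hm1 hm2 with h | h | h
    · exact Or.inl (pltmem a b c d hoa hob hm1 hm2 (Or.inl h))
    · rcases ord_trich a c hoa hoc with h1 | h1 | h1
      · exact Or.inl (pltmem a b c d hoa hob hm1 hm2 (Or.inr ⟨h, Or.inl (by rw [fst_opair, fst_opair]; exact h1)⟩))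
      · rcases ord_trich b d hob hod with h2 | h2 | h2
        · exact Or.inl (pltmem a b c d hoa hob hm1 hm2 (Or.inr ⟨h, Or.inr ⟨by rw [fst_opair, fst_opair]; exact h1,
            by rw [snd_opair, snd_opair]; exact h2⟩⟩))
        · exact absurd (by rw [h1, h2]) hne
        · exact Or.inr (pltmem c d a b hoc hod hm2 hm1 (Or.inr ⟨h.symm, Or.inr ⟨by rw [fst_opair, fst_opair]; exact h1.symm,
            by rw [snd_opair, snd_opair]; exact h2⟩⟩))
      · exact Or.inr (pltmem c d a b hoc hod hm2 hm1 (Or.inr ⟨h.symm, Or.inl (by rw [fst_opair, fst_opair]; exact h1)⟩))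
    · exact Or.inr (pltmem c d a b hoc hod hm2 hm1 (Or.inl h))
  · intro x hx hle
    obtain ⟨a, b, ha, hb, rfl⟩ := mem_prodS.1 hx
    have hm : mx (opair a b) ∈ κ := by unfold mx; rw [fst_opair, snd_opair]; exact ord_cup_mem hκ.1 ha hb
    have hsm := card_succ hκ hω hm
    have h1 : Le κ (prodS (suc (mx (opair a b))) (suc (mx (opair a b)))) :=
      hle.trans (Le.of_sub (fun z hz => by unfold ppr at hz; exact ((mem_sepS (by fun_prop)).1 hz).1))
    generalize suc (mx (opair a b)) = s at hsm h1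
    rcases ord_cases hκ.1 ord_om with h2 | h2
    · exact absurd (hω κ h2) (mem_irrefl κ)
    · by_cases h3 : om M ∈ κ
      · have hA := ord_cup_mem hκ.1 hsm h3
        obtain ⟨θ, hθ, h4, h5⟩ := exists_card (cup s (om M))
        have h6 : θ ∈ κ := by
          rcases ord_cases hθ.1 hκ.1 with h | h
          · exact h
          · exact absurd ((Le.of_sub h).trans h5) (hκ.2 _ hA)
        have h7 : Le (om M) θ := (Le.of_sub (fun z hz => mem_cup.2 (Or.inr hz))).trans h4
        have h8 := ih θ h6 hθ (om_sub_of_le hθ.1 h7)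
        have h9 : Le s θ := (Le.of_sub (fun z hz => mem_cup.2 (Or.inl hz))).trans h4
        exact hκ.2 θ h6 (h1.trans ((le_prod h9 h9).trans h8))
      · have h4 : κ = om M := by
          rcases ord_trich κ (om M) hκ.1 ord_om with h | h | h
          · exact absurd (hω κ h) (mem_irrefl κ)
          · exact h
          · exact absurd h h3
        subst h4
        exact (isReg_om.prod (not_om_le_nat hsm) (not_om_le_nat hsm)) h1

/-- Hessenberg's theorem -/
theorem le_sq {A : M} (h : Le (om M) A) : Le (prodS A A) A := by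
  obtain ⟨x, hx, h1, h2⟩ := exists_card A
  have h3 := hess_aux x hx (om_sub_of_le hx.1 (h.trans h1))
  exact (le_prod h1 h1).trans (h3.trans h2)

theorem prod_le {A B C : M} (h : Le (om M) C) (h1 : Le A C) (h2 : Le B C) : Le (prodS A B) C :=
  (le_prod h1 h2).trans (le_sq h)

theorem union_le {I C : M} {F : M → M} (hF : DefF M F) (hC : Le (om M) C) (hI : Le I C)
    (h : ∀ i : M, i ∈ I → Le (F i) C) : Le (sU (repS I F)) C := by
  obtain ⟨f, hf, h1⟩ := choice (R := fun i f => (∀ x : M, x ∈ F i → ∃ y : M, y ∈ C ∧ opair x y ∈ f) ∧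
    (∀ x y z : M, opair x y ∈ f → opair x z ∈ f → y = z) ∧
    (∀ x y z : M, opair x z ∈ f → opair y z ∈ f → x = y)) (by fun_prop) I (fun i hi => le_iff.1 (h i hi))
  obtain ⟨g, hg, h2⟩ := choice (R := fun z i => i ∈ I ∧ z ∈ F i) (by fun_prop) (sU (repS I F)) (fun z hz => by
    obtain ⟨w, hw, hz⟩ := mem_sU.1 hz
    obtain ⟨i, hi, rfl⟩ := (mem_repS hF).1 hw
    exact ⟨i, hi, hz⟩)
  have happ : ∀ z : M, z ∈ sU (repS I F) → app (f (g z)) z ∈ C ∧ opair z (app (f (g z)) z) ∈ f (g z) := by
    intro z hz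
    obtain ⟨h3, h4, h5⟩ := h1 (g z) (h2 z hz).1
    obtain ⟨y, hy, hy'⟩ := h3 z (h2 z hz).2
    have : app (f (g z)) z = y := app_eq hy' (fun y' h' => h4 _ _ _ h' hy')
    rw [this]; exact ⟨hy, hy'⟩
  refine Le.trans (B := prodS I C) (Le.of (fun z => opair (g z) (app (f (g z)) z)) (by fun_prop) (fun z hz => ?_)
    (fun z w hz hw hzw => ?_)) (prod_le hC hI (Le.refl C))
  · rw [opair_mem_prodS]; exact ⟨(h2 z hz).1, (happ z hz).1⟩
  · rw [opair_inj] at hzw
    have h3 := (happ z hz).2
    have h4 := (happ w hw).2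
    rw [hzw.2, hzw.1] at h3
    exact (h1 (g w) (h2 w hw).1).2.2 _ _ _ h3 h4

theorem sU_le {I C : M} (hC : Le (om M) C) (hI : Le I C) (h : ∀ i : M, i ∈ I → Le i C) : Le (sU I) C := by
  have : repS I (fun x => x) = I := ext' (fun z => by
    rw [mem_repS (by fun_prop)]
    exact ⟨fun ⟨w, hw, h⟩ => by rw [h]; exact hw, fun h => ⟨z, h, rfl⟩⟩)
  have h1 := union_le (F := fun x => x) (by fun_prop) hC hI h
  rwa [this] at h1

/-- the successor cardinal is regular -/
theorem isReg_succ {A κ : M} (hA : Le (om M) A) (hκ : IsOrd κ) (h1 : ∀ x : M, x ∈ κ → Le x A) (h2 : ¬ Le κ A) : IsReg κ := by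
  have hcard : IsCard κ := ⟨hκ, fun y hy h => h2 (h.trans (h1 y hy))⟩
  have hAκ : Le A κ := le_of_not h2
  have hω := om_sub_of_le hκ (hA.trans hAκ)
  refine ⟨hκ, hω _ zero_mem_om, fun x hx => card_succ hcard hω hx, hcard.2, fun S hS h => ?_⟩
  by_contra hcon
  obtain ⟨y, hy, _, h3, _⟩ := exists_mem_le hκ hcon
  apply h2
  refine (Le.of_sub (B := sU S) (fun x hx => ?_)).trans (sU_le hA (h3.trans (h1 y hy)) (fun i hi => h1 i (hS i hi)))
  obtain ⟨y, hy, hxy⟩ := h x hx
  exact mem_sU.2 ⟨y, hy, hxy⟩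

/-- (strongly) inaccessible initial ordinals -/
structure IsInac (κ : M) : Prop where
  reg : IsReg κ
  unc : om M ∈ κ
  lim : ∀ A : M, ¬ Le κ A → ¬ Le κ (pow A)

theorem inacc_card {X : M} (h : Inacc X) : ∃ κ : M, IsInac κ ∧ Le X κ ∧ Le κ X := by
  obtain ⟨κ, hκ, h1, h2⟩ := exists_card X
  obtain ⟨a1, a2, a3⟩ := h
  have a1' : ¬ Le κ (om M) := fun h => a1 _ (isOmega_iff.2 rfl) (h1.trans h)
  have hω : Le (om M) κ := le_of_not a1'
  have hω' := om_sub_of_le hκ.1 hω
  have hun : om M ∈ κ := by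
    rcases ord_cases ord_om hκ.1 with h | h
    · exact h
    · exact absurd (Le.of_sub h) a1'
  refine ⟨κ, ⟨⟨hκ.1, hω' _ zero_mem_om, fun x hx => card_succ hκ hω' hx, hκ.2, fun S hS h => ?_⟩, hun, fun A hA hA' => ?_⟩, h1, h2⟩
  · by_contra hcon
    apply a3 S (sU S) (fun h' => hcon (h2.trans h')) (fun y hy h' => hκ.2 y (hS y hy) (h2.trans h')) (fun z => mem_sU)
    refine h1.trans (Le.of_sub (fun x hx => ?_))
    obtain ⟨y, hy, hxy⟩ := h x hx
    exact mem_sU.2 ⟨y, hy, hxy⟩
  · exact a2 A (pow A) (fun h' => hA (h2.trans h')) (isPow_iff.2 rfl) (h1.trans hA')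

end ZFC

/-- models of ZFC + GCH -/
class GCHM (M : Type) [Membership M M] : Prop extends ZFCM M where
  gch : ∀ A Z : M, Le (om M) A → ¬ Le Z A → Le (pow A) Z

theorem GCHM.of (M : Type) [Membership M M] (h : ZFCModel M) (h' : GCH M) : GCHM M := by
  have : ZFModel M := h.1
  have h1 : ZFCM M := { ac := h.2 }
  refine { gch := fun A Z hA hZ => ?_ }
  exact (h' A (pow A) ⟨om M, isOmega_iff.2 rfl, hA⟩ (isPow_iff.2 rfl)).2 Z hZ

section
variable {M : Type} [Membership M M] [GCHM M]

/-- the next cardinal -/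
theorem exists_next {A : M} (hA : Le (om M) A) : ∃ κ : M, IsReg κ ∧ (∀ x : M, x ∈ κ → Le x A) ∧ Le (pow A) κ ∧ Le κ (pow A) ∧ ¬ Le κ A := by
  obtain ⟨κ, hκ, h1, h2⟩ := exists_card (pow A)
  have h3 : ∀ x : M, x ∈ κ → Le x A := by
    intro x hx
    by_contra h
    exact hκ.2 x hx (h2.trans (GCHM.gch A x hA h))
  have h4 : ¬ Le κ A := fun h => cantor A (h1.trans h)
  exact ⟨κ, isReg_succ hA hκ.1 h3 h4, h3, h1, h2, h4⟩

end

end Pool.Agent.Helper79.Kurepa
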