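import Pool.Agent.Helper79.Kurepa.Abs

/-!
# Counting names and collapsing cardinals in generic extensions
-/

namespace Pool.Agent.Helper79.Kurepa

open Pool.Agent.Helper79.ZF

namespace GenExt

section
variable {M N : Type} [Membership M M] [Membership N N] [ZFCM M] [ZFCM N] {P R : M} (g : GenExt M N P R)

/-- counting names -/
theorem pow_le {A Nm : M} (h : ∀ t : N, MSub t (g.j A) → ∃ σ : M, σ ∈ Nm ∧ t = g.ev (g.j σ)) :
    Le (pow (g.j A)) (g.j Nm) := by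
  apply le_image (F := g.ev) (by fun_prop)
  intro t ht
  obtain ⟨σ, h1, h2⟩ := h t (mem_pow.1 ht)
  exact ⟨g.j σ, g.j_mem_j.2 h1, h2.symm⟩

/-- an injection from a total functional relation -/
theorem le_of_rel {A B : N} {T : N → N → Prop} (hT : DefP N (fun t : N × N => T t.1 t.2)) (h : ∀ b : N, b ∈ B → ∃ a : N, a ∈ A ∧ T a b)
    (hf : ∀ a b c : N, T a b → T a c → b = c) : Le B A := by
  obtain ⟨F, hF, hF'⟩ := choice (R := fun b a => a ∈ A ∧ T a b) (by fun_prop) B h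
  exact Le.of F hF (fun b hb => (hF' b hb).1) (fun b c hb hc hbc => hf _ _ _ (hF' b hb).2 (by rw [hbc]; exact (hF' c hc).2))

/-- the second factor collapses ordinals below `μ` -/
theorem collapse2 {κ μ : M} (g : GenExt M N P (Lv κ μ)) (hκ : IsReg κ) (hμ : IsOrd μ) {x : M} (hx : x ∈ μ) :
    Le (g.j x) (g.j κ) := by
  apply le_of_rel (T := fun i b => ∃ q : N, q ∈ g.G ∧ opair (opair (g.j x) i) b ∈ snd q) (by fun_prop)
  · intro b hb
    obtain ⟨y, hy, rfl⟩ := g.mem_j.1 hb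
    obtain ⟨p, r, h1, i, hi, h2⟩ := g.gen (fun p r => ∃ i : M, i ∈ κ ∧ opair (opair x i) y ∈ r) (by fun_prop) (by
      intro p r hp hr
      obtain ⟨i, hi, _, h2⟩ := exists_ext hκ hμ hr hx hy
      exact ⟨p, _, ⟨hp, h2, fun z h => h, fun z hz => mem_cup.2 (Or.inl hz)⟩, i, hi, mem_cup.2 (Or.inr (mem_sing.2 rfl))⟩)
    refine ⟨g.j i, g.j_mem_j.2 hi, _, h1, ?_⟩
    rw [g.j_opair, snd_opair, ← g.j_opair, ← g.j_opair, g.j_mem_j]
    exact h2
  · rintro i b c ⟨q, hq, h1⟩ ⟨q', hq', h2⟩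
    obtain ⟨p, r, _, _, rfl⟩ := g.G_sub q hq
    obtain ⟨p', r', _, _, rfl⟩ := g.G_sub q' hq'
    rw [g.j_opair, snd_opair] at h1 h2
    obtain ⟨u, y, h3, rfl, h5⟩ := g.opair_mem_j h1
    obtain ⟨u', z, h3', rfl, h5'⟩ := g.opair_mem_j h2
    have := g.inj (h3.symm.trans h3')
    subst this
    obtain ⟨p'', r'', h6, h7, h8⟩ := g.G_dir hq hq'
    have hr'' := mem_Lv.1 (g.G_mem h6).2
    obtain ⟨x', i', _, _, _, _, h9⟩ := hr''.1 _ (h7.2.2.2 _ h5)
    rw [opair_inj] at h9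
    rw [h9.1] at h5 h5'
    rw [hr''.2.2.1 _ _ _ _ (h7.2.2.2 _ h5) (h8.2.2.2 _ h5')]

/-- the first factor collapses ordinals below `μ` -/
theorem collapse1 {κ μ : M} (g : GenExt M N (Lv κ μ) R) (hκ : IsReg κ) (hμ : IsOrd μ) {x : M} (hx : x ∈ μ) :
    Le (g.j x) (g.j κ) := by
  apply le_of_rel (T := fun i b => ∃ q : N, q ∈ g.G ∧ opair (opair (g.j x) i) b ∈ fst q) (by fun_prop)
  · intro b hb
    obtain ⟨y, hy, rfl⟩ := g.mem_j.1 hb
    obtain ⟨p, r, h1, i, hi, h2⟩ := g.gen (fun p r => ∃ i : M, i ∈ κ ∧ opair (opair x i) y ∈ p) (by fun_prop) (by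
      intro p r hp hr
      obtain ⟨i, hi, _, h2⟩ := exists_ext hκ hμ hp hx hy
      exact ⟨_, r, ⟨h2, hr, fun z hz => mem_cup.2 (Or.inl hz), fun z h => h⟩, i, hi, mem_cup.2 (Or.inr (mem_sing.2 rfl))⟩)
    refine ⟨g.j i, g.j_mem_j.2 hi, _, h1, ?_⟩
    rw [g.j_opair, fst_opair, ← g.j_opair, ← g.j_opair, g.j_mem_j]
    exact h2
  · rintro i b c ⟨q, hq, h1⟩ ⟨q', hq', h2⟩
    obtain ⟨p, r, _, _, rfl⟩ := g.G_sub q hq
    obtain ⟨p', r', _, _, rfl⟩ := g.G_sub q' hq'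
    rw [g.j_opair, fst_opair] at h1 h2
    obtain ⟨u, y, h3, rfl, h5⟩ := g.opair_mem_j h1
    obtain ⟨u', z, h3', rfl, h5'⟩ := g.opair_mem_j h2
    have := g.inj (h3.symm.trans h3')
    subst this
    obtain ⟨p'', r'', h6, h7, h8⟩ := g.G_dir hq hq'
    have hr'' := mem_Lv.1 (g.G_mem h6).1
    obtain ⟨x', i', _, _, _, _, h9⟩ := hr''.1 _ (h7.2.2.1 _ h5)
    rw [opair_inj] at h9
    rw [h9.1] at h5 h5'
    rw [hr''.2.2.1 _ _ _ _ (h7.2.2.1 _ h5) (h8.2.2.1 _ h5')]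

/-- subsets of ground model sets `A`, all names -/
theorem pow_le_all {A : M} : Le (pow (g.j A)) (g.j (pow (prodS (prodS P R) A))) := by
  apply g.pow_le
  intro t ht
  obtain ⟨ρ, hρ, h⟩ := g.name t
  have hρd := hρ.df
  have hd : DefP M (fun w : M => ρ (fst (fst w)) (snd (fst w)) (snd w)) :=
    DefP_comp (R := fun t : M × (M × M) => ρ t.1 t.2.1 t.2.2) hρd (f := fun w : M => (fst (fst w), (snd (fst w), snd w))) (by fun_prop)
  refine ⟨sepS (prodS (prodS P R) A) (fun w => ρ (fst (fst w)) (snd (fst w)) (snd w)), ?_, ?_⟩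
  · rw [mem_pow]
    exact fun w hw => ((mem_sepS hd).1 hw).1
  · apply g.eq_ev ht
    · intro q a hqa
      have := ((mem_sepS hd).1 hqa).1
      rw [opair_mem_prodS] at this
      exact this.2
    · intro a ha
      rw [h a]
      constructor
      · rintro ⟨p, r, h1, h2⟩
        refine ⟨p, r, h1, (mem_sepS hd).2 ⟨?_, ?_⟩⟩
        · have := g.G_mem h1
          simp only [opair_mem_prodS]
          exact ⟨this, ha⟩
        · rw [fst_opair, fst_opair, snd_opair, snd_opair]; exact h2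
      · rintro ⟨p, r, h1, h2⟩
        refine ⟨p, r, h1, ?_⟩
        have := ((mem_sepS hd).1 h2).2
        rw [fst_opair, fst_opair, snd_opair, snd_opair] at this
        exact this

end

section
variable {M N : Type} [Membership M M] [Membership N N] [ZFCM M] [ZFCM N] {P κ μ : M} (g : GenExt M N P (Lv κ μ))

/-- a name for a subset of a small set needs few conditions of the second factor -/
theorem small_name {B ν0 : M} (hκ : IsReg κ) (hμ : IsInac μ) (hκμ : κ ∈ μ) (hP : ¬ Le μ P) (hB : ¬ Le μ B) (hν0 : ν0 ∈ μ)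
    {ρ : M → M → M → Prop} (hρ : RN P (Lv κ μ) ρ) : ∃ ν : M, ν ∈ μ ∧ MSub ν0 ν ∧ ∀ a : M, a ∈ B →
      (∃ p r : M, g.j (opair p r) ∈ g.G ∧ ρ p r a) → ∃ p c : M, c ∈ Lv κ ν ∧ g.j (opair p c) ∈ g.G ∧ ρ p c a := by
  have hρd := hρ.df
  obtain ⟨ν, hν, hν0ν, hcl⟩ := closing (A := prodS P B) hκ hμ hκμ (hμ.reg.prod hP hB) hν0
    (Φ := fun c z c' => MSub c c' ∧ ∃ p' : M, p' ∈ P ∧ MSub (fst z) p' ∧ ρ p' c' (snd z)) (by
      have : DefP M (fun t : (M × (M × M)) × M => ρ t.2 t.1.2.2 (snd t.1.2.1)) :=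
        DefP_comp (R := fun t : M × (M × M) => ρ t.1 t.2.1 t.2.2) hρd
          (f := fun t : (M × (M × M)) × M => (t.2, (t.1.2.2, snd t.1.2.1))) (by fun_prop)
      fun_prop)
  refine ⟨ν, hν, hν0ν, fun a ha hex => ?_⟩
  have hνo : IsOrd ν := ord_mem hμ.reg.ord hν
  have hνμ : MSub ν μ := ord_sub hμ.reg.ord hν
  have hd1 : DefP M (fun t : M × M => ∃ c : M, c ∈ Lv κ ν ∧ MSub c t.2 ∧ ρ t.1 c a) := by
    have : DefP M (fun t : (M × M) × M => ρ t.1.1 t.2 a) :=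
      DefP_comp (R := fun t : M × (M × M) => ρ t.1 t.2.1 t.2.2) hρd (f := fun t : (M × M) × M => (t.1.1, (t.2, a))) (by fun_prop)
    fun_prop
  have hd2 := Ng_def (M := M) (α := M × M) (P := fun _ => P) (R := fun _ => Lv κ μ) (p := fun t => t.1) (r := fun t => t.2)
        (a := fun _ => a) hρd (by fun_prop) (by fun_prop) (by fun_prop) (by fun_prop) (by fun_prop)
  obtain ⟨p, r, h1, h2⟩ := g.gen (fun p r => (∃ c : M, c ∈ Lv κ ν ∧ MSub c r ∧ ρ p c a) ∨ Ng P (Lv κ μ) ρ p r a) (hd1.or hd2) (by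
    intro p r hp hr
    have hc : res r ν ∈ Lv κ ν := res_mem hνo hr
    by_cases h : ∃ c' : M, c' ∈ Lv κ μ ∧ MSub (res r ν) c' ∧ ∃ p' : M, p' ∈ P ∧ MSub p p' ∧ ρ p' c' a
    · obtain ⟨c', h3, h4, h5⟩ := hcl (res r ν) (opair p a) hc (opair_mem_prodS.2 ⟨hp, ha⟩) (by
        rw [fst_opair, snd_opair]; exact h)
      rw [fst_opair, snd_opair] at h5
      obtain ⟨p', h6, h7, h8⟩ := h5
      obtain ⟨m1, m2⟩ := amalg hκ hνμ hr h3 h4
      exact ⟨p', cup r c', ⟨h6, m1, h7, fun z hz => mem_cup.2 (Or.inl hz)⟩, Or.inl ⟨c', h3, fun z hz => mem_cup.2 (Or.inr hz), h8⟩⟩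
    · refine ⟨p, r, Ex.refl hp hr, Or.inr (fun p' r' h3 h4 => h ⟨r', h3.2.1, ?_, p', h3.1, h3.2.2.1, h4⟩)⟩
      exact MSub.trans' (res_sub r ν) h3.2.2.2)
  rcases h2 with ⟨c, h3, h4, h5⟩ | h2
  · exact ⟨p, c, h3, g.up p c p r h1 (g.G_mem h1).1 (Lv_mono hνμ _ h3) (fun z h => h) h4, h5⟩
  · obtain ⟨p', r', h3, h4⟩ := hex
    exact (g.not_both hρ h3 h1 h4 h2).elim

/-- subsets of `A` that have a name using few conditions -/
theorem pow_le_small {A : M} (hκ : IsReg κ) (hμ : IsInac μ) (hκμ : κ ∈ μ) (hP : ¬ Le μ P) (hA : ¬ Le μ A) :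
    Le (pow (g.j A)) (g.j μ) := by
  have h1 : Le (sU (repS μ (fun ν => pow (prodS (prodS P (Lv κ ν)) A)))) μ :=
    union_le (by fun_prop) hμ.reg.inf (Le.refl μ) (fun ν hν => le_of_not
      (hμ.lim _ (hμ.reg.prod (hμ.reg.prod hP (Lv_small hμ hκμ hν)) hA)))
  refine Le.trans ?_ (g.j_le h1)
  apply g.pow_le
  intro t ht
  obtain ⟨ρ, hρ, h⟩ := g.name t
  have hρd := hρ.df
  have hd : DefP M (fun w : M => ρ (fst (fst w)) (snd (fst w)) (snd w)) :=
    DefP_comp (R := fun t : M × (M × M) => ρ t.1 t.2.1 t.2.2) hρd (f := fun w : M => (fst (fst w), (snd (fst w), snd w))) (by fun_prop)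
  obtain ⟨ν, hν, _, hν'⟩ := g.small_name (B := A) (ν0 := emp) hκ hμ hκμ hP hA hμ.reg.zero hρ
  refine ⟨sepS (prodS (prodS P (Lv κ ν)) A) (fun w => ρ (fst (fst w)) (snd (fst w)) (snd w)), ?_, ?_⟩
  · rw [mem_sU]
    refine ⟨_, (mem_repS (by fun_prop)).2 ⟨ν, hν, rfl⟩, ?_⟩
    rw [mem_pow]
    exact fun w hw => ((mem_sepS hd).1 hw).1
  · apply g.eq_ev ht
    · intro q a hqa
      have := ((mem_sepS hd).1 hqa).1
      rw [opair_mem_prodS] at this
      exact this.2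
    · intro a ha
      rw [h a]
      constructor
      · intro hex
        obtain ⟨p, c, h1, h2, h3⟩ := hν' a ha hex
        refine ⟨p, c, h2, (mem_sepS hd).2 ⟨?_, ?_⟩⟩
        · simp only [opair_mem_prodS]
          exact ⟨⟨(g.G_mem h2).1, h1⟩, ha⟩
        · rw [fst_opair, fst_opair, snd_opair, snd_opair]; exact h3
      · rintro ⟨p, r, h1, h2⟩
        refine ⟨p, r, h1, ?_⟩
        have := ((mem_sepS hd).1 h2).2
        rw [fst_opair, fst_opair, snd_opair, snd_opair] at this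
        exact this

/-- subsets of small sets depend on the first factor only -/
theorem decided {A : M} (hκ : IsReg κ) (hA : ¬ Le κ (prodS P A)) {ρ : M → M → M → Prop} (hρ : RN P (Lv κ μ) ρ) :
    ∃ p0 r0 : M, g.j (opair p0 r0) ∈ g.G ∧ ∀ p a : M, p ∈ P → a ∈ A → ∃ p' : M, p' ∈ P ∧ MSub p p' ∧
      (ρ p' r0 a ∨ Ng P (Lv κ μ) ρ p' r0 a) := by
  have hρd := hρ.df
  have hd1 : DefP M (fun t : (M × M) × M => ρ t.2 t.1.2 (snd t.1.1)) :=
      DefP_comp (R := fun t : M × (M × M) => ρ t.1 t.2.1 t.2.2) hρd (f := fun t : (M × M) × M => (t.2, (t.1.2, snd t.1.1))) (by fun_prop)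
  have hd2 := Ng_def (M := M) (α := (M × M) × M) (P := fun _ => P) (R := fun _ => Lv κ μ) (p := fun t => t.2) (r := fun t => t.1.2)
        (a := fun t => snd t.1.1) hρd (by fun_prop) (by fun_prop) (by fun_prop) (by fun_prop) (by fun_prop)
  have hd3 : DefP M (fun t : M × M => ∃ p' : M, p' ∈ P ∧ MSub (fst t.1) p' ∧ (ρ p' t.2 (snd t.1) ∨ Ng P (Lv κ μ) ρ p' t.2 (snd t.1))) := by
    have := hd1.or hd2
    fun_prop
  apply g.gen (fun _ r => ∀ p a : M, p ∈ P → a ∈ A → ∃ p' : M, p' ∈ P ∧ MSub p p' ∧ (ρ p' r a ∨ Ng P (Lv κ μ) ρ p' r a))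
  · have : DefP M (fun t : M × M => ∀ z : M, z ∈ prodS P A → ∃ p' : M, p' ∈ P ∧ MSub (fst z) p' ∧ (ρ p' t.2 (snd z) ∨ Ng P (Lv κ μ) ρ p' t.2 (snd z))) := by
      have h4 : DefP M (fun t : (M × M) × M => ∃ p' : M, p' ∈ P ∧ MSub (fst t.2) p' ∧ (ρ p' t.1.2 (snd t.2) ∨ Ng P (Lv κ μ) ρ p' t.1.2 (snd t.2))) :=
        DefP_comp (R := fun t : M × M => ∃ p' : M, p' ∈ P ∧ MSub (fst t.1) p' ∧ (ρ p' t.2 (snd t.1) ∨ Ng P (Lv κ μ) ρ p' t.2 (snd t.1))) hd3
          (f := fun t : (M × M) × M => (t.2, t.1.2)) (by fun_prop)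
      fun_prop
    refine this.congr (fun t => ?_)
    constructor
    · intro h p a hp ha
      have := h (opair p a) (opair_mem_prodS.2 ⟨hp, ha⟩)
      rwa [fst_opair, snd_opair] at this
    · intro h z hz
      obtain ⟨p, a, hp, ha, rfl⟩ := mem_prodS.1 hz
      rw [fst_opair, snd_opair]
      exact h p a hp ha
  · intro p r hp hr
    obtain ⟨r', h1, h2, h3⟩ := fuse (κ := κ) (μ := μ) hκ hA hr
      (Φ := fun z r => ∃ p' : M, p' ∈ P ∧ MSub (fst z) p' ∧ (ρ p' r (snd z) ∨ Ng P (Lv κ μ) ρ p' r (snd z))) hd3 (by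
      rintro z r r' _ _ hr' hrr' ⟨p', h3, h4, h5⟩
      refine ⟨p', h3, h4, ?_⟩
      have hex : Ex P (Lv κ μ) p' r p' r' := ⟨h3, hr', fun z h => h, hrr'⟩
      exact h5.elim (fun h => Or.inl (hρ.mono _ _ _ _ _ hex h)) (fun h => Or.inr (h.mono hex))) (by
      intro z r hz hr _
      obtain ⟨p, a, hp, ha, rfl⟩ := mem_prodS.1 hz
      simp only [fst_opair, snd_opair]
      obtain ⟨p', r', ⟨h3, h4, h5, h6⟩, h7⟩ := hρ.decide a hp hr
      exact ⟨r', h4, h6, p', h3, h5, h7⟩)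
    refine ⟨p, r', ⟨hp, h1, fun z h => h, h2⟩, fun q a hq ha => ?_⟩
    have := h3 (opair q a) (opair_mem_prodS.2 ⟨hq, ha⟩)
    rwa [fst_opair, snd_opair] at this

/-- a decided name -/
theorem decided_mem (hκ : IsReg κ) {A : M} {ρ : M → M → M → Prop} (hρ : RN P (Lv κ μ) ρ) {p0 r0 : M} (h0 : g.j (opair p0 r0) ∈ g.G)
    (hdec : ∀ p a : M, p ∈ P → a ∈ A → ∃ p' : M, p' ∈ P ∧ MSub p p' ∧ (ρ p' r0 a ∨ Ng P (Lv κ μ) ρ p' r0 a)) {a : M} (ha : a ∈ A) :
    (∃ p r : M, g.j (opair p r) ∈ g.G ∧ ρ p r a) ↔ ∃ p : M, g.j (opair p emp) ∈ g.G ∧ ρ p r0 a := by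
  have hρd := hρ.df
  have he : emp ∈ Lv κ μ := emp_mem_Lv hκ
  constructor
  · intro hex
    obtain ⟨p, r, h1, h2 | h2⟩ := g.gen (fun p _ => ρ p r0 a ∨ Ng P (Lv κ μ) ρ p r0 a) (by
      have hd1 : DefP M (fun t : M × M => ρ t.1 r0 a) :=
        DefP_comp (R := fun t : M × (M × M) => ρ t.1 t.2.1 t.2.2) hρd (f := fun t : M × M => (t.1, (r0, a))) (by fun_prop)
      have hd2 := Ng_def (M := M) (α := M × M) (P := fun _ => P) (R := fun _ => Lv κ μ) (p := fun t => t.1) (r := fun _ => r0)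
        (a := fun _ => a) hρd (by fun_prop) (by fun_prop) (by fun_prop) (by fun_prop) (by fun_prop)
      exact hd1.or hd2) (by
      intro p r hp hr
      obtain ⟨p', h1, h2, h3⟩ := hdec p a hp ha
      exact ⟨p', r, ⟨h1, hr, h2, fun z h => h⟩, h3⟩)
    · exact ⟨p, g.up p emp p r h1 (g.G_mem h1).1 he (fun z h => h) (fun z h => absurd h (not_mem_emp z)), h2⟩
    · obtain ⟨p', r', h3, h4⟩ := hex
      obtain ⟨p2, r2, h5, h6, h7⟩ := g.G_dir h1 h0
      have : Ng P (Lv κ μ) ρ p2 r2 a := h2.mono ⟨h6.1, h6.2.1, h6.2.2.1, h7.2.2.2⟩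
      exact (g.not_both hρ h3 h5 h4 this).elim
  · rintro ⟨p, h1, h2⟩
    obtain ⟨p2, r2, h5, h6, h7⟩ := g.G_dir h1 h0
    exact ⟨p2, r2, h5, hρ.mono _ _ _ _ _ ⟨h6.1, h6.2.1, h6.2.2.1, h7.2.2.2⟩ h2⟩

/-- subsets of small sets, counted -/
theorem pow_le_decided {A : M} (hκ : IsReg κ) (hA : ¬ Le κ (prodS P A)) :
    Le (pow (g.j A)) (g.j (pow (prodS (prodS P (sing emp)) A))) := by
  apply g.pow_le
  intro t ht
  obtain ⟨ρ, hρ, h⟩ := g.name t
  have hρd := hρ.df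
  obtain ⟨p0, r0, h0, hdec⟩ := g.decided hκ hA hρ
  have hd : DefP M (fun w : M => ρ (fst (fst w)) r0 (snd w)) :=
    DefP_comp (R := fun t : M × (M × M) => ρ t.1 t.2.1 t.2.2) hρd (f := fun w : M => (fst (fst w), (r0, snd w))) (by fun_prop)
  refine ⟨sepS (prodS (prodS P (sing emp)) A) (fun w => ρ (fst (fst w)) r0 (snd w)), ?_, ?_⟩
  · rw [mem_pow]
    exact fun w hw => ((mem_sepS hd).1 hw).1
  · apply g.eq_ev ht
    · intro q a hqa
      have := ((mem_sepS hd).1 hqa).1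
      rw [opair_mem_prodS] at this
      exact this.2
    · intro a ha
      rw [h a, g.decided_mem hκ hρ h0 hdec ha]
      constructor
      · rintro ⟨p, h1, h2⟩
        refine ⟨p, emp, h1, (mem_sepS hd).2 ⟨?_, ?_⟩⟩
        · simp only [opair_mem_prodS]
          exact ⟨⟨(g.G_mem h1).1, mem_sing.2 rfl⟩, ha⟩
        · rw [fst_opair, fst_opair, snd_opair]; exact h2
      · rintro ⟨p, r, h1, h2⟩
        have h3 := (mem_sepS hd).1 h2
        simp only [opair_mem_prodS, fst_opair, snd_opair, mem_sing] at h3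
        obtain ⟨⟨⟨_, rfl⟩, _⟩, h4⟩ := h3
        exact ⟨p, h1, h4⟩

end

section
variable {M N : Type} [Membership M M] [Membership N N] [ZFCM M] [ZFCM N] {lam κ μ : M}
  (g : GenExt M N (Lv (om M) lam) (Lv κ μ))

/-- subsets of the set of natural numbers -/
theorem pow_om_le (hl : IsInac lam) (hκ : IsReg κ) (hA : ¬ Le κ (prodS (Lv (om M) lam) (om M))) : Le (pow (om N)) (g.j lam) := by
  have hω : IsReg (om M) := isReg_om
  have h1 : Le (sU (repS lam (fun δ => pow (prodS (prodS (Lv (om M) δ) (sing emp)) (om M))))) lam :=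
    union_le (by fun_prop) hl.reg.inf (Le.refl lam) (fun δ hδ => le_of_not
      (hl.lim _ (hl.reg.prod (hl.reg.prod (Lv_small hl hl.unc hδ) (by
        intro h
        have h2 : Le (sing (emp : M)) (suc emp) := by
          refine Le.of (fun x => x) (by fun_prop) (fun z hz => ?_) (fun _ _ _ _ h => h)
          rw [mem_sing.1 hz]; exact mem_suc.2 (Or.inr rfl)
        exact hl.reg.init _ (hl.reg.succ _ hl.reg.zero) (h.trans h2))) (hl.reg.init _ hl.unc))))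
  rw [← g.j_om]
  refine Le.trans ?_ (g.j_le h1)
  apply g.pow_le
  intro t ht
  obtain ⟨ρ, hρ, h⟩ := g.name t
  have hρd := hρ.df
  obtain ⟨p0, r0, h0, hdec⟩ := g.decided hκ hA hρ
  have hd : DefP M (fun w : M => ρ (fst (fst w)) r0 (snd w)) :=
    DefP_comp (R := fun t : M × (M × M) => ρ t.1 t.2.1 t.2.2) hρd (f := fun w : M => (fst (fst w), (r0, snd w))) (by fun_prop)
  have hd2 : DefP M (fun t : M × (M × M) => MSub t.1 t.2.2 ∧ ρ t.2.2 r0 t.2.1) := by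
    have : DefP M (fun t : M × (M × M) => ρ t.2.2 r0 t.2.1) :=
      DefP_comp (R := fun t : M × (M × M) => ρ t.1 t.2.1 t.2.2) hρd (f := fun t : M × (M × M) => (t.2.2, (r0, t.2.1))) (by fun_prop)
    fun_prop
  obtain ⟨δ, hδ, _, hcl⟩ := closing (A := om M) hω hl hl.unc (hl.reg.init _ hl.unc) hl.reg.zero
    (Φ := fun c a c' => MSub c c' ∧ ρ c' r0 a) hd2
  have hδo : IsOrd δ := ord_mem hl.reg.ord hδ
  have hδl : MSub δ lam := ord_sub hl.reg.ord hδ
  have hemp : emp ∈ Lv κ μ := emp_mem_Lv hκ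
  refine ⟨sepS (prodS (prodS (Lv (om M) δ) (sing emp)) (om M)) (fun w => ρ (fst (fst w)) r0 (snd w)), ?_, ?_⟩
  · rw [mem_sU]
    refine ⟨_, (mem_repS (by fun_prop)).2 ⟨δ, hδ, rfl⟩, ?_⟩
    rw [mem_pow]
    exact fun w hw => ((mem_sepS hd).1 hw).1
  · apply g.eq_ev ht
    · intro q a hqa
      have := ((mem_sepS hd).1 hqa).1
      rw [opair_mem_prodS] at this
      exact this.2
    · intro a ha
      rw [h a, g.decided_mem hκ hρ h0 hdec ha]
      constructor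
      · rintro ⟨p, h1, h2⟩
        have hd3 : DefP M (fun t : M × M => (∃ c : M, c ∈ Lv (om M) δ ∧ MSub c t.1 ∧ ρ c r0 a) ∨
            ∀ p' : M, p' ∈ Lv (om M) lam → MSub t.1 p' → ¬ ρ p' r0 a) := by
          have : DefP M (fun t : (M × M) × M => ρ t.2 r0 a) :=
            DefP_comp (R := fun t : M × (M × M) => ρ t.1 t.2.1 t.2.2) hρd (f := fun t : (M × M) × M => (t.2, (r0, a))) (by fun_prop)
          fun_prop
        obtain ⟨p1, r1, h3, h4⟩ := g.gen (fun p _ => (∃ c : M, c ∈ Lv (om M) δ ∧ MSub c p ∧ ρ c r0 a) ∨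
            ∀ p' : M, p' ∈ Lv (om M) lam → MSub p p' → ¬ ρ p' r0 a) hd3 (by
          intro p r hp hr
          have hc : res p δ ∈ Lv (om M) δ := res_mem hδo hp
          by_cases h : ∃ c' : M, c' ∈ Lv (om M) lam ∧ MSub (res p δ) c' ∧ ρ c' r0 a
          · obtain ⟨c', h5, h6, h7⟩ := hcl (res p δ) a hc ha h
            obtain ⟨m1, m2⟩ := amalg hω hδl hp h5 h6
            exact ⟨cup p c', r, ⟨m1, hr, fun z hz => mem_cup.2 (Or.inl hz), fun z h => h⟩,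
              Or.inl ⟨c', h5, fun z hz => mem_cup.2 (Or.inr hz), h7⟩⟩
          · refine ⟨p, r, Ex.refl hp hr, Or.inr (fun p' h5 h6 h7 => h ⟨p', h5, MSub.trans' (res_sub p δ) h6, h7⟩)⟩)
        rcases h4 with ⟨c, h5, h6, h7⟩ | h4
        · refine ⟨c, emp, g.up c emp p1 r1 h3 (Lv_mono hδl _ h5) hemp h6 (fun z h => absurd h (not_mem_emp z)), (mem_sepS hd).2 ⟨?_, ?_⟩⟩
          · simp only [opair_mem_prodS]
            exact ⟨⟨h5, mem_sing.2 rfl⟩, ha⟩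
          · rw [fst_opair, fst_opair, snd_opair]; exact h7
        · exfalso
          obtain ⟨p2, r2, _, h6, h7⟩ := g.G_dir h1 h3
          exact h4 p2 h6.1 h7.2.2.1 (hρ.mono p r0 a p2 r0 ⟨h6.1, (g.G_mem h0).2, h6.2.2.1, fun z h => h⟩ h2)
      · rintro ⟨p, r, h1, h2⟩
        have h3 := (mem_sepS hd).1 h2
        simp only [opair_mem_prodS, fst_opair, snd_opair, mem_sing] at h3
        obtain ⟨⟨⟨_, rfl⟩, _⟩, h4⟩ := h3
        exact ⟨p, h1, h4⟩

end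

end GenExt

end Pool.Agent.Helper79.Kurepa
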