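import Pool.Agent.Helper79.Kurepa.Card
import Pool.Agent.Helper79.ZF.LS

/-!
# Countable elementary submodels: choice, GCH and inaccessible cardinals are transferred
-/

namespace Pool.Agent.Helper79.Kurepa

open Pool.Agent.Helper79.ZF FirstOrder Set Cardinal

/-- every model has a countable elementary submodel -/
theorem exists_elem (M : Type) [Membership M M] :
    ∃ (S : Type) (_ : Membership S S), Countable S ∧ ∃ j : S → M, Elem j := by
  by_cases hc : Countable M
  · exact ⟨M, inferInstance, hc, fun x => x, fun _ _ _ => Iff.rfl⟩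
  · have hM : ℵ₀ ≤ #M := by
      by_contra h
      exact hc (Cardinal.mk_le_aleph0_iff.1 (not_le.1 h).le)
    have hL : LSet.card ≤ ℵ₀ := by
      rw [Language.card, Cardinal.mk_le_aleph0_iff]
      unfold Language.Symbols LSet
      have : Countable (Σ l, memRel l) := by
        apply Function.Injective.countable (f := fun (_ : Σ l, memRel l) => ())
        rintro ⟨l, a⟩ ⟨l', b⟩ _
        cases a; cases b; rfl
      infer_instance
    obtain ⟨S, _, hS⟩ := Language.exists_elementarySubstructure_card_eq LSet (∅ : Set M) (ℵ₀ : Cardinal.{0}) le_rfl (by simp)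
      (by simpa using hL) (by simpa using hM)
    have helem : ∀ (α : Type) (φ : LSet.Formula α) (v : α → S), φ.Realize (fun i => (v i).1) ↔
        @Language.Formula.Realize LSet S S.inducedStructure α φ v := fun α φ v => S.subtype.map_formula φ v
    let mS : Membership S S := ⟨fun y x => x.1 ∈ y.1⟩
    have hstr : (instStr S : LSet.Structure S) = S.inducedStructure := by
      ext n f x
      · exact f.elim
      · cases f; rfl
    refine ⟨S, mS, ?_, fun x => x.1, ?_⟩
    · have : #S = ℵ₀ := by simpa using hS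
      exact Cardinal.mk_le_aleph0_iff.1 this.le
    · intro α φ v
      rw [helem α φ v, hstr]

section
variable {S M : Type} [Membership S S] [Membership M M] {α : Type}

theorem UD.msub (i j : α) : UD (fun v : α → S => MSub (v i) (v j)) (fun v : α → M => MSub (v i) (v j)) :=
  UD.all (UD.imp (UD.mem _ _) (UD.mem _ _))

theorem UD.isPair (i j k : α) : UD (fun v : α → S => IsPair (v i) (v j) (v k)) (fun v : α → M => IsPair (v i) (v j) (v k)) :=
  UD.all (UD.iff (UD.mem _ _) (UD.or (UD.all (UD.iff (UD.mem _ _) (UD.eq _ _))) (UD.all (UD.iff (UD.mem _ _) (UD.or (UD.eq _ _) (UD.eq _ _))))))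

theorem UD.le (i j : α) : UD (fun v : α → S => Le (v i) (v j)) (fun v : α → M => Le (v i) (v j)) := by
  refine UD.ex (UD.and ?_ (UD.and ?_ ?_))
  · exact UD.all (UD.imp (UD.mem _ _) (UD.ex (UD.and (UD.mem _ _) (UD.ex (UD.and (UD.mem _ _) (UD.isPair _ _ _))))))
  · refine UD.all (UD.all (UD.all (UD.all (UD.all ?_))))
    exact UD.imp (UD.mem _ _) (UD.imp (UD.mem _ _) (UD.imp (UD.isPair _ _ _) (UD.imp (UD.isPair _ _ _) (UD.eq _ _))))
  · refine UD.all (UD.all (UD.all (UD.all (UD.all ?_))))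
    exact UD.imp (UD.mem _ _) (UD.imp (UD.mem _ _) (UD.imp (UD.isPair _ _ _) (UD.imp (UD.isPair _ _ _) (UD.eq _ _))))

theorem UD.isSucc (i j : α) : UD (fun v : α → S => IsSucc (v i) (v j)) (fun v : α → M => IsSucc (v i) (v j)) :=
  UD.and (UD.not (UD.le _ _)) (UD.all (UD.imp (UD.not (UD.le _ _)) (UD.le _ _)))

theorem UD.isInd (i : α) : UD (fun v : α → S => IsInd (v i)) (fun v : α → M => IsInd (v i)) := by
  refine UD.and (UD.ex (UD.and (UD.mem _ _) (UD.all (UD.not (UD.mem _ _))))) ?_
  exact UD.all (UD.imp (UD.mem _ _) (UD.ex (UD.and (UD.mem _ _) (UD.all (UD.iff (UD.mem _ _) (UD.or (UD.mem _ _) (UD.eq _ _)))))))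

theorem UD.isOmega (i : α) : UD (fun v : α → S => IsOmega (v i)) (fun v : α → M => IsOmega (v i)) :=
  UD.and (UD.isInd _) (UD.all (UD.imp (UD.isInd _) (UD.msub _ _)))

theorem UD.isPow (i j : α) : UD (fun v : α → S => IsPow (v i) (v j)) (fun v : α → M => IsPow (v i) (v j)) :=
  UD.all (UD.iff (UD.mem _ _) (UD.msub _ _))

theorem UD.inacc (i : α) : UD (fun v : α → S => Inacc (v i)) (fun v : α → M => Inacc (v i)) := by
  refine UD.and ?_ (UD.and ?_ ?_)
  · exact UD.all (UD.imp (UD.isOmega _) (UD.not (UD.le _ _)))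
  · exact UD.all (UD.all (UD.imp (UD.not (UD.le _ _)) (UD.imp (UD.isPow _ _) (UD.not (UD.le _ _)))))
  · refine UD.all (UD.all (UD.imp (UD.not (UD.le _ _)) (UD.imp ?_ (UD.imp ?_ (UD.not (UD.le _ _))))))
    · exact UD.all (UD.imp (UD.mem _ _) (UD.not (UD.le _ _)))
    · exact UD.all (UD.iff (UD.mem _ _) (UD.ex (UD.and (UD.mem _ _) (UD.mem _ _))))

theorem UD.ac : UD (fun _ : Empty → S => AC S) (fun _ : Empty → M => AC M) := by
  refine UD.all (UD.imp ?_ (UD.ex ?_))
  · exact UD.all (UD.imp (UD.mem _ _) (UD.ex (UD.mem _ _)))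
  · refine UD.all (UD.imp (UD.mem _ _) (UD.ex (UD.and (UD.mem _ _) ?_)))
    exact UD.all (UD.all (UD.imp (UD.isPair _ _ _) (UD.iff (UD.mem _ _) (UD.eq _ _))))

theorem UD.gch : UD (fun _ : Empty → S => GCH S) (fun _ : Empty → M => GCH M) := by
  refine UD.all (UD.all (UD.imp ?_ (UD.imp (UD.isPow _ _) (UD.isSucc _ _))))
  exact UD.ex (UD.and (UD.isOmega _) (UD.le _ _))

theorem UD.twoInacc : UD (fun _ : Empty → S => TwoInacc S) (fun _ : Empty → M => TwoInacc M) :=
  UD.ex (UD.ex (UD.and (UD.inacc _) (UD.and (UD.inacc _) (UD.not (UD.le _ _)))))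

end

/-- a countable model of the same hypotheses -/
theorem exists_countable_zfc (M : Type) [Membership M M] (h : ZFCModel M) (h1 : GCH M) (h2 : TwoInacc M) :
    ∃ (S : Type) (_ : Membership S S), Countable S ∧ ZFCModel S ∧ GCH S ∧ TwoInacc S := by
  obtain ⟨S, mS, hS, j, hj⟩ := exists_elem M
  have : ZFModel M := h.1
  exact ⟨S, mS, hS, ⟨hj.zf, (UD.transfer hj UD.ac Empty.elim).2 h.2⟩, (UD.transfer hj UD.gch Empty.elim).2 h1,
    (UD.transfer hj UD.twoInacc Empty.elim).2 h2⟩

end Pool.Agent.Helper79.Kurepa
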