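import Pool.Agent.Helper79.Kurepa.Levy

/-!
# Fusion arguments for Levy collapses
-/

namespace Pool.Agent.Helper79.Kurepa

open Pool.Agent.Helper79.ZF

section
variable {M : Type} [Membership M M] [ZFCM M]
variable {α β γ : Type} [Ctx M α] [Ctx M β] [Ctx M γ]

/-- transfinite sequences of successively stronger conditions -/
theorem seq_lemma {S I s0 : M} {le : M → M → Prop} (hle : DefP M (fun p : M × M => le p.1 p.2))
    (hrefl : ∀ x : M, x ∈ S → le x x) (htr : ∀ x y z : M, le x y → le y z → le x z) (hI : IsOrd I)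
    {Φ : M → M → Prop} (hΦ : DefP M (fun t : M × M => Φ t.1 t.2)) (hs0 : s0 ∈ S)
    (step : ∀ i s : M, i ∈ I → s ∈ S → le s s0 → ∃ s' : M, s' ∈ S ∧ le s' s ∧ Φ i s')
    (lb : ∀ i X : M, i ∈ I → MSub X S → s0 ∈ X → (∀ x y : M, x ∈ X → y ∈ X → le x y ∨ le y x) → Le X (suc i) →
      ∃ s : M, s ∈ S ∧ ∀ x : M, x ∈ X → le s x) :
    ∃ F : M → M, DefF M F ∧ ∀ i : M, i ∈ I → F i ∈ S ∧ le (F i) s0 ∧ (∀ k : M, k ∈ i → le (F i) (F k)) ∧ Φ i (F i) := by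
  classical
  obtain ⟨L, hL, hL'⟩ := choice (R := fun X s => (∃ s' : M, s' ∈ S ∧ ∀ x : M, x ∈ X → le s' x) →
    (s ∈ S ∧ ∀ x : M, x ∈ X → le s x)) (by fun_prop) (pow S) (by
      intro X _
      by_cases h : ∃ s' : M, s' ∈ S ∧ ∀ x : M, x ∈ X → le s' x
      · obtain ⟨s', h'⟩ := h; exact ⟨s', fun _ => h'⟩
      · exact ⟨emp, fun h' => absurd h' h⟩)
  obtain ⟨Ps, hPs, hPs'⟩ := choice (R := fun z s' => le (snd z) s0 → (s' ∈ S ∧ le s' (snd z) ∧ Φ (fst z) s')) (by fun_prop) (prodS I S) (by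
    intro z hz
    obtain ⟨i, s, hi, hs, rfl⟩ := mem_prodS.1 hz
    rw [fst_opair, snd_opair]
    by_cases h : le s s0
    · obtain ⟨s', h'⟩ := step i s hi hs h
      exact ⟨s', fun _ => h'⟩
    · exact ⟨emp, fun h' => absurd h' h⟩)
  let G : M → M → M := fun i f => Ps (opair i (L (cup (sing s0) (repS i (fun k => app f k)))))
  have hG : DefF M (fun p : M × M => G p.1 p.2) := by simp only [G]; fun_prop
  let F : M → M := memRec G
  have hF : DefF M F := by simp only [F]; fun_prop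
  have hrec : ∀ i : M, F i = Ps (opair i (L (cup (sing s0) (repS i F)))) := by
    intro i
    show memRec G i = _
    rw [memRec_eq hG]
    show Ps (opair i (L (cup (sing s0) _))) = _
    congr 4
    apply ext'
    intro z
    rw [mem_repS (by fun_prop), mem_repS (by fun_prop)]
    constructor
    · rintro ⟨k, hk, h⟩; exact ⟨k, hk, by rw [h]; exact app_lam hF hk⟩
    · rintro ⟨k, hk, h⟩; exact ⟨k, hk, by rw [h]; exact (app_lam hF hk).symm⟩
  have key : ∀ i : M, i ∈ I → F i ∈ S ∧ le (F i) s0 ∧ (∀ k : M, k ∈ i → le (F i) (F k)) ∧ Φ i (F i) := by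
    intro i
    refine mem_induction (R := fun i => i ∈ I → F i ∈ S ∧ le (F i) s0 ∧ (∀ k : M, k ∈ i → le (F i) (F k)) ∧ Φ i (F i))
      (by fun_prop) ?_ i
    intro i ih hi
    have ih' : ∀ k : M, k ∈ i → F k ∈ S ∧ le (F k) s0 ∧ (∀ l : M, l ∈ k → le (F k) (F l)) ∧ Φ k (F k) :=
      fun k hk => ih k hk (hI.1 i k hi hk)
    set X := cup (sing s0) (repS i F) with hX
    have memX : ∀ x : M, x ∈ X ↔ (x = s0 ∨ ∃ k : M, k ∈ i ∧ x = F k) := by
      intro x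
      rw [hX, mem_cup, mem_sing, mem_repS hF]
    have hXS : MSub X S := by
      intro x hx
      rcases (memX x).1 hx with rfl | ⟨k, hk, rfl⟩
      · exact hs0
      · exact (ih' k hk).1
    have h0X : s0 ∈ X := (memX _).2 (Or.inl rfl)
    have hch : ∀ x y : M, x ∈ X → y ∈ X → le x y ∨ le y x := by
      intro x y hx hy
      rcases (memX x).1 hx with rfl | ⟨k, hk, rfl⟩ <;> rcases (memX y).1 hy with rfl | ⟨l, hl, rfl⟩
      · exact Or.inl (hrefl _ hs0)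
      · exact Or.inr (ih' l hl).2.1
      · exact Or.inl (ih' k hk).2.1
      · rcases ord_trich k l (ord_mem (ord_mem hI hi) hk) (ord_mem (ord_mem hI hi) hl) with h | h | h
        · exact Or.inr ((ih' l hl).2.2.1 k h)
        · rw [h]; exact Or.inl (hrefl _ (ih' l hl).1)
        · exact Or.inl ((ih' k hk).2.2.1 l h)
    have hXle : Le X (suc i) := by
      apply le_image (F := fun k => if k ∈ i then F k else s0) (DefF.cond (by fun_prop) (by fun_prop) (by fun_prop))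
      intro x hx
      rcases (memX x).1 hx with rfl | ⟨k, hk, rfl⟩
      · exact ⟨i, mem_suc.2 (Or.inr rfl), by simp [mem_irrefl]⟩
      · exact ⟨k, mem_suc.2 (Or.inl hk), by simp [hk]⟩
    obtain ⟨h1, h2⟩ := hL' X (by rw [mem_pow]; exact hXS) (lb i X hi hXS h0X hch hXle)
    have h3 := hPs' (opair i (L X)) (opair_mem_prodS.2 ⟨hi, h1⟩)
    rw [fst_opair, snd_opair] at h3
    obtain ⟨h4, h5, h6⟩ := h3 (h2 _ h0X)
    rw [hrec i]
    refine ⟨h4, htr _ _ _ h5 (h2 _ h0X), fun k hk => htr _ _ _ h5 (h2 _ ((memX _).2 (Or.inr ⟨k, hk, rfl⟩))), h6⟩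
  exact ⟨F, hF, key⟩

/-- meeting a small set of persistent requirements -/
theorem seq_tasks {κ S T s0 : M} {le : M → M → Prop} (hle : DefP M (fun p : M × M => le p.1 p.2))
    (hrefl : ∀ x : M, x ∈ S → le x x) (htr : ∀ x y z : M, le x y → le y z → le x z) (hκ : IsReg κ) (hT : ¬ Le κ T)
    {Φ : M → M → Prop} (hΦ : DefP M (fun t : M × M => Φ t.1 t.2)) (hs0 : s0 ∈ S)
    (mono : ∀ z s s' : M, z ∈ T → s ∈ S → s' ∈ S → le s' s → Φ z s → Φ z s')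
    (step : ∀ z s : M, z ∈ T → s ∈ S → le s s0 → ∃ s' : M, s' ∈ S ∧ le s' s ∧ Φ z s')
    (lb : ∀ X : M, MSub X S → s0 ∈ X → (∀ x y : M, x ∈ X → y ∈ X → le x y ∨ le y x) → ¬ Le κ X →
      ∃ s : M, s ∈ S ∧ ∀ x : M, x ∈ X → le s x) :
    ∃ s : M, s ∈ S ∧ le s s0 ∧ ∀ z : M, z ∈ T → Φ z s := by
  classical
  obtain ⟨I, hI, hIc, hTI, _⟩ := exists_mem_le hκ.ord hT
  obtain ⟨f, hf, hf1, hf2⟩ := hTI.fn
  have hlbs : ∀ i X : M, i ∈ κ → Le X (suc i) → ¬ Le κ X := fun i X hi h h' => hκ.init _ (hκ.succ _ hi) (h'.trans h)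
  obtain ⟨F, hF, hF'⟩ := seq_lemma (S := S) (I := I) (s0 := s0) hle hrefl htr hIc.1
    (Φ := fun i s => ∀ z : M, z ∈ T → f z = i → Φ z s) (by fun_prop) hs0 (by
      intro i s hi hs hs'
      by_cases h : ∃ z : M, z ∈ T ∧ f z = i
      · obtain ⟨z, hz, hzi⟩ := h
        obtain ⟨s', h1, h2, h3⟩ := step z s hz hs hs'
        refine ⟨s', h1, h2, fun w hw hwi => ?_⟩
        rw [hf2 w z hw hz (hwi.trans hzi.symm)]; exact h3
      · push Not at h
        exact ⟨s, hs, hrefl s hs, fun z hz hzi => absurd hzi (h z hz)⟩) (by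
      intro i X hi h1 h2 h3 h4
      exact lb X h1 h2 h3 (hlbs i X (hκ.ord.1 I i hI hi) h4))
  set X := cup (sing s0) (repS I F) with hX
  have memX : ∀ x : M, x ∈ X ↔ (x = s0 ∨ ∃ k : M, k ∈ I ∧ x = F k) := by
    intro x
    rw [hX, mem_cup, mem_sing, mem_repS hF]
  have hXS : MSub X S := by
    intro x hx
    rcases (memX x).1 hx with rfl | ⟨k, hk, rfl⟩
    · exact hs0
    · exact (hF' k hk).1
  have h0X : s0 ∈ X := (memX _).2 (Or.inl rfl)
  have hch : ∀ x y : M, x ∈ X → y ∈ X → le x y ∨ le y x := by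
    intro x y hx hy
    rcases (memX x).1 hx with rfl | ⟨k, hk, rfl⟩ <;> rcases (memX y).1 hy with rfl | ⟨l, hl, rfl⟩
    · exact Or.inl (hrefl _ hs0)
    · exact Or.inr (hF' l hl).2.1
    · exact Or.inl (hF' k hk).2.1
    · rcases ord_trich k l (ord_mem hIc.1 hk) (ord_mem hIc.1 hl) with h | h | h
      · exact Or.inr ((hF' l hl).2.2.1 k h)
      · rw [h]; exact Or.inl (hrefl _ (hF' l hl).1)
      · exact Or.inl ((hF' k hk).2.2.1 l h)
  have hXle : Le X (suc I) := by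
    apply le_image (F := fun k => if k ∈ I then F k else s0) (DefF.cond (by fun_prop) (by fun_prop) (by fun_prop))
    intro x hx
    rcases (memX x).1 hx with rfl | ⟨k, hk, rfl⟩
    · exact ⟨I, mem_suc.2 (Or.inr rfl), by simp [mem_irrefl]⟩
    · exact ⟨k, mem_suc.2 (Or.inl hk), by simp [hk]⟩
  obtain ⟨s, h1, h2⟩ := lb X hXS h0X hch (hlbs I X hI hXle)
  refine ⟨s, h1, h2 _ h0X, fun z hz => ?_⟩
  have h3 := hF' (f z) (hf1 z hz)
  exact mono z _ s hz h3.1 h1 (h2 _ ((memX _).2 (Or.inr ⟨_, hf1 z hz, rfl⟩))) (h3.2.2.2 z hz rfl)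

theorem MSub.trans' {a b c : M} (h : MSub a b) (h' : MSub b c) : MSub a c := fun z hz => h' z (h z hz)

/-- fusion for the Levy collapse: a small set of persistent requirements -/
theorem fuse {κ μ T r0 : M} (hκ : IsReg κ) (hT : ¬ Le κ T) (hr0 : r0 ∈ Lv κ μ)
    {Φ : M → M → Prop} (hΦ : DefP M (fun t : M × M => Φ t.1 t.2))
    (mono : ∀ z r r' : M, z ∈ T → r ∈ Lv κ μ → r' ∈ Lv κ μ → MSub r r' → Φ z r → Φ z r')
    (step : ∀ z r : M, z ∈ T → r ∈ Lv κ μ → MSub r0 r → ∃ r' : M, r' ∈ Lv κ μ ∧ MSub r r' ∧ Φ z r') :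
    ∃ r : M, r ∈ Lv κ μ ∧ MSub r0 r ∧ ∀ z : M, z ∈ T → Φ z r := by
  refine seq_tasks (S := Lv κ μ) (le := fun x y => MSub y x) (by fun_prop) (fun x _ => fun z hz => hz)
    (fun x y z h h' => MSub.trans' h' h) hκ hT hΦ hr0 (fun z s s' hz hs hs' h => mono z s s' hz hs hs' h) step ?_
  intro X hX _ hch hs
  refine ⟨sU X, chain_mem_Lv hκ hX hs (fun x y hx hy => (hch x y hx hy).symm), fun x hx z hz => mem_sU.2 ⟨x, hx, hz⟩⟩

/-! ### names -/

/-- `(p', r')` is a condition extending `(p, r)` -/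
def Ex (P R p r p' r' : M) : Prop := p' ∈ P ∧ r' ∈ R ∧ MSub p p' ∧ MSub r r'

omit [ZFCM M] in
@[fun_prop]
theorem Ex_def {P R p r p' r' : α → M} (h1 : DefF M P) (h2 : DefF M R) (h3 : DefF M p) (h4 : DefF M r) (h5 : DefF M p')
    (h6 : DefF M r') : DefP M (fun a => Ex (P a) (R a) (p a) (r a) (p' a) (r' a)) := by
  unfold Ex; fun_prop

omit [ZFCM M] in
theorem Ex.trans {P R p r p' r' p'' r'' : M} (h : Ex P R p r p' r') (h' : Ex P R p' r' p'' r'') : Ex P R p r p'' r'' :=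
  ⟨h'.1, h'.2.1, fun z hz => h'.2.2.1 z (h.2.2.1 z hz), fun z hz => h'.2.2.2 z (h.2.2.2 z hz)⟩

omit [ZFCM M] in
theorem Ex.refl {P R p r : M} (hp : p ∈ P) (hr : r ∈ R) : Ex P R p r p r := ⟨hp, hr, fun _ h => h, fun _ h => h⟩

/-- regular names of subsets of the ground model -/
structure RN (P R : M) (ρ : M → M → M → Prop) : Prop where
  df : DefP M (fun t : M × (M × M) => ρ t.1 t.2.1 t.2.2)
  mono : ∀ p r a p' r' : M, Ex P R p r p' r' → ρ p r a → ρ p' r' a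
  dense : ∀ p r a : M, p ∈ P → r ∈ R → (∀ p' r' : M, Ex P R p r p' r' → ∃ p'' r'' : M, Ex P R p' r' p'' r'' ∧ ρ p'' r'' a) →
    ρ p r a

/-- no extension of the condition `(p, r)` puts `a` in the set named by `ρ` -/
def Ng (P R : M) (ρ : M → M → M → Prop) (p r a : M) : Prop := ∀ p' r' : M, Ex P R p r p' r' → ¬ ρ p' r' a

omit [ZFCM M] in
@[fun_prop]
theorem Ng_def {P R p r a : α → M} {ρ : M → M → M → Prop} (hρ : DefP M (fun t : M × (M × M) => ρ t.1 t.2.1 t.2.2))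
    (h1 : DefF M P) (h2 : DefF M R) (h3 : DefF M p) (h4 : DefF M r) (h5 : DefF M a) :
    DefP M (fun x => Ng (P x) (R x) ρ (p x) (r x) (a x)) := by
  unfold Ng; fun_prop

omit [ZFCM M] in
theorem Ng.mono {P R : M} {ρ : M → M → M → Prop} {p r a p' r' : M} (h : Ng P R ρ p r a) (h' : Ex P R p r p' r') :
    Ng P R ρ p' r' a := fun p'' r'' h'' => h p'' r'' (h'.trans h'')

omit [ZFCM M] in
theorem RN.decide {P R : M} {ρ : M → M → M → Prop} (_hρ : RN P R ρ) {p r : M} (a : M) (hp : p ∈ P) (hr : r ∈ R) :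
    ∃ p' r' : M, Ex P R p r p' r' ∧ (ρ p' r' a ∨ Ng P R ρ p' r' a) := by
  by_cases h : ∃ p' r' : M, Ex P R p r p' r' ∧ ρ p' r' a
  · obtain ⟨p', r', h1, h2⟩ := h
    exact ⟨p', r', h1, Or.inl h2⟩
  · push Not at h
    exact ⟨p, r, Ex.refl hp hr, Or.inr h⟩

omit [ZFCM M] in
theorem RN.of_not {P R : M} {ρ : M → M → M → Prop} (hρ : RN P R ρ) {p r a : M} (hp : p ∈ P) (hr : r ∈ R) (h : ¬ ρ p r a) :
    ∃ p' r' : M, Ex P R p r p' r' ∧ Ng P R ρ p' r' a := by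
  by_contra hcon
  apply h
  apply hρ.dense p r a hp hr
  intro p' r' h1
  by_contra h2
  push Not at h2
  exact hcon ⟨p', r', h1, h2⟩

/-- opposite decisions about `a` -/
def Opp (P R : M) (ρ : M → M → M → Prop) (p r1 r2 a : M) : Prop :=
  (ρ p r1 a ∧ Ng P R ρ p r2 a) ∨ (Ng P R ρ p r1 a ∧ ρ p r2 a)

omit [ZFCM M] in
@[fun_prop]
theorem Opp_def {P R p r r' a : α → M} {ρ : M → M → M → Prop} (hρ : DefP M (fun t : M × (M × M) => ρ t.1 t.2.1 t.2.2))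
    (h1 : DefF M P) (h2 : DefF M R) (h3 : DefF M p) (h4 : DefF M r) (h4' : DefF M r') (h5 : DefF M a) :
    DefP M (fun x => Opp (P x) (R x) ρ (p x) (r x) (r' x) (a x)) := by
  unfold Opp; fun_prop

omit [ZFCM M] in
theorem Opp.mono {P R : M} {ρ : M → M → M → Prop} (hρ : RN P R ρ) {p r1 r2 a p' r1' r2' : M} (h : Opp P R ρ p r1 r2 a)
    (h1 : Ex P R p r1 p' r1') (h2 : Ex P R p r2 p' r2') : Opp P R ρ p' r1' r2' a := by
  rcases h with ⟨h3, h4⟩ | ⟨h3, h4⟩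
  · exact Or.inl ⟨hρ.mono _ _ _ _ _ h1 h3, h4.mono h2⟩
  · exact Or.inr ⟨h3.mono h1, hρ.mono _ _ _ _ _ h2 h4⟩

/-- splitting of pairs of conditions with the same restriction to `ν` -/
theorem pair_split {κ μ ν P A p0 r0 : M} {ρ : M → M → M → Prop} (hκ : IsReg κ) (hν : IsOrd ν) (hνμ : MSub ν μ)
    (hρ : RN P (Lv κ μ) ρ)
    (hsp : ∀ p r : M, Ex P (Lv κ μ) p0 r0 p r → ∃ p' r1 r2 a : M, Ex P (Lv κ μ) p r p' r1 ∧ Ex P (Lv κ μ) p r p' r2 ∧
      res r1 ν = res r2 ν ∧ a ∈ A ∧ ρ p' r1 a ∧ Ng P (Lv κ μ) ρ p' r2 a)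
    {p r1 r2 : M} (h1 : Ex P (Lv κ μ) p0 r0 p r1) (h2 : Ex P (Lv κ μ) p0 r0 p r2) (h12 : res r1 ν = res r2 ν) :
    ∃ p' r1' r2' a : M, Ex P (Lv κ μ) p r1 p' r1' ∧ Ex P (Lv κ μ) p r2 p' r2' ∧ res r1' ν = res r2' ν ∧ a ∈ A ∧
      Opp P (Lv κ μ) ρ p' r1' r2' a := by
  obtain ⟨p1, r11, r12, a, e1, e2, e3, ha, e4, e5⟩ := hsp p r1 h1
  have hu1 : res r11 ν ∈ Lv κ ν := res_mem hν e1.2.1
  have hs1 : MSub (res r2 ν) (res r11 ν) := by rw [← h12]; exact res_mono e1.2.2.2 ν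
  obtain ⟨m1, m2⟩ := amalg hκ hνμ h2.2.1 hu1 hs1
  obtain ⟨p2, r2', e6, e7⟩ := hρ.decide a e1.1 m1
  have hu2 : res r2' ν ∈ Lv κ ν := res_mem hν e6.2.1
  have hs2 : MSub (res r11 ν) (res r2' ν) := by
    rw [← m2]; exact res_mono e6.2.2.2 ν
  have hr2' : Ex P (Lv κ μ) p r2 p2 r2' :=
    ⟨e6.1, e6.2.1, MSub.trans' e1.2.2.1 e6.2.2.1, fun z hz => e6.2.2.2 z (mem_cup.2 (Or.inl hz))⟩
  have key : ∀ r, Ex P (Lv κ μ) p r1 p1 r → res r ν = res r11 ν → Ex P (Lv κ μ) p r1 p2 (cup r (res r2' ν)) ∧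
      Ex P (Lv κ μ) p1 r p2 (cup r (res r2' ν)) ∧ res (cup r (res r2' ν)) ν = res r2' ν := by
    intro r hr hr'
    obtain ⟨m3, m4⟩ := amalg hκ hνμ hr.2.1 hu2 (by rw [hr']; exact hs2)
    have h5 : Ex P (Lv κ μ) p1 r p2 (cup r (res r2' ν)) := ⟨e6.1, m3, e6.2.2.1, fun z hz => mem_cup.2 (Or.inl hz)⟩
    exact ⟨hr.trans h5, h5, m4⟩
  rcases e7 with e7 | e7
  · obtain ⟨k1, k2, k3⟩ := key r12 e2 e3.symm
    exact ⟨p2, _, r2', a, k1, hr2', k3, ha, Or.inr ⟨e5.mono k2, e7⟩⟩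
  · obtain ⟨k1, k2, k3⟩ := key r11 e1 rfl
    exact ⟨p2, _, r2', a, k1, hr2', k3, ha, Or.inl ⟨hρ.mono _ _ _ _ _ k2 e4, e7⟩⟩

/-! ### families of conditions -/

/-- section of a set of pairs -/
noncomputable def sec (s f : M) : M := sepS (sU (sU s)) (fun z => opair f z ∈ s)

@[fun_prop]
theorem sec_def {s f : α → M} (hs : DefF M s) (hf : DefF M f) : DefF M (fun a => sec (s a) (f a)) := by
  unfold sec; fun_prop

theorem mem_sec {s f z : M} : z ∈ sec s f ↔ opair f z ∈ s := by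
  unfold sec
  rw [mem_sepS (by fun_prop)]
  refine ⟨fun h => h.2, fun h => ⟨?_, h⟩⟩
  rw [mem_sU]
  refine ⟨upair f z, ?_, by simp⟩
  rw [mem_sU]
  exact ⟨_, h, by simp [opair]⟩

/-- set of pairs with given sections -/
noncomputable def mkS (Z : M) (h : M → M) : M := sU (repS Z (fun f => prodS (sing f) (h f)))

@[fun_prop]
theorem mkS_def {Z : α → M} {h : α → M → M} (hZ : DefF M Z) (hh : DefF M (fun p : α × M => h p.1 p.2)) :
    DefF M (fun a => mkS (Z a) (h a)) := by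
  unfold mkS; fun_prop

theorem mem_mkS {Z : M} {h : M → M} (hh : DefF M h) {w : M} : w ∈ mkS Z h ↔ ∃ f z : M, f ∈ Z ∧ z ∈ h f ∧ w = opair f z := by
  unfold mkS
  rw [mem_sU]
  constructor
  · rintro ⟨u, hu, hw⟩
    obtain ⟨f, hf, rfl⟩ := (mem_repS (by fun_prop)).1 hu
    obtain ⟨a, b, ha, hb, rfl⟩ := mem_prodS.1 hw
    rw [mem_sing] at ha
    subst ha
    exact ⟨a, b, hf, hb, rfl⟩
  · rintro ⟨f, z, hf, hz, rfl⟩
    exact ⟨_, (mem_repS (by fun_prop)).2 ⟨f, hf, rfl⟩, opair_mem_prodS.2 ⟨mem_sing.2 rfl, hz⟩⟩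

theorem sec_mkS {Z : M} {h : M → M} (hh : DefF M h) {f : M} (hf : f ∈ Z) : sec (mkS Z h) f = h f := by
  apply ext'
  intro z
  rw [mem_sec, mem_mkS hh]
  constructor
  · rintro ⟨f', z', h1, h2, h3⟩
    rw [opair_inj] at h3
    rw [h3.1, h3.2]; exact h2
  · intro hz; exact ⟨f, z, hf, hz, rfl⟩

/-- families, indexed by `Z`, of conditions with the same restriction to `ν` -/
noncomputable def St (κ μ ν Z : M) : M := sepS (pow (prodS Z (prodS (prodS μ κ) μ))) (fun s =>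
  (∀ f : M, f ∈ Z → sec s f ∈ Lv κ μ) ∧ ∀ f g : M, f ∈ Z → g ∈ Z → res (sec s f) ν = res (sec s g) ν)

theorem mem_St {κ μ ν Z s : M} : s ∈ St κ μ ν Z ↔ (∀ w : M, w ∈ s → ∃ f z : M, f ∈ Z ∧ w = opair f z) ∧
    (∀ f : M, f ∈ Z → sec s f ∈ Lv κ μ) ∧ ∀ f g : M, f ∈ Z → g ∈ Z → res (sec s f) ν = res (sec s g) ν := by
  unfold St
  rw [mem_sepS (by fun_prop), mem_pow]
  constructor
  · rintro ⟨h1, h2⟩
    refine ⟨fun w hw => ?_, h2⟩
    obtain ⟨a, b, ha, _, rfl⟩ := mem_prodS.1 (h1 w hw)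
    exact ⟨a, b, ha, rfl⟩
  · rintro ⟨h1, h2⟩
    refine ⟨fun w hw => ?_, h2⟩
    obtain ⟨f, z, hf, rfl⟩ := h1 w hw
    rw [opair_mem_prodS]
    refine ⟨hf, ?_⟩
    obtain ⟨x, i, y, hx, hi, hy, rfl⟩ := (mem_Lv.1 (h2.1 f hf)).1 z (mem_sec.2 hw)
    simp only [opair_mem_prodS]
    exact ⟨⟨hx, hi⟩, hy⟩

theorem mkS_mem_St {κ μ ν Z : M} {h : M → M} (hh : DefF M h) (h1 : ∀ f : M, f ∈ Z → h f ∈ Lv κ μ)
    (h2 : ∀ f g : M, f ∈ Z → g ∈ Z → res (h f) ν = res (h g) ν) : mkS Z h ∈ St κ μ ν Z := by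
  rw [mem_St]
  refine ⟨fun w hw => ?_, fun f hf => ?_, fun f g hf hg => ?_⟩
  · obtain ⟨f, z, hf, _, rfl⟩ := (mem_mkS hh).1 hw
    exact ⟨f, z, hf, rfl⟩
  · rw [sec_mkS hh hf]; exact h1 f hf
  · rw [sec_mkS hh hf, sec_mkS hh hg]; exact h2 f g hf hg

theorem St_chain {κ μ ν Z X : M} (hκ : IsReg κ) (hX : MSub X (St κ μ ν Z)) (hs : ¬ Le κ X)
    (hc : ∀ x y : M, x ∈ X → y ∈ X → MSub x y ∨ MSub y x) : sU X ∈ St κ μ ν Z := by
  have hsec : ∀ f : M, sec (sU X) f = sU (repS X (fun s => sec s f)) := by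
    intro f
    apply ext'
    intro z
    rw [mem_sec, mem_sU, mem_sU]
    constructor
    · rintro ⟨s, hs, hz⟩
      exact ⟨_, (mem_repS (by fun_prop)).2 ⟨s, hs, rfl⟩, mem_sec.2 hz⟩
    · rintro ⟨w, hw, hz⟩
      obtain ⟨s, hs, rfl⟩ := (mem_repS (by fun_prop)).1 hw
      exact ⟨s, hs, mem_sec.1 hz⟩
  rw [mem_St]
  refine ⟨fun w hw => ?_, fun f hf => ?_, fun f g hf hg => ?_⟩
  · obtain ⟨s, hs, hw⟩ := mem_sU.1 hw
    exact (mem_St.1 (hX s hs)).1 w hw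
  · rw [hsec]
    apply chain_mem_Lv hκ
    · intro w hw
      obtain ⟨s, hs, rfl⟩ := (mem_repS (by fun_prop)).1 hw
      exact (mem_St.1 (hX s hs)).2.1 f hf
    · exact fun h => hs (h.trans (le_repS (by fun_prop)))
    · intro x y hx hy
      obtain ⟨s, hs, rfl⟩ := (mem_repS (by fun_prop)).1 hx
      obtain ⟨t, ht, rfl⟩ := (mem_repS (by fun_prop)).1 hy
      rcases hc s t hs ht with h | h
      · exact Or.inl (fun z hz => mem_sec.2 (h _ (mem_sec.1 hz)))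
      · exact Or.inr (fun z hz => mem_sec.2 (h _ (mem_sec.1 hz)))
  · have key : ∀ f g : M, f ∈ Z → g ∈ Z → MSub (res (sec (sU X) f) ν) (res (sec (sU X) g) ν) := by
      intro f g hf hg z hz
      rw [mem_res, mem_sec, mem_sU] at hz
      obtain ⟨⟨s, hs, hz⟩, hz'⟩ := hz
      have h1 : z ∈ res (sec s f) ν := mem_res.2 ⟨mem_sec.2 hz, hz'⟩
      rw [(mem_St.1 (hX s hs)).2.2 f g hf hg, mem_res, mem_sec] at h1
      rw [mem_res, mem_sec, mem_sU]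
      exact ⟨⟨s, hs, h1.1⟩, h1.2⟩
    exact ext' (fun z => ⟨key f g hf hg z, key g f hg hf z⟩)

/-- families in which all pairs are split -/
theorem level {κ μ ν P A p0 r0 Z s0 : M} {ρ : M → M → M → Prop} (hκ : IsReg κ) (hν : IsOrd ν) (hνμ : MSub ν μ)
    (hρ : RN P (Lv κ μ) ρ)
    (hsp : ∀ p r : M, Ex P (Lv κ μ) p0 r0 p r → ∃ p' r1 r2 a : M, Ex P (Lv κ μ) p r p' r1 ∧ Ex P (Lv κ μ) p r p' r2 ∧
      res r1 ν = res r2 ν ∧ a ∈ A ∧ ρ p' r1 a ∧ Ng P (Lv κ μ) ρ p' r2 a)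
    (hZ : ¬ Le κ (prodS P (prodS Z Z))) (hs0 : s0 ∈ St κ μ ν Z) (hr0 : ∀ f : M, f ∈ Z → MSub r0 (sec s0 f)) :
    ∃ s : M, s ∈ St κ μ ν Z ∧ MSub s0 s ∧ ∀ p f g : M, p ∈ P → MSub p0 p → f ∈ Z → g ∈ Z → f ≠ g →
      ∃ p' a : M, p' ∈ P ∧ MSub p p' ∧ a ∈ A ∧ Opp P (Lv κ μ) ρ p' (sec s f) (sec s g) a := by
  classical
  have hρd := hρ.df
  obtain ⟨s, h1, h2, h3⟩ := seq_tasks (κ := κ) (S := St κ μ ν Z) (T := prodS P (prodS Z Z)) (s0 := s0) (le := fun x y => MSub y x)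
    (by fun_prop) (fun x _ => fun z hz => hz) (fun x y z h h' => MSub.trans' h' h) hκ hZ
    (Φ := fun z s => MSub p0 (fst z) → fst (snd z) ≠ snd (snd z) → ∃ p' a : M, p' ∈ P ∧ MSub (fst z) p' ∧ a ∈ A ∧
      Opp P (Lv κ μ) ρ p' (sec s (fst (snd z))) (sec s (snd (snd z))) a) (by fun_prop) hs0 (by
      intro z s s' hz hs hs' hss h5 h6 h7
      obtain ⟨p', a, h8, h9, h10, h11⟩ := h5 h6 h7
      obtain ⟨p, w, hp, hw, rfl⟩ := mem_prodS.1 hz
      obtain ⟨f, g, hf, hg, rfl⟩ := mem_prodS.1 hw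
      simp only [fst_opair, snd_opair] at *
      refine ⟨p', a, h8, h9, h10, h11.mono hρ ⟨h8, (mem_St.1 hs').2.1 f hf, fun z h => h, fun z hz => ?_⟩
        ⟨h8, (mem_St.1 hs').2.1 g hg, fun z h => h, fun z hz => ?_⟩⟩
      · exact mem_sec.2 (hss _ (mem_sec.1 hz))
      · exact mem_sec.2 (hss _ (mem_sec.1 hz))) (by
      intro z s hz hs hss
      obtain ⟨p, w, hp, hw, rfl⟩ := mem_prodS.1 hz
      obtain ⟨f, g, hf, hg, rfl⟩ := mem_prodS.1 hw
      simp only [fst_opair, snd_opair]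
      by_cases hc : MSub p0 p ∧ f ≠ g
      · obtain ⟨hc1, hc2⟩ := hc
        have hs' := mem_St.1 hs
        have hsub : ∀ f : M, f ∈ Z → MSub r0 (sec s f) := fun f hf => MSub.trans' (hr0 f hf) (fun z hz => mem_sec.2 (hss _ (mem_sec.1 hz)))
        obtain ⟨p', r1, r2, a, e1, e2, e3, e4, e5⟩ := pair_split hκ hν hνμ hρ hsp (p := p) (r1 := sec s f) (r2 := sec s g)
          ⟨hp, hs'.2.1 f hf, hc1, hsub f hf⟩ ⟨hp, hs'.2.1 g hg, hc1, hsub g hg⟩ (hs'.2.2 f g hf hg)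
        have hu : res r1 ν ∈ Lv κ ν := res_mem hν e1.2.1
        have hsu : ∀ h : M, h ∈ Z → MSub (res (sec s h) ν) (res r1 ν) := by
          intro h hh
          rw [hs'.2.2 h f hh hf]
          exact res_mono e1.2.2.2 ν
        let H : M → M := fun h => if h = f then r1 else if h = g then r2 else cup (sec s h) (res r1 ν)
        have hH : DefF M H := DefF.cond (by fun_prop) (by fun_prop) (DefF.cond (by fun_prop) (by fun_prop) (by fun_prop))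
        have Hf : H f = r1 := by simp [H]
        have Hg : H g = r2 := by show (if g = f then r1 else if g = g then r2 else cup (sec s g) (res r1 ν)) = r2; rw [if_neg (Ne.symm hc2), if_pos rfl]
        have Hall : ∀ h : M, h ∈ Z → H h ∈ Lv κ μ ∧ res (H h) ν = res r1 ν ∧ MSub (sec s h) (H h) := by
          intro h hh
          by_cases h1 : h = f
          · subst h1; rw [Hf]; exact ⟨e1.2.1, rfl, e1.2.2.2⟩
          · by_cases h2 : h = g
            · subst h2; rw [Hg]; exact ⟨e2.2.1, e3.symm, e2.2.2.2⟩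
            · have : H h = cup (sec s h) (res r1 ν) := by simp only [H]; rw [if_neg h1, if_neg h2]
              rw [this]
              obtain ⟨m1, m2⟩ := amalg hκ hνμ (hs'.2.1 h hh) hu (hsu h hh)
              exact ⟨m1, m2, fun z hz => mem_cup.2 (Or.inl hz)⟩
        refine ⟨mkS Z H, mkS_mem_St hH (fun h hh => (Hall h hh).1) (fun h k hh hk => by rw [(Hall h hh).2.1, (Hall k hk).2.1]), ?_, ?_⟩
        · intro w hw
          obtain ⟨h, z, hh, rfl⟩ := hs'.1 w hw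
          exact (mem_mkS hH).2 ⟨h, z, hh, (Hall h hh).2.2 z (mem_sec.2 hw), rfl⟩
        · intro _ _
          rw [sec_mkS hH hf, sec_mkS hH hg, Hf, Hg]
          exact ⟨p', a, e1.1, e1.2.2.1, e4, e5⟩
      · exact ⟨s, hs, fun z hz => hz, fun h1 h2 => absurd ⟨h1, h2⟩ hc⟩) (by
      intro X hX _ hch hsm
      exact ⟨sU X, St_chain hκ hX hsm (fun x y hx hy => (hch x y hx hy).symm), fun x hx z hz => mem_sU.2 ⟨x, hx, hz⟩⟩)
  refine ⟨s, h1, h2, fun p f g hp hpp hf hg hfg => ?_⟩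
  have := h3 (opair p (opair f g)) (by simp only [opair_mem_prodS]; exact ⟨hp, hf, hg⟩)
  simp only [fst_opair, snd_opair] at this
  exact this hpp hfg

end

end Pool.Agent.Helper79.Kurepa
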