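import Pool.Agent.Helper79.Kurepa.Fusion

/-!
# Generic extensions by a product of two posets ordered by reverse inclusion
-/

namespace Pool.Agent.Helper79.Kurepa

open Pool.Agent.Helper79.ZF

/-- `N` is a generic extension of `M` by the product of `P` and `R`, both ordered by reverse inclusion. -/
structure GenExt (M N : Type) [Membership M M] [Membership N N] [ZFModel M] (P R : M) where
  j : M → N
  G : N
  inj : Function.Injective j
  mem_j : ∀ {x : M} {z : N}, z ∈ j x ↔ ∃ y : M, y ∈ x ∧ z = j y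
  ords : ∀ z : N, IsOrd z → ∃ y : M, j y = z
  G_sub : ∀ z : N, z ∈ G → ∃ p r : M, p ∈ P ∧ r ∈ R ∧ z = j (opair p r)
  up : ∀ p r p' r' : M, j (opair p' r') ∈ G → p ∈ P → r ∈ R → MSub p p' → MSub r r' → j (opair p r) ∈ G
  dir : ∀ p r p' r' : M, j (opair p r) ∈ G → j (opair p' r') ∈ G → ∃ p'' r'' : M, j (opair p'' r'') ∈ G ∧
    MSub p p'' ∧ MSub r r'' ∧ MSub p' p'' ∧ MSub r' r''
  gen : ∀ E : M → M → Prop, DefP M (fun t : M × M => E t.1 t.2) →
    (∀ p r : M, p ∈ P → r ∈ R → ∃ p' r' : M, Ex P R p r p' r' ∧ E p' r') → ∃ p r : M, j (opair p r) ∈ G ∧ E p r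
  name : ∀ t : N, ∃ ρ : M → M → M → Prop, RN P R ρ ∧ ∀ a : M, j a ∈ t ↔ ∃ p r : M, j (opair p r) ∈ G ∧ ρ p r a
  cover : ∀ t : N, ∃ (D : M) (F : N → N), DefF N F ∧ ∀ z : N, z ∈ t → ∃ d : M, d ∈ D ∧ F (j d) = z

section
variable {M : Type} [Membership M M] [ZFModel M]
variable {α β γ : Type} [Ctx M α] [Ctx M β] [Ctx M γ]

/-- the forcing data of the product -/
noncomputable def pD (P R : M) : FData M where
  P := prodS P R
  A := sing emp
  mon :=
    { mul := fun _ _ => El.mk emp (mem_sing.2 rfl)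
      one := El.mk emp (mem_sing.2 rfl)
      mul_assoc := fun _ _ _ => rfl
      one_mul := fun a => El.ext (mem_sing.1 a.mem).symm
      mul_one := fun a => El.ext (mem_sing.1 a.mem).symm }
  mul_def := by
    show DefF M (fun _ : El (sing (emp : M)) × El (sing (emp : M)) => El.mk (A := sing (emp : M)) emp (mem_sing.2 rfl))
    exact DefF_const _
  V := fun q _ p => MSub (fst p.v) (fst q.v) ∧ MSub (snd p.v) (snd q.v)
  V_def := by fun_prop
  V_one := fun p => ⟨fun _ h => h, fun _ h => h⟩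
  V_mul := fun h h' => ⟨fun z hz => h.1 z (h'.1 z hz), fun z hz => h.2 z (h'.2 z hz)⟩

variable {P R : M}

instance : Subsingleton (pD P R).AA := ⟨fun a b => El.ext ((mem_sing.1 a.mem).trans (mem_sing.1 b.mem).symm)⟩

theorem pren (X : (pD P R).VN) (f : (pD P R).AA) : FData.ren X f = X := Prod.ext rfl (Subsingleton.elim _ _)

theorem pval {C : FData.GChain (pD P R)} (n m : ℕ) (X : (pD P R).VN) : FData.val C n X = FData.val C m X := by
  have key : ∀ n m, n ≤ m → FData.val C n X = FData.val C m X := by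
    intro n m h
    rw [← FData.val_ren h X, pren]
  rcases le_total n m with h | h
  · exact key n m h
  · exact (key m n h).symm

theorem pchk_inj {D : FData M} (x : M) : ∀ (q : D.PP) (y : M) (a b : D.AA), D.FEq q (D.chk x) a (D.chk y) b → x = y := by
  refine mem_induction (R := fun x => ∀ (q : D.PP) (y : M) (a b : D.AA), D.FEq q (D.chk x) a (D.chk y) b → x = y)
    (by fun_prop) ?_ x
  intro x ih q y a b h
  rw [D.FEq_iff] at h
  obtain ⟨h1, h2⟩ := h
  apply ext'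
  intro z
  constructor
  · intro hz
    obtain ⟨s, l, _, σ, e, h3, h4⟩ := h1 q 1 (D.V_one q) (D.chk z) 1 (FData.Elt_chk.2 ⟨z, hz, rfl⟩)
    obtain ⟨z', hz', rfl⟩ := FData.Elt_chk.1 h3
    rw [ih z hz _ _ _ _ h4]; exact hz'
  · intro hz
    obtain ⟨s, l, _, τ, d, h3, h4⟩ := h2 q 1 (D.V_one q) (D.chk z) 1 (FData.Elt_chk.2 ⟨z, hz, rfl⟩)
    obtain ⟨z', hz', rfl⟩ := FData.Elt_chk.1 h3
    rw [← ih z' hz' _ _ _ _ h4]; exact hz'

theorem pjj_inj {D : FData M} {C : FData.GChain D} {x y : M} (h : FData.jj C x = FData.jj C y) : x = y := by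
  unfold FData.jj at h
  rw [FData.val_eq] at h
  obtain ⟨m, _, h⟩ := h
  exact pchk_inj x _ _ _ _ h

theorem pFMem_rank {D : FData M} (τ : M) : ∀ (p : D.PP) (x : M) (a b : D.AA), D.FMem p (D.chk x) a τ b → x ∈ V τ := by
  refine D.dom_induction (R := fun τ => ∀ (p : D.PP) (x : M) (a b : D.AA), D.FMem p (D.chk x) a τ b → x ∈ V τ) (by fun_prop) ?_ τ
  intro τ ih p x a b h
  obtain ⟨s, l, _, σ, e, h1, h2⟩ := h p 1 (D.V_one p)
  apply V_rank τ σ x (D.dom_sub_V h1.dom)
  intro y hy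
  apply ih σ h1.dom s y 1 e
  have h3 : D.FMem s (D.chk y) 1 (D.chk x) (a * 1 * l) := (FData.Elt_chk.2 ⟨y, hy, rfl⟩ : D.Elt s (D.chk y) 1 (D.chk x) _).fmem
  exact h3.congr_right h2

theorem pord {D : FData M} {C : FData.GChain D} (z : FData.Ext C) (hz : IsOrd z) : ∃ y : M, FData.jj C y = z := by
  obtain ⟨n, X, rfl⟩ := FData.exists_val z
  let O : M := sepS (V X.1) IsOrd
  have hO : ∀ y : M, y ∈ O ↔ (y ∈ V X.1 ∧ IsOrd y) := fun y => mem_sepS (by fun_prop)
  have h1 : IsOrd O := by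
    constructor
    · intro y w hy hw
      rw [hO] at hy ⊢
      exact ⟨V_trans _ _ _ hy.1 hw, ord_mem hy.2 hw⟩
    · intro y hy u w hu hw
      rw [hO] at hy
      exact hy.2.1 u w hu hw
  have h2 : ¬ FData.jj C O ∈ FData.val C n X := by
    intro h
    apply mem_irrefl O
    rw [hO]
    refine ⟨?_, h1⟩
    rw [← FData.val_chk n O 1, FData.val_mem] at h
    obtain ⟨m, _, h⟩ := h
    exact pFMem_rank _ _ _ _ _ h
  have h3 : IsOrd (FData.jj C O) := by
    constructor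
    · intro y z hy hz
      obtain ⟨y, hy', rfl⟩ := FData.mem_jj.1 hy
      obtain ⟨z, hz', rfl⟩ := FData.mem_jj.1 hz
      exact FData.mem_jj.2 ⟨z, h1.1 y z hy' hz', rfl⟩
    · intro y hy z w hz hw
      obtain ⟨y, hy', rfl⟩ := FData.mem_jj.1 hy
      obtain ⟨z, hz', rfl⟩ := FData.mem_jj.1 hz
      obtain ⟨w, hw', rfl⟩ := FData.mem_jj.1 hw
      exact FData.mem_jj.2 ⟨w, h1.2 y hy' z w hz' hw', rfl⟩
  rcases ord_trich (FData.jj C O) (FData.val C n X) h3 hz with h | h | h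
  · exact absurd h h2
  · exact ⟨O, h⟩
  · obtain ⟨y, _, h⟩ := FData.mem_jj.1 h
    exact ⟨y, h.symm⟩

/-- a condition as an element of the poset -/
noncomputable def pq {P R : M} (p r : M) (hp : p ∈ P) (hr : r ∈ R) : (pD P R).PP := El.mk (opair p r) (opair_mem_prodS.2 ⟨hp, hr⟩)

theorem pq_cases (q : (pD P R).PP) : ∃ (p r : M) (hp : p ∈ P) (hr : r ∈ R), q = pq p r hp hr := by
  obtain ⟨a, b, ha, hb, h⟩ := mem_prodS.1 q.mem
  exact ⟨a, b, ha, hb, El.ext h⟩

theorem pV_iff {p r p' r' : M} {hp : p ∈ P} {hr : r ∈ R} {hp' : p' ∈ P} {hr' : r' ∈ R} {f : (pD P R).AA} :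
    (pD P R).V (pq p' r' hp' hr') f (pq p r hp hr) ↔ (MSub p p' ∧ MSub r r') := by
  show (MSub (fst (opair p r)) (fst (opair p' r')) ∧ MSub (snd (opair p r)) (snd (opair p' r'))) ↔ _
  rw [fst_opair, fst_opair, snd_opair, snd_opair]

variable {C : FData.GChain (pD P R)}

/-- the name of the generic filter -/
noncomputable def gname (P R : M) : M := (pD P R).mkName (repS (prodS P R) (pD P R).chk)
  (fun q _ τ _ => ∃ p : (pD P R).PP, τ = (pD P R).chk p.v ∧ (pD P R).V q 1 p)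

theorem mem_gname {z : FData.Ext C} : z ∈ FData.val C 0 (gname P R, 1) ↔ ∃ (m : ℕ) (p : (pD P R).PP),
    z = FData.jj C p.v ∧ (pD P R).V (C.p m) 1 p := by
  have hd : DefP M (fun t : (pD P R).PP × ((pD P R).AA × (M × (pD P R).AA)) => ∃ p : (pD P R).PP,
      t.2.2.1 = (pD P R).chk p.v ∧ (pD P R).V t.1 1 p) := by fun_prop
  have hm : ∀ (p q : (pD P R).PP) (f g : (pD P R).AA) (τ : M) (c : (pD P R).AA), (pD P R).V q g p →
      (∃ p' : (pD P R).PP, τ = (pD P R).chk p'.v ∧ (pD P R).V p 1 p') →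
      (∃ p' : (pD P R).PP, τ = (pD P R).chk p'.v ∧ (pD P R).V q 1 p') := by
    rintro p q f g τ c hq ⟨p', h1, h2⟩
    refine ⟨p', h1, ?_⟩
    have := (pD P R).V_mul hq h2
    rwa [Subsingleton.elim (1 * g) (1 : (pD P R).AA)] at this
  rw [FData.mem_val]
  constructor
  · rintro ⟨m, _, Z, h1, rfl⟩
    unfold gname at h1
    rw [FData.NElt_mkName hd hm] at h1
    obtain ⟨_, p, h2, h3⟩ := h1
    refine ⟨m, p, ?_, h3⟩
    have : Z = ((pD P R).chk p.v, Z.2) := Prod.ext h2 rfl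
    rw [this]
    exact FData.val_chk m p.v Z.2
  · rintro ⟨m, p, rfl, h⟩
    refine ⟨m, Nat.zero_le m, ((pD P R).chk p.v, 1), ?_, (FData.val_chk _ _ _).symm⟩
    unfold gname
    rw [FData.NElt_mkName hd hm]
    exact ⟨(mem_repS (by fun_prop)).2 ⟨p.v, p.mem, rfl⟩, p, rfl, h⟩

theorem jj_mem_gname {q : (pD P R).PP} : FData.jj C q.v ∈ FData.val C 0 (gname P R, 1) ↔ ∃ m : ℕ, (pD P R).V (C.p m) 1 q := by
  rw [mem_gname]
  constructor
  · rintro ⟨m, p, h1, h2⟩
    have : q = p := El.ext (pjj_inj h1)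
    rw [this]; exact ⟨m, h2⟩
  · rintro ⟨m, h⟩; exact ⟨m, q, rfl, h⟩

variable (D : FData M) in
/-- name of an ordered pair -/
noncomputable def opn (x y : M) : M := D.fullName (upair (D.fullName (upair x x)) (D.fullName (upair x y)))

@[fun_prop]
theorem opn_def {D : FData M} {x y : α → M} (hx : DefF M x) (hy : DefF M y) : DefF M (fun a => opn D (x a) (y a)) := by
  unfold opn; fun_prop

theorem mem_full' {z : FData.Ext C} {n : ℕ} {D0 : M} {a : (pD P R).AA} :
    z ∈ FData.val C n ((pD P R).fullName D0, a) ↔ ∃ x : M, x ∈ D0 ∧ z = FData.val C 0 (x, 1) := by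
  rw [FData.mem_full]
  constructor
  · rintro ⟨m, _, Z, h1, rfl⟩
    refine ⟨Z.1, h1, ?_⟩
    rw [pval m 0]
    congr 1
    exact Prod.ext rfl (Subsingleton.elim _ _)
  · rintro ⟨x, hx, rfl⟩
    exact ⟨n, le_refl _, (x, 1), hx, pval _ _ _⟩

theorem val_opn (n : ℕ) (x y : M) (a : (pD P R).AA) : FData.val C n (opn (pD P R) x y, a) =
    opair (FData.val C 0 (x, 1)) (FData.val C 0 (y, 1)) := by
  have key : ∀ u v : M, FData.val C 0 ((pD P R).fullName (upair u v), 1) = upair (FData.val C 0 (u, 1)) (FData.val C 0 (v, 1)) := by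
    intro u v
    apply ext'
    intro z
    rw [mem_full', mem_upair]
    constructor
    · rintro ⟨w, hw, rfl⟩
      rcases mem_upair.1 hw with rfl | rfl
      · exact Or.inl rfl
      · exact Or.inr rfl
    · rintro (rfl | rfl)
      · exact ⟨u, by simp, rfl⟩
      · exact ⟨v, by simp, rfl⟩
  have h1 : FData.val C n (opn (pD P R) x y, a) = FData.val C 0 (opn (pD P R) x y, 1) := by
    rw [pval n 0]
    congr 1
    exact Prod.ext rfl (Subsingleton.elim _ _)
  rw [h1]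
  unfold opn opair
  rw [key, key, key]
  rfl

/-- the generic extension -/
noncomputable def genExt (C : FData.GChain (pD P R)) : GenExt M (FData.Ext C) P R where
  j := FData.jj C
  G := FData.val C 0 (gname P R, 1)
  inj := fun _ _ h => pjj_inj h
  mem_j := FData.mem_jj
  ords := pord
  G_sub := by
    intro z hz
    obtain ⟨m, q, rfl, _⟩ := mem_gname.1 hz
    obtain ⟨p, r, hp, hr, rfl⟩ := pq_cases q
    exact ⟨p, r, hp, hr, rfl⟩
  up := by
    intro p r p' r' h hp hr h1 h2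
    obtain ⟨m, q, h3, h4⟩ := mem_gname.1 h
    obtain ⟨p1, r1, hp1, hr1, rfl⟩ := pq_cases q
    have h5 : opair p' r' = opair p1 r1 := pjj_inj h3
    rw [opair_inj] at h5
    obtain ⟨rfl, rfl⟩ := h5
    have : FData.jj C (pq p r hp hr).v ∈ FData.val C 0 (gname P R, 1) := by
      rw [jj_mem_gname]
      refine ⟨m, ?_⟩
      have h6 := (pD P R).V_mul h4 (pV_iff (hp := hp) (hr := hr) (f := 1).2 ⟨h1, h2⟩)
      rwa [Subsingleton.elim (1 * 1) (1 : (pD P R).AA)] at h6
    exact this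
  dir := by
    intro p r p' r' h h'
    obtain ⟨m, q, h3, h4⟩ := mem_gname.1 h
    obtain ⟨m', q', h3', h4'⟩ := mem_gname.1 h'
    obtain ⟨p1, r1, hp1, hr1, rfl⟩ := pq_cases q
    obtain ⟨p2, r2, hp2, hr2, rfl⟩ := pq_cases q'
    have h5 : opair p r = opair p1 r1 := pjj_inj h3
    have h6 : opair p' r' = opair p2 r2 := pjj_inj h3'
    rw [opair_inj] at h5 h6
    obtain ⟨rfl, rfl⟩ := h5
    obtain ⟨rfl, rfl⟩ := h6
    have k1 := (pD P R).V_mul (C.hV m (max m m') (le_max_left _ _)) h4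
    have k2 := (pD P R).V_mul (C.hV m' (max m m') (le_max_right _ _)) h4'
    obtain ⟨p3, r3, hp3, hr3, h7⟩ := pq_cases (C.p (max m m'))
    rw [h7] at k1 k2
    rw [pV_iff] at k1 k2
    refine ⟨p3, r3, ?_, k1.1, k1.2, k2.1, k2.2⟩
    have : FData.jj C (pq p3 r3 hp3 hr3).v ∈ FData.val C 0 (gname P R, 1) := by
      rw [jj_mem_gname]
      exact ⟨max m m', by rw [h7]; exact (pD P R).V_one _⟩
    exact this
  gen := by
    intro E hE h
    obtain ⟨m, _, h1⟩ := C.gen 0 (fun q _ => ∃ p r : M, q.v = opair p r ∧ E p r) (by fun_prop) (by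
      intro q g _
      obtain ⟨p, r, hp, hr, rfl⟩ := pq_cases q
      obtain ⟨p', r', ⟨hp', hr', h1, h2⟩, h3⟩ := h p r hp hr
      exact ⟨pq p' r' hp' hr', 1, pV_iff.2 ⟨h1, h2⟩, p', r', rfl, h3⟩)
    obtain ⟨p, r, h2, h3⟩ := h1
    refine ⟨p, r, ?_, h3⟩
    rw [← h2, jj_mem_gname]
    exact ⟨m, (pD P R).V_one _⟩
  name := by
    intro t
    obtain ⟨n, X, rfl⟩ := FData.exists_val t
    rw [pval n 0]
    refine ⟨fun p r a => ∃ q : (pD P R).PP, q.v = opair p r ∧ FData.NMem q ((pD P R).chk a, 1) X, ⟨by fun_prop, ?_, ?_⟩, ?_⟩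
    · rintro p r a p' r' ⟨hp', hr', h1, h2⟩ ⟨q, hq, h3⟩
      obtain ⟨p1, r1, hp1, hr1, rfl⟩ := pq_cases q
      have h5 : opair p1 r1 = opair p r := hq
      rw [opair_inj] at h5
      obtain ⟨rfl, rfl⟩ := h5
      refine ⟨pq p' r' hp' hr', rfl, ?_⟩
      have := h3.mono (pV_iff (hp' := hp') (hr' := hr') (f := 1).2 ⟨h1, h2⟩)
      rwa [pren, pren] at this
    · intro p r a hp hr h
      refine ⟨pq p r hp hr, rfl, ?_⟩
      apply FData.NMem.dense
      intro q f hq
      obtain ⟨p', r', hp', hr', rfl⟩ := pq_cases q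
      rw [pV_iff] at hq
      obtain ⟨p'', r'', ⟨_, _, h3, h4⟩, q, h5, h6⟩ := h p' r' ⟨hp', hr', hq.1, hq.2⟩
      refine ⟨q, 1, ?_, ?_⟩
      · obtain ⟨p1, r1, hp1, hr1, rfl⟩ := pq_cases q
        have h5 : opair p1 r1 = opair p'' r'' := h5
        rw [opair_inj] at h5
        obtain ⟨rfl, rfl⟩ := h5
        exact pV_iff.2 ⟨h3, h4⟩
      · simp only [pren]; exact h6
    · intro a
      rw [← FData.val_chk 0 a 1, FData.val_mem]
      constructor
      · rintro ⟨m, _, h⟩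
        rw [pren, pren] at h
        obtain ⟨p, r, hp, hr, h1⟩ := pq_cases (C.p m)
        refine ⟨p, r, ?_, C.p m, by rw [h1]; rfl, h⟩
        have : opair p r = (C.p m).v := by rw [h1]; rfl
        rw [this, jj_mem_gname]
        exact ⟨m, (pD P R).V_one _⟩
      · rintro ⟨p, r, h1, q, h2, h3⟩
        rw [← h2, jj_mem_gname] at h1
        obtain ⟨m, h1⟩ := h1
        refine ⟨m, Nat.zero_le m, ?_⟩
        have := h3.mono h1
        rw [pren, pren] at this ⊢
        exact this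
  cover := by
    intro t
    obtain ⟨n, X, rfl⟩ := FData.exists_val t
    let T : FData.Ext C := FData.val C 0 ((pD P R).fullName (repS ((pD P R).dom X.1) (fun d => opn (pD P R) ((pD P R).chk d) d)), 1)
    have hT : ∀ z : FData.Ext C, z ∈ T ↔ ∃ d : M, d ∈ (pD P R).dom X.1 ∧ z = opair (FData.jj C d) (FData.val C 0 (d, 1)) := by
      intro z
      simp only [T]
      rw [mem_full']
      constructor
      · rintro ⟨x, hx, rfl⟩
        obtain ⟨d, hd, rfl⟩ := (mem_repS (by fun_prop)).1 hx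
        exact ⟨d, hd, by rw [val_opn, FData.val_chk]⟩
      · rintro ⟨d, hd, rfl⟩
        exact ⟨_, (mem_repS (by fun_prop)).2 ⟨d, hd, rfl⟩, by rw [val_opn, FData.val_chk]⟩
    refine ⟨(pD P R).dom X.1, app T, by fun_prop, fun z hz => ?_⟩
    obtain ⟨m, _, Z, h1, rfl⟩ := FData.mem_val.1 hz
    refine ⟨Z.1, h1.dom, ?_⟩
    have e : FData.val C m Z = FData.val C 0 (Z.1, 1) := by
      rw [pval m 0]
      congr 1
      exact Prod.ext rfl (Subsingleton.elim _ _)
    rw [e]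
    apply app_eq
    · rw [hT]; exact ⟨Z.1, h1.dom, rfl⟩
    · intro y' hy'
      rw [hT] at hy'
      obtain ⟨d, _, h2⟩ := hy'
      rw [opair_inj] at h2
      rw [h2.2, pjj_inj h2.1]

/-- generic extensions of countable models exist -/
theorem exists_genExt [Countable M] (P R : M) (hP : ∃ p : M, p ∈ P) (hR : ∃ r : M, r ∈ R) :
    ∃ (N : Type) (_ : Membership N N) (_ : ZFModel N), Nonempty (GenExt M N P R) := by
  obtain ⟨p, hp⟩ := hP
  obtain ⟨r, hr⟩ := hR
  obtain ⟨C, _⟩ := FData.exists_GChain (pD P R) (pq p r hp hr)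
  exact ⟨FData.Ext C, inferInstance, inferInstance, ⟨genExt C⟩⟩

end

end Pool.Agent.Helper79.Kurepa
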