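import Pool.Agent.Helper79.Kurepa.Card

/-!
# Levy collapse conditions inside a model of ZFC
-/

namespace Pool.Agent.Helper79.Kurepa

open Pool.Agent.Helper79.ZF

section
variable {M : Type} [Membership M M] [ZFCM M]
variable {α β γ : Type} [Ctx M α] [Ctx M β] [Ctx M γ]

theorem IsReg.cup {κ A B : M} (hκ : IsReg κ) (hA : ¬ Le κ A) (hB : ¬ Le κ B) : ¬ Le κ (ZF.cup A B) := by
  intro hle
  obtain ⟨f, hf, h1, h2⟩ := hle.fn
  have key : ∀ C : M, ¬ Le κ C → ∃ b : M, b ∈ κ ∧ ∀ y : M, y ∈ κ → f y ∈ C → ¬ b ∈ y := by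
    intro C hC
    by_contra hcon
    push Not at hcon
    apply hC
    have h3 : Le κ (sepS κ (fun y => f y ∈ C)) := by
      apply hκ.reg
      · intro z hz; exact ((mem_sepS (by fun_prop)).1 hz).1
      · intro x hx
        obtain ⟨y, hy, hy', hy''⟩ := hcon x hx
        exact ⟨y, (mem_sepS (by fun_prop)).2 ⟨hy, hy'⟩, hy''⟩
    refine h3.trans (Le.of f hf (fun x hx => ((mem_sepS (by fun_prop)).1 hx).2) (fun x y hx hy hxy => ?_))
    exact h2 x y ((mem_sepS (by fun_prop)).1 hx).1 ((mem_sepS (by fun_prop)).1 hy).1 hxy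
  obtain ⟨a, ha, ha'⟩ := key A hA
  obtain ⟨b, hb, hb'⟩ := key B hB
  have hm := ord_cup_mem hκ.ord ha hb
  have hsm := hκ.succ _ hm
  have hos := ord_mem hκ.ord hsm
  have aux : ∀ c : M, c ∈ κ → MSub c (ZF.cup a b) → c ∈ suc (ZF.cup a b) := by
    intro c hc h
    rcases ord_trich c (ZF.cup a b) (ord_mem hκ.ord hc) (ord_mem hκ.ord hm) with h' | h' | h'
    · exact mem_suc.2 (Or.inl h')
    · exact mem_suc.2 (Or.inr h')
    · exact absurd (h _ h') (mem_irrefl _)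
  rcases mem_cup.1 (h1 _ hsm) with h3 | h3
  · exact ha' _ hsm h3 (aux a ha (fun z hz => mem_cup.2 (Or.inl hz)))
  · exact hb' _ hsm h3 (aux b hb (fun z hz => mem_cup.2 (Or.inr hz)))

/-- a set smaller than a regular cardinal and contained in it has its union in it -/
theorem IsReg.sup {κ S : M} (hκ : IsReg κ) (hS : MSub S κ) (h : ¬ Le κ S) : sU S ∈ κ := by
  by_contra hcon
  apply h
  apply hκ.reg S hS
  intro x hx
  have ho : IsOrd (sU S) := ord_sU (fun y hy => ord_mem hκ.ord (hS y hy))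
  have h1 : MSub κ (sU S) := (ord_cases ho hκ.ord).resolve_left hcon
  obtain ⟨y, hy, hxy⟩ := mem_sU.1 (h1 x hx)
  exact ⟨y, hy, hxy⟩

theorem IsReg.card {κ : M} (hκ : IsReg κ) : IsCard κ := ⟨hκ.ord, hκ.init⟩

theorem IsReg.om_sub {κ : M} (hκ : IsReg κ) : MSub (om M) κ := by
  intro n hn
  exact om_induction (R := fun n => n ∈ κ) (by fun_prop) hκ.zero (fun n _ h => hκ.succ n h) hn

theorem IsReg.inf {κ : M} (hκ : IsReg κ) : Le (om M) κ := Le.of_sub hκ.om_sub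

/-- Levy collapse conditions below `ν`: small sets of triples `((x, i), y)` with `y ∈ x ∈ ν` and `i ∈ κ` that form
a function of `(x, i)`. -/
noncomputable def Lv (κ ν : M) : M := sepS (pow (prodS (prodS ν κ) ν)) (fun c =>
  (∀ x i y : M, opair (opair x i) y ∈ c → y ∈ x) ∧
  (∀ x i y z : M, opair (opair x i) y ∈ c → opair (opair x i) z ∈ c → y = z) ∧ ¬ Le κ c)

@[fun_prop]
theorem Lv_def {f g : α → M} (hf : DefF M f) (hg : DefF M g) : DefF M (fun a => Lv (f a) (g a)) := by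
  unfold Lv; fun_prop

theorem mem_Lv {κ ν c : M} : c ∈ Lv κ ν ↔ (∀ z : M, z ∈ c → ∃ x i y : M, x ∈ ν ∧ i ∈ κ ∧ y ∈ ν ∧ z = opair (opair x i) y) ∧
    (∀ x i y : M, opair (opair x i) y ∈ c → y ∈ x) ∧
    (∀ x i y z : M, opair (opair x i) y ∈ c → opair (opair x i) z ∈ c → y = z) ∧ ¬ Le κ c := by
  unfold Lv
  rw [mem_sepS (by fun_prop), mem_pow]
  refine and_congr ?_ Iff.rfl
  constructor
  · intro h z hz
    obtain ⟨a, b, ha, hb, rfl⟩ := mem_prodS.1 (h z hz)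
    obtain ⟨c, d, hc, hd, rfl⟩ := mem_prodS.1 ha
    exact ⟨c, d, b, hc, hd, hb, rfl⟩
  · intro h z hz
    obtain ⟨x, i, y, hx, hi, hy, rfl⟩ := h z hz
    simp only [opair_mem_prodS]
    exact ⟨⟨hx, hi⟩, hy⟩

/-- restriction of a condition -/
noncomputable def res (c ν : M) : M := sepS c (fun z => fst (fst z) ∈ ν)

@[fun_prop]
theorem res_def {f g : α → M} (hf : DefF M f) (hg : DefF M g) : DefF M (fun a => res (f a) (g a)) := by
  unfold res; fun_prop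

theorem mem_res {c ν z : M} : z ∈ res c ν ↔ (z ∈ c ∧ fst (fst z) ∈ ν) := mem_sepS (by fun_prop)

theorem mem_res' {c ν x i y : M} : opair (opair x i) y ∈ res c ν ↔ (opair (opair x i) y ∈ c ∧ x ∈ ν) := by
  rw [mem_res, fst_opair, fst_opair]

theorem res_sub (c ν : M) : MSub (res c ν) c := fun _ hz => (mem_res.1 hz).1

theorem res_mono {c d : M} (h : MSub c d) (ν : M) : MSub (res c ν) (res d ν) :=
  fun z hz => mem_res.2 ⟨h z (mem_res.1 hz).1, (mem_res.1 hz).2⟩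

theorem small_sub {κ c d : M} (h : ¬ Le κ c) (hd : MSub d c) : ¬ Le κ d := fun h' => h (h'.trans (Le.of_sub hd))

theorem emp_mem_Lv {κ ν : M} (hκ : IsReg κ) : emp ∈ Lv κ ν := by
  rw [mem_Lv]
  exact ⟨fun z hz => absurd hz (not_mem_emp z), fun x i y h => absurd h (not_mem_emp _),
    fun x i y z h => absurd h (not_mem_emp _), hκ.init _ hκ.zero⟩

theorem Lv_sub {κ ν c d : M} (h : c ∈ Lv κ ν) (hd : MSub d c) : d ∈ Lv κ ν := by
  rw [mem_Lv] at h ⊢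
  exact ⟨fun z hz => h.1 z (hd z hz), fun x i y h' => h.2.1 x i y (hd _ h'),
    fun x i y z h' h'' => h.2.2.1 x i y z (hd _ h') (hd _ h''), small_sub h.2.2.2 hd⟩

theorem Lv_mono {κ ν ν' : M} (h : MSub ν ν') : MSub (Lv κ ν) (Lv κ ν') := by
  intro c hc
  rw [mem_Lv] at hc ⊢
  refine ⟨fun z hz => ?_, hc.2⟩
  obtain ⟨x, i, y, h1, h2, h3, h4⟩ := hc.1 z hz
  exact ⟨x, i, y, h _ h1, h2, h _ h3, h4⟩

theorem res_mem {κ μ ν c : M} (hν : IsOrd ν) (h : c ∈ Lv κ μ) : res c ν ∈ Lv κ ν := by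
  have h' := mem_Lv.1 (Lv_sub h (res_sub c ν))
  rw [mem_Lv]
  refine ⟨fun z hz => ?_, h'.2⟩
  obtain ⟨x, i, y, h1, h2, h3, h4⟩ := h'.1 z hz
  subst h4
  have h5 : x ∈ ν := (mem_res'.1 hz).2
  exact ⟨x, i, y, h5, h2, hν.1 x y h5 (h'.2.1 x i y hz), rfl⟩

theorem mem_Lv_of_res {κ μ ν c : M} (hν : IsOrd ν) (h : c ∈ Lv κ μ) (h' : ∀ z : M, z ∈ c → fst (fst z) ∈ ν) : c ∈ Lv κ ν := by
  have : res c ν = c := ext' (fun z => by rw [mem_res]; exact ⟨fun h => h.1, fun h => ⟨h, h' z h⟩⟩)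
  rw [← this]; exact res_mem hν h

theorem res_eq_self {κ ν c : M} (h : c ∈ Lv κ ν) : res c ν = c := by
  apply ext'
  intro z
  rw [mem_res]
  refine ⟨fun h => h.1, fun hz => ⟨hz, ?_⟩⟩
  obtain ⟨x, i, y, h1, _, _, rfl⟩ := (mem_Lv.1 h).1 z hz
  rw [fst_opair, fst_opair]; exact h1

/-- compatible conditions -/
theorem cup_mem_Lv {κ μ c d : M} (hκ : IsReg κ) (hc : c ∈ Lv κ μ) (hd : d ∈ Lv κ μ)
    (h : ∀ x i y z : M, opair (opair x i) y ∈ c → opair (opair x i) z ∈ d → y = z) : cup c d ∈ Lv κ μ := by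
  have hc' := mem_Lv.1 hc
  have hd' := mem_Lv.1 hd
  rw [mem_Lv]
  refine ⟨fun z hz => ?_, fun x i y hy => ?_, fun x i y z hy hz => ?_, hκ.cup hc'.2.2.2 hd'.2.2.2⟩
  · rcases mem_cup.1 hz with h1 | h1
    · exact hc'.1 z h1
    · exact hd'.1 z h1
  · rcases mem_cup.1 hy with h1 | h1
    · exact hc'.2.1 x i y h1
    · exact hd'.2.1 x i y h1
  · rcases mem_cup.1 hy with h1 | h1 <;> rcases mem_cup.1 hz with h2 | h2
    · exact hc'.2.2.1 x i y z h1 h2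
    · exact h x i y z h1 h2
    · exact (h x i z y h2 h1).symm
    · exact hd'.2.2.1 x i y z h1 h2

/-- a condition below `ν` extending the restriction to `ν` of a condition is compatible with it -/
theorem amalg {κ μ ν c u : M} (hκ : IsReg κ) (hνμ : MSub ν μ) (hc : c ∈ Lv κ μ) (hu : u ∈ Lv κ ν)
    (h : MSub (res c ν) u) : cup c u ∈ Lv κ μ ∧ res (cup c u) ν = u := by
  have hu' := mem_Lv.1 hu
  have hun : ∀ x i y : M, opair (opair x i) y ∈ u → x ∈ ν := by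
    intro x i y h1
    obtain ⟨x', i', y', h2, _, _, h3⟩ := hu'.1 _ h1
    simp only [opair_inj] at h3
    rw [h3.1.1]; exact h2
  refine ⟨cup_mem_Lv hκ hc (Lv_mono hνμ _ hu) (fun x i y z h1 h2 => ?_), ?_⟩
  · exact hu'.2.2.1 x i y z (h _ (mem_res'.2 ⟨h1, hun x i z h2⟩)) h2
  · apply ext'
    intro z
    rw [mem_res, mem_cup]
    constructor
    · rintro ⟨h1 | h1, h2⟩
      · exact h z (mem_res.2 ⟨h1, h2⟩)
      · exact h1
    · intro h1
      refine ⟨Or.inr h1, ?_⟩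
      have := res_eq_self hu
      rw [← this] at h1
      exact (mem_res.1 h1).2

/-- unions of small chains of conditions -/
theorem chain_mem_Lv {κ μ X : M} (hκ : IsReg κ) (hX : MSub X (Lv κ μ)) (hs : ¬ Le κ X)
    (hc : ∀ x y : M, x ∈ X → y ∈ X → MSub x y ∨ MSub y x) : sU X ∈ Lv κ μ := by
  rw [mem_Lv]
  refine ⟨fun z hz => ?_, fun x i y hy => ?_, fun x i y z hy hz => ?_, ?_⟩
  · obtain ⟨w, hw, hz⟩ := mem_sU.1 hz
    exact (mem_Lv.1 (hX w hw)).1 z hz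
  · obtain ⟨w, hw, hy⟩ := mem_sU.1 hy
    exact (mem_Lv.1 (hX w hw)).2.1 x i y hy
  · obtain ⟨w, hw, hy⟩ := mem_sU.1 hy
    obtain ⟨w', hw', hz⟩ := mem_sU.1 hz
    rcases hc w w' hw hw' with h | h
    · exact (mem_Lv.1 (hX w' hw')).2.2.1 x i y z (h _ hy) hz
    · exact (mem_Lv.1 (hX w hw)).2.2.1 x i y z hy (h _ hz)
  · have h1 := hκ.union hs (F := fun x => x) (by fun_prop) (fun w hw => (mem_Lv.1 (hX w hw)).2.2.2)
    have h2 : repS X (fun x => x) = X := ext' (fun z => by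
      rw [mem_repS (by fun_prop)]
      exact ⟨fun ⟨w, hw, h⟩ => by rw [h]; exact hw, fun h => ⟨z, h, rfl⟩⟩)
    rwa [h2] at h1

/-- a condition is below some `ν` -/
theorem exists_Lv {κ μ c : M} (hμ : IsReg μ) (hκμ : ¬ Le μ κ) (hc : c ∈ Lv κ μ) : ∃ ν : M, ν ∈ μ ∧ c ∈ Lv κ ν := by
  have hc' := mem_Lv.1 hc
  -- the set of first coordinates
  let S : M := repS c (fun z => suc (fst (fst z)))
  have hS : MSub S μ := by
    intro w hw
    obtain ⟨z, hz, rfl⟩ := (mem_repS (by fun_prop)).1 hw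
    obtain ⟨x, i, y, h1, _, _, rfl⟩ := hc'.1 z hz
    rw [fst_opair, fst_opair]; exact hμ.succ x h1
  have hs : ¬ Le μ S := by
    intro h
    have h1 : Le μ c := h.trans (le_repS (by fun_prop))
    rcases le_total' κ c with h2 | h2
    · exact hc'.2.2.2 h2
    · exact hκμ (h1.trans h2)
  refine ⟨sU S, hμ.sup hS hs, mem_Lv_of_res (ord_mem hμ.ord (hμ.sup hS hs)) hc (fun z hz => ?_)⟩
  exact mem_sU.2 ⟨_, (mem_repS (by fun_prop)).2 ⟨z, hz, rfl⟩, mem_suc.2 (Or.inr rfl)⟩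

theorem Lv_small {κ μ ν : M} (hμ : IsInac μ) (hκμ : κ ∈ μ) (hν : ν ∈ μ) : ¬ Le μ (Lv κ ν) := by
  have h1 : ¬ Le μ (pow (prodS (prodS ν κ) ν)) :=
    hμ.lim _ (hμ.reg.prod (hμ.reg.prod (hμ.reg.init _ hν) (hμ.reg.init _ hκμ)) (hμ.reg.init _ hν))
  refine small_sub h1 (fun z hz => ?_)
  unfold Lv at hz
  exact ((mem_sepS (by fun_prop)).1 hz).1

theorem Lv_le {κ μ : M} (hμ : IsInac μ) (hκμ : κ ∈ μ) : Le (Lv κ μ) μ := by
  have h1 : Le (sU (repS μ (fun ν => Lv κ ν))) μ :=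
    union_le (by fun_prop) hμ.reg.inf (Le.refl μ) (fun ν hν => le_of_not (Lv_small hμ hκμ hν))
  refine (Le.of_sub (fun c hc => ?_)).trans h1
  obtain ⟨ν, hν, h2⟩ := exists_Lv hμ.reg (hμ.reg.init _ hκμ) hc
  exact mem_sU.2 ⟨_, (mem_repS (by fun_prop)).2 ⟨ν, hν, rfl⟩, h2⟩

/-- the closing-off lemma -/
theorem closing {κ μ A ν0 : M} (hκ : IsReg κ) (hμ : IsInac μ) (hκμ : κ ∈ μ) (hA : ¬ Le μ A) (hν0 : ν0 ∈ μ)
    {Φ : M → M → M → Prop} (hΦ : DefP M (fun t : M × (M × M) => Φ t.1 t.2.1 t.2.2)) :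
    ∃ ν : M, ν ∈ μ ∧ MSub ν0 ν ∧ ∀ c a : M, c ∈ Lv κ ν → a ∈ A → (∃ c' : M, c' ∈ Lv κ μ ∧ Φ c a c') →
      ∃ c' : M, c' ∈ Lv κ ν ∧ Φ c a c' := by
  have hκμ' : ¬ Le μ κ := hμ.reg.init _ hκμ
  -- one step
  have step : ∀ ν : M, ν ∈ μ → ∃ ν' : M, ν' ∈ μ ∧ ∀ c a : M, c ∈ Lv κ ν → a ∈ A → (∃ c' : M, c' ∈ Lv κ μ ∧ Φ c a c') →
      ∃ c' : M, c' ∈ Lv κ ν' ∧ Φ c a c' := by
    intro ν hν
    obtain ⟨n, hn, hn'⟩ := choice (R := fun z w => w ∈ μ ∧ ((∃ c' : M, c' ∈ Lv κ μ ∧ Φ (fst z) (snd z) c') →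
      ∃ c' : M, c' ∈ Lv κ w ∧ Φ (fst z) (snd z) c')) (by fun_prop) (prodS (Lv κ ν) A) (by
      intro z hz
      by_cases h : ∃ c' : M, c' ∈ Lv κ μ ∧ Φ (fst z) (snd z) c'
      · obtain ⟨c', h1, h2⟩ := h
        obtain ⟨w, hw, hw'⟩ := exists_Lv hμ.reg hκμ' h1
        exact ⟨w, hw, fun _ => ⟨c', hw', h2⟩⟩
      · exact ⟨ν0, hν0, fun h' => absurd h' h⟩)
    have hS : MSub (repS (prodS (Lv κ ν) A) n) μ := by
      intro w hw
      obtain ⟨z, hz, rfl⟩ := (mem_repS hn).1 hw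
      exact (hn' z hz).1
    have hs : ¬ Le μ (repS (prodS (Lv κ ν) A) n) := fun h =>
      hμ.reg.prod (Lv_small hμ hκμ hν) hA (h.trans (le_repS hn))
    refine ⟨_, hμ.reg.sup hS hs, fun c a hc ha hex => ?_⟩
    have hz : opair c a ∈ prodS (Lv κ ν) A := opair_mem_prodS.2 ⟨hc, ha⟩
    have h1 := (hn' _ hz).2
    rw [fst_opair, snd_opair] at h1
    obtain ⟨c', h2, h3⟩ := h1 hex
    refine ⟨c', Lv_mono (fun x hx => ?_) _ h2, h3⟩
    exact mem_sU.2 ⟨_, (mem_repS hn).2 ⟨_, hz, rfl⟩, hx⟩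
  obtain ⟨g, hg, hg'⟩ := choice (R := fun ν ν' => ν' ∈ μ ∧ ∀ c a : M, c ∈ Lv κ ν → a ∈ A →
      (∃ c' : M, c' ∈ Lv κ μ ∧ Φ c a c') → ∃ c' : M, c' ∈ Lv κ ν' ∧ Φ c a c') (by fun_prop) μ step
  -- iterate
  let G : M → M → M := fun i f => cup ν0 (sU (repS i (fun k => g (app f k))))
  have hG : DefF M (fun p : M × M => G p.1 p.2) := by simp only [G]; fun_prop
  let N : M → M := memRec G
  have hN : DefF M N := by simp only [N]; fun_prop
  have hrec : ∀ i : M, N i = cup ν0 (sU (repS i (fun k => g (N k)))) := by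
    intro i
    show memRec G i = _
    rw [memRec_eq hG]
    show cup ν0 (sU _) = _
    congr 2
    apply ext'
    intro z
    rw [mem_repS (by fun_prop), mem_repS (by fun_prop)]
    constructor
    · rintro ⟨k, hk, h⟩; exact ⟨k, hk, by rw [h, app_lam hN hk]⟩
    · rintro ⟨k, hk, h⟩; exact ⟨k, hk, by rw [h, app_lam hN hk]⟩
  have supm : ∀ I : M, ¬ Le μ I → (∀ k : M, k ∈ I → g (N k) ∈ μ) → cup ν0 (sU (repS I (fun k => g (N k)))) ∈ μ := by
    intro I hI h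
    apply ord_cup_mem hμ.reg.ord hν0
    apply hμ.reg.sup
    · intro w hw
      obtain ⟨k, hk, rfl⟩ := (mem_repS (by fun_prop)).1 hw
      exact h k hk
    · exact fun h' => hI (h'.trans (le_repS (by fun_prop)))
  have hNμ : ∀ i : M, i ∈ κ → N i ∈ μ := by
    have : ∀ i : M, i ∈ κ → N i ∈ μ := by
      intro i
      refine mem_induction (R := fun i => i ∈ κ → N i ∈ μ) (by fun_prop) ?_ i
      intro i ih hi
      rw [hrec]
      apply supm
      · exact hμ.reg.init _ (hμ.reg.ord.1 κ i hκμ hi)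
      · intro k hk
        exact (hg' _ (ih k hk (hκ.ord.1 i k hi hk))).1
    exact this
  have hgN : ∀ i : M, i ∈ κ → g (N i) ∈ μ := fun i hi => (hg' _ (hNμ i hi)).1
  refine ⟨cup ν0 (sU (repS κ (fun k => g (N k)))), supm κ hκμ' hgN, fun x hx => mem_cup.2 (Or.inl hx), ?_⟩
  intro c a hc ha hex
  have hc' := mem_Lv.1 hc
  -- stages of the elements of `c`
  obtain ⟨s, hs, hs'⟩ := choice (R := fun z i => i ∈ κ ∧ (fst (fst z) ∈ ν0 ∨ fst (fst z) ∈ g (N i))) (by fun_prop) c (by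
    intro z hz
    obtain ⟨x, i, y, h1, h2, _, rfl⟩ := hc'.1 z hz
    rw [fst_opair, fst_opair]
    rcases mem_cup.1 h1 with h3 | h3
    · exact ⟨emp, hκ.zero, Or.inl h3⟩
    · obtain ⟨w, hw, h4⟩ := mem_sU.1 h3
      obtain ⟨k, hk, rfl⟩ := (mem_repS (by fun_prop)).1 hw
      exact ⟨k, hk, Or.inr h4⟩)
  have hb : sU (repS c s) ∈ κ := by
    apply hκ.sup
    · intro w hw
      obtain ⟨z, hz, rfl⟩ := (mem_repS hs).1 hw
      exact (hs' z hz).1
    · exact fun h => hc'.2.2.2 (h.trans (le_repS hs))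
  set b := sU (repS c s) with hbdef
  have hsb := hκ.succ b hb
  have hcN : c ∈ Lv κ (N (suc b)) := by
    have hoN : IsOrd (N (suc b)) := ord_mem hμ.reg.ord (hNμ _ hsb)
    have hcμ : c ∈ Lv κ μ := Lv_mono (ord_sub hμ.reg.ord (supm κ hκμ' hgN)) _ hc
    apply mem_Lv_of_res hoN hcμ
    intro z hz
    rw [hrec, mem_cup]
    rcases (hs' z hz).2 with h1 | h1
    · exact Or.inl h1
    · right
      refine mem_sU.2 ⟨_, (mem_repS (by fun_prop)).2 ⟨s z, ?_, rfl⟩, h1⟩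
      have hos := ord_mem hκ.ord (hs' z hz).1
      have hsub : MSub (s z) b := fun w hw => mem_sU.2 ⟨_, (mem_repS hs).2 ⟨z, hz, rfl⟩, hw⟩
      rcases ord_trich (s z) b hos (ord_mem hκ.ord hb) with h | h | h
      · exact mem_suc.2 (Or.inl h)
      · exact mem_suc.2 (Or.inr h)
      · exact absurd (hsub b h) (mem_irrefl b)
  obtain ⟨c', h1, h2⟩ := (hg' _ (hNμ _ hsb)).2 c a hcN ha hex
  refine ⟨c', Lv_mono (fun x hx => ?_) _ h1, h2⟩
  rw [mem_cup]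
  right
  exact mem_sU.2 ⟨_, (mem_repS (by fun_prop)).2 ⟨suc b, hsb, rfl⟩, hx⟩

/-- conditions can be extended at a new place -/
theorem exists_ext {κ μ c x y : M} (hκ : IsReg κ) (hμ : IsOrd μ) (hc : c ∈ Lv κ μ) (hx : x ∈ μ) (hy : y ∈ x) :
    ∃ i : M, i ∈ κ ∧ (∀ z : M, ¬ opair (opair x i) z ∈ c) ∧ cup c (sing (opair (opair x i) y)) ∈ Lv κ μ := by
  have hc' := mem_Lv.1 hc
  have hex : ∃ i : M, i ∈ κ ∧ ∀ z : M, ¬ opair (opair x i) z ∈ c := by
    by_contra hcon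
    push Not at hcon
    apply hc'.2.2.2
    apply le_image (A := c) (B := κ) (F := fun z => snd (fst z)) (by fun_prop)
    intro i hi
    obtain ⟨z, hz⟩ := hcon i hi
    exact ⟨_, hz, by rw [fst_opair, snd_opair]⟩
  obtain ⟨i, hi, hi'⟩ := hex
  refine ⟨i, hi, hi', cup_mem_Lv hκ hc ?_ (fun x' i' y' z' h1 h2 => ?_)⟩
  · rw [mem_Lv]
    refine ⟨fun z hz => ?_, fun x' i' y' h => ?_, fun x' i' y' z' h1 h2 => ?_, ?_⟩
    · exact ⟨x, i, y, hx, hi, hμ.1 x y hx hy, mem_sing.1 hz⟩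
    · have := mem_sing.1 h
      simp only [opair_inj] at this
      rw [this.2, this.1.1]; exact hy
    · have h3 := mem_sing.1 h1
      have h4 := mem_sing.1 h2
      simp only [opair_inj] at h3 h4
      rw [h3.2, h4.2]
    · intro h
      have h1 : Le (sing (opair (opair x i) y)) (suc emp) := by
        refine Le.of (fun _ => emp) (by fun_prop) (fun z _ => mem_suc.2 (Or.inr rfl)) (fun z w hz hw _ => ?_)
        rw [mem_sing.1 hz, mem_sing.1 hw]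
      exact hκ.init _ (hκ.succ _ hκ.zero) (h.trans h1)
  · have h3 := mem_sing.1 h2
    simp only [opair_inj] at h3
    rw [h3.1.1, h3.1.2] at h1
    exact absurd h1 (hi' _)

end

end Pool.Agent.Helper79.Kurepa
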